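import Pool.Agent.V7H78.RP.UH.I1

/-!
# The projective line: points, linear maps, Frobenius
-/

set_option autoImplicit false

namespace Pool.Agent.V7H78.RP.D

open Pool.Agent.V7H78.RP.UH Polynomial

section vec

variable {F : Type*} [Field F]

/-- the linear map with columns `U`, `V` -/
def gx (U V X : F × F) : F × F := X.1 • U + X.2 • V

/-- its adjugate -/
def ax (U V X : F × F) : F × F := (wd X V, wd U X)

lemma wd_gx (U V X Y : F × F) : wd (gx U V X) (gx U V Y) = wd U V * wd X Y := by
  unfold gx wd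
  simp only [Prod.fst_add, Prod.snd_add, Prod.smul_fst, Prod.smul_snd, smul_eq_mul]
  ring

lemma gx_ax (U V X : F × F) : gx U V (ax U V X) = wd U V • X := by
  unfold gx ax wd
  ext
  · simp only [Prod.fst_add, Prod.smul_fst, smul_eq_mul]
    ring
  · simp only [Prod.snd_add, Prod.smul_snd, smul_eq_mul]
    ring

lemma ax_gx (U V X : F × F) : ax U V (gx U V X) = wd U V • X := by
  unfold gx ax wd
  ext
  · simp only [Prod.fst_add, Prod.snd_add, Prod.smul_fst, Prod.smul_snd, smul_eq_mul]
    ring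
  · simp only [Prod.fst_add, Prod.snd_add, Prod.smul_fst, Prod.smul_snd, smul_eq_mul]
    ring

lemma gx_smul (U V : F × F) (t : F) (X : F × F) : gx U V (t • X) = t • gx U V X := by
  unfold gx
  ext
  · simp only [Prod.smul_fst, Prod.smul_snd, Prod.fst_add, smul_eq_mul]
    ring
  · simp only [Prod.smul_fst, Prod.smul_snd, Prod.snd_add, smul_eq_mul]
    ring

lemma ax_smul (U V : F × F) (t : F) (X : F × F) : ax U V (t • X) = t • ax U V X := by
  unfold ax
  ext
  · simp only [wd_smul_left, Prod.smul_fst, smul_eq_mul]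
  · simp only [wd_smul_right, Prod.smul_snd, smul_eq_mul]

lemma gx_gx (U V X Y Z : F × F) : gx U V (gx X Y Z) = gx (gx U V X) (gx U V Y) Z := by
  unfold gx
  ext
  · simp only [Prod.fst_add, Prod.smul_fst, Prod.snd_add, Prod.smul_snd, smul_eq_mul]
    ring
  · simp only [Prod.fst_add, Prod.smul_fst, Prod.snd_add, Prod.smul_snd, smul_eq_mul]
    ring

lemma gx_ne {U V X : F × F} (h : wd U V ≠ 0) (hX : X ≠ 0) : gx U V X ≠ 0 := by
  intro h0
  have h1 := ax_gx U V X
  rw [h0] at h1
  have h2 : ax U V (0 : F × F) = 0 := by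
    have := ax_smul U V 0 0
    rwa [zero_smul, zero_smul] at this
  rw [h2] at h1
  rcases smul_eq_zero.mp h1.symm with h3 | h3
  · exact h h3
  · exact hX h3

lemma ax_ne {U V X : F × F} (h : wd U V ≠ 0) (hX : X ≠ 0) : ax U V X ≠ 0 := by
  intro h0
  have h1 := gx_ax U V X
  rw [h0] at h1
  have h2 : gx U V (0 : F × F) = 0 := by
    have := gx_smul U V 0 0
    rwa [zero_smul, zero_smul] at this
  rw [h2] at h1
  rcases smul_eq_zero.mp h1.symm with h3 | h3
  · exact h h3
  · exact hX h3

/-- the point of the projective line with homogeneous coordinates `X` -/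
noncomputable def pt (X : F × F) : Option F := by
  classical exact if X.2 = 0 then none else some (X.1 / X.2)

lemma pt_zero {X : F × F} (h : X.2 = 0) : pt X = none := by
  unfold pt
  rw [if_pos h]

lemma pt_of_ne {X : F × F} (h : X.2 ≠ 0) : pt X = some (X.1 / X.2) := by
  unfold pt
  rw [if_neg h]

lemma pt_eq_iff {X Y : F × F} (hX : X ≠ 0) (hY : Y ≠ 0) : pt X = pt Y ↔ wd X Y = 0 := by
  unfold wd
  by_cases h1 : X.2 = 0
  · have hX1 : X.1 ≠ 0 := fun h => hX (Prod.ext h h1)
    rw [pt_zero h1, h1, zero_mul, sub_zero]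
    by_cases h2 : Y.2 = 0
    · rw [pt_zero h2, h2, mul_zero]
      simp
    · rw [pt_of_ne h2]
      simp [hX1, h2]
  · rw [pt_of_ne h1]
    by_cases h2 : Y.2 = 0
    · have hY1 : Y.1 ≠ 0 := fun h => hY (Prod.ext h h2)
      rw [pt_zero h2, h2, mul_zero, zero_sub]
      simp [hY1, h1]
    · rw [pt_of_ne h2, Option.some.injEq, div_eq_div_iff h1 h2, sub_eq_zero]
      rw [mul_comm X.2 Y.1]

lemma pt_smul {t : F} (ht : t ≠ 0) (X : F × F) : pt (t • X) = pt X := by
  by_cases h : X.2 = 0
  · rw [pt_zero h, pt_zero (by simp [h])]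
  · rw [pt_of_ne h, pt_of_ne (by simp [h, ht])]
    simp only [Prod.smul_fst, Prod.smul_snd, smul_eq_mul]
    rw [mul_div_mul_left _ _ ht]

/-- homogeneous coordinates of a point -/
def rep : Option F → F × F
  | some x => (x, 1)
  | none => (1, 0)

lemma rep_ne (z : Option F) : rep z ≠ 0 := by
  rcases z with _ | x
  · intro h
    have := congrArg Prod.fst h
    exact one_ne_zero this
  · intro h
    have := congrArg Prod.snd h
    exact one_ne_zero this

lemma pt_rep (z : Option F) : pt (rep z) = z := by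
  rcases z with _ | x
  · exact pt_zero rfl
  · have h : (rep (some x)).2 ≠ 0 := one_ne_zero
    rw [pt_of_ne h]
    show some (x / 1) = some x
    rw [div_one]

lemma exists_rep {X : F × F} (hX : X ≠ 0) : ∃ t : F, t ≠ 0 ∧ X = t • rep (pt X) := by
  by_cases h : X.2 = 0
  · have hX1 : X.1 ≠ 0 := fun h1 => hX (Prod.ext h1 h)
    refine ⟨X.1, hX1, ?_⟩
    rw [pt_zero h]
    ext
    · simp [rep]
    · simp [rep, h]
  · refine ⟨X.2, h, ?_⟩
    rw [pt_of_ne h]
    ext
    · simp only [rep, Prod.smul_fst, smul_eq_mul]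
      field_simp
    · simp [rep]

/-- the Moebius map -/
noncomputable def mb (U V : F × F) (z : Option F) : Option F := pt (gx U V (rep z))

lemma mb_pt (U V : F × F) {X : F × F} (hX : X ≠ 0) : mb U V (pt X) = pt (gx U V X) := by
  obtain ⟨t, ht, h⟩ := exists_rep hX
  unfold mb
  conv_rhs => rw [h, gx_smul, pt_smul ht]

lemma mb_mb {U V X Y : F × F} (h : wd X Y ≠ 0) (z : Option F) :
    mb U V (mb X Y z) = mb (gx U V X) (gx U V Y) z := by
  conv_lhs => unfold mb
  have h1 : pt (gx U V (rep (pt (gx X Y (rep z))))) = mb U V (pt (gx X Y (rep z))) := rfl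
  rw [h1, mb_pt U V (gx_ne h (rep_ne z)), gx_gx]
  rfl

/-- the inverse Moebius map -/
noncomputable def mi (U V : F × F) (z : Option F) : Option F := pt (ax U V (rep z))

lemma ax_eq (U V X : F × F) : ax U V X = gx (V.2, -U.2) (-V.1, U.1) X := by
  unfold ax gx wd
  ext
  · simp only [Prod.fst_add, Prod.smul_fst, smul_eq_mul]
    ring
  · simp only [Prod.snd_add, Prod.smul_snd, smul_eq_mul]
    ring

lemma wd_adj (U V : F × F) : wd ((V.2, -U.2) : F × F) (-V.1, U.1) = wd U V := by
  unfold wd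
  ring

lemma mi_eq (U V : F × F) (z : Option F) : mi U V z = mb (V.2, -U.2) (-V.1, U.1) z := by
  unfold mi mb
  rw [ax_eq]

lemma mi_pt (U V : F × F) {X : F × F} (hX : X ≠ 0) : mi U V (pt X) = pt (ax U V X) := by
  rw [mi_eq, mb_pt _ _ hX, ← ax_eq]

lemma mi_mb {U V : F × F} (h : wd U V ≠ 0) (z : Option F) : mi U V (mb U V z) = z := by
  show mi U V (pt (gx U V (rep z))) = z
  rw [mi_pt _ _ (gx_ne h (rep_ne z)), ax_gx, pt_smul h, pt_rep]

lemma mb_mi {U V : F × F} (h : wd U V ≠ 0) (z : Option F) : mb U V (mi U V z) = z := by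
  show mb U V (pt (ax U V (rep z))) = z
  rw [mb_pt _ _ (ax_ne h (rep_ne z)), gx_ax, pt_smul h, pt_rep]

end vec

section frob

variable {F : Type*} [Field F] (p : ℕ) [Fact p.Prime] [CharP F p]

/-- Frobenius on vectors -/
def fv (N : ℕ) (X : F × F) : F × F := (X.1 ^ p ^ N, X.2 ^ p ^ N)

/-- Frobenius on points -/
def fz (N : ℕ) (z : Option F) : Option F := z.map fun x => x ^ p ^ N

omit [Fact p.Prime] [CharP F p] in
lemma fz_inj' {N : ℕ} (h : Function.Injective fun x : F => x ^ p ^ N) :
    Function.Injective (fz p N : Option F → Option F) := Option.map_injective h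

lemma pow_inj (N : ℕ) : Function.Injective fun x : F => x ^ p ^ N := by
  intro x y h
  exact iterateFrobenius_inj F p N h

lemma fz_inj (N : ℕ) : Function.Injective (fz p N : Option F → Option F) :=
  fz_inj' p (pow_inj p N)

omit [CharP F p] in
lemma fv_ne {N : ℕ} {X : F × F} (hX : X ≠ 0) : fv p N X ≠ 0 := by
  intro h
  apply hX
  have hp : p ^ N ≠ 0 := pow_ne_zero _ (Fact.out : p.Prime).ne_zero
  ext
  · exact (pow_eq_zero_iff hp).mp (congrArg Prod.fst h)
  · exact (pow_eq_zero_iff hp).mp (congrArg Prod.snd h)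

omit [CharP F p] in
lemma pt_fv (N : ℕ) (X : F × F) : pt (fv p N X) = fz p N (pt X) := by
  have hp : p ^ N ≠ 0 := pow_ne_zero _ (Fact.out : p.Prime).ne_zero
  by_cases h : X.2 = 0
  · rw [pt_zero h, pt_zero (by show X.2 ^ p ^ N = 0; rw [h, zero_pow hp])]
    rfl
  · rw [pt_of_ne h, pt_of_ne (by simp [fv, h])]
    simp only [fv, fz, Option.map_some, div_pow]

omit [CharP F p] in
lemma fv_smul (N : ℕ) (t : F) (X : F × F) : fv p N (t • X) = t ^ p ^ N • fv p N X := by
  unfold fv
  ext
  · simp [mul_pow]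
  · simp [mul_pow]

lemma wd_fv (N : ℕ) (X Y : F × F) : wd (fv p N X) (fv p N Y) = wd X Y ^ p ^ N := by
  unfold wd fv
  rw [sub_pow_char_pow, mul_pow, mul_pow]

lemma fv_gx (N : ℕ) (U V X : F × F) : fv p N (gx U V X) = gx (fv p N U) (fv p N V) (fv p N X) := by
  unfold fv gx
  ext
  · simp only [Prod.fst_add, Prod.smul_fst, smul_eq_mul]
    rw [add_pow_char_pow, mul_pow, mul_pow]
  · simp only [Prod.snd_add, Prod.smul_snd, smul_eq_mul]
    rw [add_pow_char_pow, mul_pow, mul_pow]

omit [Fact p.Prime] [CharP F p] in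
lemma fv_fv (M N : ℕ) (X : F × F) : fv p M (fv p N X) = fv p (M + N) X := by
  unfold fv
  ext
  · simp only
    rw [← pow_mul, ← pow_add, add_comm]
  · simp only
    rw [← pow_mul, ← pow_add, add_comm]

omit [Fact p.Prime] [CharP F p] in
lemma fz_fz (M N : ℕ) (z : Option F) : fz p M (fz p N z) = fz p (M + N) z := by
  unfold fz
  rw [Option.map_map]
  congr 1
  funext x
  simp only [Function.comp_apply]
  rw [← pow_mul, ← pow_add, add_comm]

omit [Fact p.Prime] [CharP F p] in
lemma fz_zero (z : Option F) : fz p 0 z = z := by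
  unfold fz
  simp

end frob

end Pool.Agent.V7H78.RP.D
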