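import Pool.Agent.V7H78.RP.D.A9

/-!
# Three points of small degree exist
-/

set_option autoImplicit false

namespace Pool.Agent.V7H78.RP.D

open Pool.Agent.V7H78.RP.UH Polynomial

variable {K L : Type*} [Field K] [Field L] [Algebra K L] {d : ℕ}

namespace RD

variable (R : RD K L d)

lemma act_none : R.act none = pt (vb L (R.p.coeff d, R.q.coeff d)) := by
  show pt (hl L d R.p (1, 0), hl L d R.q (1, 0)) = _
  rw [hl_zero, hl_zero, one_pow, mul_one, mul_one]
  rfl

lemma pq_ne (x : L) : aeval x R.p ≠ 0 ∨ aeval x R.q ≠ 0 := by
  by_contra hcon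
  push Not at hcon
  apply R.nv (x, 1) (by
    intro h0
    exact one_ne_zero (congrArg Prod.snd h0))
  rw [hl_one d _ R.hp, hl_one d _ R.hq, hcon.1, hcon.2]
  rfl

/-- the polynomial of the fibre -/
noncomputable def fp (w : Option L) : L[X] :=
  match w with
  | none => R.q.map (algebraMap K L)
  | some y => R.p.map (algebraMap K L) - C y * R.q.map (algebraMap K L)

lemma fp_degree (w : Option L) : (R.fp w).natDegree ≤ d := by
  rcases w with _ | y
  · exact natDegree_map_le.trans R.hq
  · refine (natDegree_sub_le _ _).trans (max_le (natDegree_map_le.trans R.hp) ?_)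
    exact (natDegree_C_mul_le _ _).trans (natDegree_map_le.trans R.hq)

lemma fp_root {w : Option L} {x : L} : R.act (some x) = w ↔ (R.fp w).eval x = 0 := by
  rw [act_some_eq]
  have h := R.pq_ne x
  rcases w with _ | y
  · show _ ↔ (R.q.map (algebraMap K L)).eval x = 0
    rw [eval_map_algebraMap]
    constructor
    · intro h1
      by_contra h2
      rw [pt_of_ne h2] at h1
      exact absurd h1 (by simp)
    · intro h1
      exact pt_zero h1
  · show _ ↔ (R.p.map (algebraMap K L) - C y * R.q.map (algebraMap K L)).eval x = 0
    rw [eval_sub, eval_mul, eval_C, eval_map_algebraMap, eval_map_algebraMap, sub_eq_zero]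
    constructor
    · intro h1
      by_cases h2 : aeval x R.q = 0
      · rw [pt_zero h2] at h1
        exact absurd h1 (by simp)
      · rw [pt_of_ne h2] at h1
        have h3 := Option.some_injective _ h1
        simp only at h3
        rw [← h3, div_mul_cancel₀ _ h2]
    · intro h1
      have h2 : aeval x R.q ≠ 0 := by
        intro h2
        rw [h2, mul_zero] at h1
        rcases h with h | h
        · exact h h1
        · exact h h2
      rw [pt_of_ne h2]
      simp only
      rw [h1, mul_div_cancel_right₀ _ h2]

lemma fp_infty {w : Option L} : R.act none = w ↔ (R.fp w).coeff d = 0 := by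
  rw [act_none]
  have h := R.lead
  rcases w with _ | y
  · show _ ↔ (R.q.map (algebraMap K L)).coeff d = 0
    rw [coeff_map]
    constructor
    · intro h1
      by_contra h2
      rw [pt_of_ne h2] at h1
      exact absurd h1 (by simp)
    · intro h1
      exact pt_zero h1
  · show _ ↔ (R.p.map (algebraMap K L) - C y * R.q.map (algebraMap K L)).coeff d = 0
    rw [coeff_sub, coeff_C_mul, coeff_map, coeff_map, sub_eq_zero]
    constructor
    · intro h1
      by_cases h2 : algebraMap K L (R.q.coeff d) = 0
      · have h3 : (vb L (R.p.coeff d, R.q.coeff d)).2 = 0 := h2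
        rw [pt_zero h3] at h1
        exact absurd h1 (by simp)
      · have h3 : (vb L (R.p.coeff d, R.q.coeff d)).2 ≠ 0 := h2
        rw [pt_of_ne h3] at h1
        have h4 := Option.some_injective _ h1
        rw [← h4]
        exact (div_mul_cancel₀ _ h2).symm
    · intro h1
      have h2 : algebraMap K L (R.q.coeff d) ≠ 0 := by
        intro h2
        rw [h2, mul_zero] at h1
        rcases h with h | h
        · exact h ((map_eq_zero _).mp h1)
        · exact h ((map_eq_zero _).mp h2)
      have h3 : (vb L (R.p.coeff d, R.q.coeff d)).2 ≠ 0 := h2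
      rw [pt_of_ne h3]
      show some (algebraMap K L (R.p.coeff d) / algebraMap K L (R.q.coeff d)) = some y
      rw [h1, mul_div_cancel_right₀ _ h2]

variable [IsAlgClosed L]

lemma fp_ne (hd : 1 ≤ d) (w : Option L) : R.fp w ≠ 0 := by
  intro h0
  rcases w with _ | y
  · have h1 : R.q.map (algebraMap K L) = 0 := h0
    have h2 : R.q = 0 := (Polynomial.map_eq_zero _).mp h1
    have hco := R.coprime
    rw [h2] at hco
    have h3 := natDegree_eq_zero_of_isUnit (isCoprime_zero_right.mp hco)
    rcases R.lead with h | h
    · exact h (coeff_eq_zero_of_natDegree_lt (by omega))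
    · exact h (by rw [h2, coeff_zero])
  · apply q_ne hd R y
    intro x
    have h1 : (R.p.map (algebraMap K L) - C y * R.q.map (algebraMap K L)).eval x = 0 := by
      have : R.p.map (algebraMap K L) - C y * R.q.map (algebraMap K L) = 0 := h0
      rw [this, eval_zero]
    rw [eval_sub, eval_mul, eval_C, eval_map_algebraMap, eval_map_algebraMap] at h1
    exact sub_eq_zero.mp h1

/-- rational maps are surjective over an algebraically closed field -/
lemma act_surj (hd : 1 ≤ d) : Function.Surjective R.act := by
  intro w
  by_cases h : (R.fp w).coeff d = 0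
  · exact ⟨none, R.fp_infty.mpr h⟩
  · have h1 : (R.fp w).degree ≠ 0 := by
      intro h2
      have h3 := natDegree_eq_zero_iff_degree_le_zero.mpr h2.le
      exact h (coeff_eq_zero_of_natDegree_lt (by omega))
    obtain ⟨x, hx⟩ := IsAlgClosed.exists_root (R.fp w) h1
    exact ⟨some x, R.fp_root.mpr hx⟩

lemma exists_fix (hd : 2 ≤ d) : ∃ z, R.act z = z := by
  by_cases h : R.q.coeff d = 0
  · refine ⟨none, ?_⟩
    rw [R.fp_infty]
    show (R.q.map (algebraMap K L)).coeff d = 0
    rw [coeff_map, h, map_zero]
  · have hne := R.fix_ne hd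
    have h1 : (R.p - X * R.q).coeff (d + 1) ≠ 0 := by
      rw [coeff_sub, coeff_X_mul]
      have h2 : R.p.coeff (d + 1) = 0 := coeff_eq_zero_of_natDegree_lt (by
        have := R.hp
        omega)
      rw [h2, zero_sub, neg_ne_zero]
      exact h
    have h3 : ((R.p - X * R.q).map (algebraMap K L)).degree ≠ 0 := by
      rw [degree_map]
      intro h2
      have h4 := natDegree_eq_zero_iff_degree_le_zero.mpr h2.le
      exact h1 (coeff_eq_zero_of_natDegree_lt (by omega))
    obtain ⟨x, hx⟩ := IsAlgClosed.exists_root _ h3
    refine ⟨some x, ?_⟩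
    rw [R.fp_root]
    rw [IsRoot.def, Polynomial.map_sub, Polynomial.map_mul, map_X, eval_sub, eval_mul,
      eval_X] at hx
    show (R.p.map (algebraMap K L) - C x * R.q.map (algebraMap K L)).eval x = 0
    rw [eval_sub, eval_mul, eval_C]
    exact hx

end RD

/-- a fixed point with another preimage gives three points -/
lemma three_of_fix [IsAlgClosed L] (hd : 2 ≤ d) (R : RD K L d) {z z1 : Option L}
    (hz : R.act z = z) (hne : z1 ≠ z) (h1 : R.act z1 = z) : ∃ z2, Three R z z1 z2 := by
  obtain ⟨z2, h2⟩ := R.act_surj (by omega) z1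
  refine ⟨z2, hne.symm, ?_, ?_, hz, h1, h2⟩
  · rintro rfl
    exact hne (by rw [← h2, hz])
  · rintro rfl
    exact hne (by rw [← h2, h1])

/-- base change to `L` -/
noncomputable def RD.bc (R : RD K L d) : RD L L d where
  p := R.p.map (algebraMap K L)
  q := R.q.map (algebraMap K L)
  hp := natDegree_map_le.trans R.hp
  hq := natDegree_map_le.trans R.hq
  nv := by
    intro X hX
    have h := R.nv X hX
    unfold hl at h ⊢
    rw [Polynomial.map_map, Polynomial.map_map]
    exact h

lemma RD.bc_act (R : RD K L d) (z : Option L) : R.bc.act z = R.act z := by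
  unfold RD.act RD.hv RD.bc hl
  simp only
  rw [Polynomial.map_map, Polynomial.map_map]
  rfl

lemma vb_self (X : L × L) : vb L X = X := rfl

/-- the power map on the projective line -/
def powz (d : ℕ) (z : Option L) : Option L := z.map fun x => x ^ d

/-- **Three points of small degree, or a conjugate of the power map.** -/
theorem exists_three [IsAlgClosed L] (hd : 2 ≤ d) (R : RD K L d) :
    (∃ z z1 z2, Three R z z1 z2) ∨
    ∃ U V : L × L, wd U V ≠ 0 ∧ ∀ z, R.act (mb U V z) = mb U V (powz d z) := by
  by_cases hex : ∃ z z1 : Option L, R.act z = z ∧ z1 ≠ z ∧ R.act z1 = z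
  · obtain ⟨z, z1, h1, h2, h3⟩ := hex
    obtain ⟨z2, h⟩ := three_of_fix hd R h1 h2 h3
    exact Or.inl ⟨z, z1, z2, h⟩
  · right
    push Not at hex
    have hexc : ∀ z z1 : Option L, R.act z = z → R.act z1 = z → z1 = z := by
      intro z z1 h1 h2
      by_contra h3
      exact hex z z1 h1 h3 h2
    obtain ⟨z, hz⟩ := R.exists_fix hd
    -- move `z` to infinity
    obtain ⟨U, V, hUV, hUz⟩ : ∃ U V : L × L, wd U V ≠ 0 ∧ mb U V none = z := by
      rcases z with _ | x
      · refine ⟨(1, 0), (0, 1), by unfold wd; simp, ?_⟩
        show pt (gx ((1, 0) : L × L) (0, 1) (1, 0)) = none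
        apply pt_zero
        unfold gx
        simp
      · refine ⟨(x, 1), (1, 0), by unfold wd; simp, ?_⟩
        show pt (gx ((x, 1) : L × L) (1, 0) (1, 0)) = some x
        have h1 : gx ((x, 1) : L × L) (1, 0) (1, 0) = (x, 1) := by
          unfold gx
          ext <;> simp
        rw [h1]
        exact pt_rep (some x)
    set R1 := R.bc.conj U V hUV with hR1
    have hR1a : ∀ u, R1.act u = mi U V (R.act (mb U V u)) := by
      intro u
      rw [hR1, RD.conj_act, RD.bc_act]
      rfl
    have hsemi : ∀ u, R.act (mb U V u) = mb U V (R1.act u) := by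
      intro u
      rw [hR1a, mb_mi hUV]
    have hexc1 : ∀ u u1 : Option L, R1.act u = u → R1.act u1 = u → u1 = u := by
      intro u u1 h1 h2
      have h3 : R.act (mb U V u) = mb U V u := by rw [hsemi, h1]
      have h4 : R.act (mb U V u1) = mb U V u := by rw [hsemi, h2]
      have h5 := congrArg (mi U V) (hexc _ _ h3 h4)
      rwa [mi_mb hUV, mi_mb hUV] at h5
    have hinf : R1.act none = none := by
      rw [hR1a, hUz, hz, ← hUz, mi_mb hUV]
    have hqd : R1.q.coeff d = 0 := by
      have h : (R1.q.map (algebraMap L L)).coeff d = 0 := R1.fp_infty.mp hinf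
      rw [coeff_map] at h
      exact (map_eq_zero _).mp h
    have hpd : R1.p.coeff d ≠ 0 := R1.lead.resolve_right fun h => h hqd
    have hpdeg : R1.p.natDegree = d := le_antisymm R1.hp (le_natDegree_of_ne_zero hpd)
    have hq0 : R1.q.natDegree = 0 := by
      by_contra hne
      have h1 : R1.q.degree ≠ 0 := by
        intro h
        exact hne (natDegree_eq_zero_iff_degree_le_zero.mpr h.le)
      obtain ⟨x, hx⟩ := IsAlgClosed.exists_root R1.q h1
      have h2 : R1.act (some x) = none := by
        rw [R1.fp_root]
        show (R1.q.map (algebraMap L L)).eval x = 0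
        rw [Algebra.algebraMap_self, Polynomial.map_id]
        exact hx
      exact absurd (hexc1 none (some x) hinf h2) (by simp)
    obtain ⟨c, hc⟩ := natDegree_eq_zero.mp hq0
    have hc0 : c ≠ 0 := by
      rintro rfl
      have h1 := R1.coprime
      rw [← hc, C_0] at h1
      have h2 := natDegree_eq_zero_of_isUnit (isCoprime_zero_right.mp h1)
      omega
    set f : L[X] := C c⁻¹ * R1.p with hf
    have hfd : f.natDegree = d := by
      rw [hf, natDegree_C_mul (inv_ne_zero hc0), hpdeg]
    have hact : ∀ x : L, R1.act (some x) = some (f.eval x) := by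
      intro x
      rw [act_some_eq, ← hc]
      have h1 : aeval x (C c : L[X]) = c := by simp
      rw [h1, pt_of_ne hc0, hf, eval_mul, eval_C, coe_aeval_eq_eval]
      simp only
      rw [div_eq_inv_mul]
    -- a finite fixed point
    have hfX : (f - X).natDegree = d := by
      rw [natDegree_sub_eq_left_of_natDegree_lt]
      · exact hfd
      · rw [hfd, natDegree_X]
        omega
    have h1 : (f - X).degree ≠ 0 := by
      intro h
      have := natDegree_eq_zero_iff_degree_le_zero.mpr h.le
      omega
    obtain ⟨x0, hx0⟩ := IsAlgClosed.exists_root _ h1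
    rw [IsRoot.def, eval_sub, eval_X, sub_eq_zero] at hx0
    have hfix0 : R1.act (some x0) = some x0 := by rw [hact, hx0]
    have honly : ∀ x, f.eval x = x0 → x = x0 := by
      intro x hx
      have h2 : R1.act (some x) = some x0 := by rw [hact, hx]
      exact Option.some_injective _ (hexc1 _ _ hfix0 h2)
    set g : L[X] := f - C x0 with hg
    have hgd : g.natDegree = d := by rw [hg, natDegree_sub_C, hfd]
    have hroots : g.roots = Multiset.replicate d x0 := by
      rw [Multiset.eq_replicate]
      constructor
      · rw [← hgd]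
        exact ((IsAlgClosed.splits g).natDegree_eq_card_roots).symm
      · intro b hb
        apply honly
        have h2 := isRoot_of_mem_roots hb
        rw [IsRoot.def, hg, eval_sub, eval_C, sub_eq_zero] at h2
        exact h2
    have hgeval : ∀ x, f.eval x = x0 + g.leadingCoeff * (x - x0) ^ d := by
      intro x
      have h2 := (IsAlgClosed.splits g).eval_eq_prod_roots x
      rw [hroots, Multiset.map_replicate, Multiset.prod_replicate] at h2
      rw [hg, eval_sub, eval_C] at h2
      rw [← h2]
      ring
    set a := g.leadingCoeff with ha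
    have ha0 : a ≠ 0 := by
      rw [ha]
      apply leadingCoeff_ne_zero.mpr
      intro h
      rw [h, natDegree_zero] at hgd
      omega
    obtain ⟨μ, hμ⟩ := IsAlgClosed.exists_pow_nat_eq a⁻¹ (n := d - 1) (by omega)
    have hμ0 : μ ≠ 0 := by
      rintro rfl
      rw [zero_pow (by omega)] at hμ
      exact inv_ne_zero ha0 hμ.symm
    have hT : wd ((μ, 0) : L × L) (x0, 1) ≠ 0 := by
      unfold wd
      simpa using hμ0
    have hTs : ∀ y : L, mb ((μ, 0) : L × L) (x0, 1) (some y) = some (x0 + μ * y) := by
      intro y
      show pt (gx ((μ, 0) : L × L) (x0, 1) (y, 1)) = _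
      have h2 : gx ((μ, 0) : L × L) (x0, 1) (y, 1) = (x0 + μ * y, 1) := by
        unfold gx
        ext
        · simp only [Prod.fst_add, Prod.smul_fst, smul_eq_mul]
          ring
        · simp
      rw [h2]
      exact pt_rep (some _)
    have hTn : mb ((μ, 0) : L × L) (x0, 1) none = none := by
      show pt (gx ((μ, 0) : L × L) (x0, 1) (1, 0)) = none
      apply pt_zero
      unfold gx
      simp
    have hTsemi : ∀ z, R1.act (mb ((μ, 0) : L × L) (x0, 1) z) =
        mb ((μ, 0) : L × L) (x0, 1) (powz d z) := by
      intro z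
      rcases z with _ | y
      · rw [hTn, hinf]
        exact hTn.symm
      · rw [hTs, hact, hgeval]
        show _ = mb ((μ, 0) : L × L) (x0, 1) (some (y ^ d))
        rw [hTs]
        congr 1
        have h2 : a * μ ^ d = μ := by
          have h3 : μ ^ d = μ ^ (d - 1) * μ := by
            rw [← pow_succ]
            congr 1
            omega
          rw [h3, hμ]
          field_simp
        have h3 : (x0 + μ * y - x0) ^ d = μ ^ d * y ^ d := by
          rw [add_sub_cancel_left, mul_pow]
        rw [h3]
        linear_combination y ^ d * h2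
    refine ⟨gx U V (μ, 0), gx U V (x0, 1), ?_, ?_⟩
    · rw [wd_gx]
      exact mul_ne_zero hUV hT
    · intro z
      rw [← mb_mb hT, ← mb_mb hT, hsemi, hTsemi]

end Pool.Agent.V7H78.RP.D
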