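import Pool.Agent.V7H78.RP.D.A10

/-!
# Fibres and critical values
-/

set_option autoImplicit false

namespace Pool.Agent.V7H78.RP.D

open Pool.Agent.V7H78.RP.UH Polynomial

variable {K L : Type*} [Field K] [Field L] [Algebra K L] {d : ℕ}

namespace RD

variable (R : RD K L d)

/-- the fibre -/
def fib (w : Option L) : Set (Option L) := {z | R.act z = w}

open Classical in
/-- the finite points of the fibre -/
noncomputable def ffin (w : Option L) : Finset (Option L) :=
  (R.fp w).roots.toFinset.image some

open Classical in
lemma ffin_card (w : Option L) : (R.ffin w).card = (R.fp w).roots.toFinset.card :=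
  Finset.card_image_of_injective _ (Option.some_injective _)

variable [IsAlgClosed L]

open Classical in
lemma mem_ffin (hd : 1 ≤ d) {w : Option L} {x : L} : some x ∈ R.ffin w ↔ R.act (some x) = w := by
  rw [R.fp_root]
  unfold ffin
  rw [Finset.mem_image]
  constructor
  · rintro ⟨y, hy, h⟩
    have h1 : y = x := Option.some_injective _ h
    rw [Multiset.mem_toFinset, mem_roots (R.fp_ne hd w), IsRoot.def, h1] at hy
    exact hy
  · intro h
    refine ⟨x, ?_, rfl⟩
    rw [Multiset.mem_toFinset, mem_roots (R.fp_ne hd w), IsRoot.def]
    exact h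

open Classical in
lemma fib_eq (hd : 1 ≤ d) (w : Option L) :
    R.fib w = ((if R.act none = w then insert none (R.ffin w) else R.ffin w :
      Finset (Option L)) : Set (Option L)) := by
  ext z
  show R.act z = w ↔ _
  rw [Finset.mem_coe]
  rcases z with _ | x
  · by_cases h : R.act none = w
    · rw [if_pos h]
      simp [h]
    · rw [if_neg h]
      constructor
      · intro h'
        exact absurd h' h
      · intro h'
        unfold ffin at h'
        rw [Finset.mem_image] at h'
        obtain ⟨y, _, hy⟩ := h'
        exact absurd hy (by simp)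
  · rw [← R.mem_ffin hd]
    by_cases h : R.act none = w
    · rw [if_pos h, Finset.mem_insert]
      constructor
      · exact fun h' => Or.inr h'
      · rintro (h' | h')
        · exact absurd h' (by simp)
        · exact h'
    · rw [if_neg h]

lemma fib_finite (hd : 1 ≤ d) (w : Option L) : (R.fib w).Finite := by
  classical
  rw [R.fib_eq hd]
  exact Finset.finite_toSet _

lemma fib_ncard_le (hd : 1 ≤ d) (w : Option L) (m : ℕ)
    (hm : (R.ffin w).card + m ≤ (R.fp w).natDegree) : (R.fib w).ncard + m ≤ d := by
  classical
  rw [R.fib_eq hd, Set.ncard_coe_finset]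
  have h1 := R.fp_degree w
  by_cases h : R.act none = w
  · rw [if_pos h]
    have h2 := R.fp_infty.mp h
    have h3 : (R.fp w).natDegree ≠ d := by
      intro h3
      have h5 : (R.fp w).leadingCoeff = 0 := by
        unfold leadingCoeff
        rw [h3]
        exact h2
      exact R.fp_ne hd w (leadingCoeff_eq_zero.mp h5)
    have h4 := Finset.card_insert_le none (R.ffin w)
    omega
  · rw [if_neg h]
    omega

lemma ffin_card_le (w : Option L) : (R.ffin w).card ≤ (R.fp w).natDegree := by
  classical
  rw [R.ffin_card]
  exact (Multiset.toFinset_card_le _).trans (card_roots' _)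

lemma fib_card (hd : 1 ≤ d) (w : Option L) : (R.fib w).ncard ≤ d :=
  R.fib_ncard_le hd w 0 (R.ffin_card_le w)

/-- a multiple root makes the fibre smaller -/
lemma fib_lt (hd : 1 ≤ d) {w : Option L} {x : L} (hx : (R.fp w).eval x = 0)
    (hx' : (derivative (R.fp w)).eval x = 0) : (R.fib w).ncard < d := by
  classical
  have h1 : (R.ffin w).card + 1 ≤ (R.fp w).natDegree := by
    rw [R.ffin_card, (IsAlgClosed.splits (R.fp w)).natDegree_eq_card_roots]
    apply Nat.lt_of_le_of_ne (Multiset.toFinset_card_le _)
    intro h
    rw [Multiset.toFinset_card_eq_card_iff_nodup, nodup_roots_iff_of_splits (R.fp_ne hd w)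
      (IsAlgClosed.splits _)] at h
    obtain ⟨a, b, hab⟩ := h
    have h2 := congrArg (eval x) hab
    rw [eval_add, eval_mul, eval_mul, hx, hx', mul_zero, mul_zero, add_zero, eval_one] at h2
    exact zero_ne_one h2
  have := R.fib_ncard_le hd w 1 h1
  omega

/-- the Wronskian -/
noncomputable def wr : K[X] := derivative R.p * R.q - R.p * derivative R.q

omit [IsAlgClosed L] in
lemma wr_degree : R.wr.natDegree ≤ 2 * d := by
  refine (natDegree_sub_le _ _).trans (max_le ?_ ?_)
  · refine natDegree_mul_le.trans ?_
    have h1 := natDegree_derivative_le R.p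
    have h2 := R.hp
    have h3 := R.hq
    omega
  · refine natDegree_mul_le.trans ?_
    have h1 := natDegree_derivative_le R.q
    have h2 := R.hp
    have h3 := R.hq
    omega

/-- the critical values -/
lemma crit_finite (hd : 1 ≤ d) (hsep : R.wr ≠ 0) :
    {w : Option L | (R.fib w).ncard < d}.Finite ∧
      {w : Option L | (R.fib w).ncard < d}.ncard ≤ 2 * d + 1 := by
  classical
  have hW : R.wr.map (algebraMap K L) ≠ 0 :=
    (Polynomial.map_ne_zero_iff (algebraMap K L).injective).mpr hsep
  have hsub : {w : Option L | (R.fib w).ncard < d} ⊆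
      ((insert (R.act none) ((R.wr.map (algebraMap K L)).roots.toFinset.image
        fun x => R.act (some x)) : Finset (Option L)) : Set (Option L)) := by
    intro w hw
    rw [Set.mem_setOf_eq] at hw
    rw [Finset.mem_coe, Finset.mem_insert]
    by_cases h : R.act none = w
    · exact Or.inl h.symm
    · right
      rw [R.fib_eq hd, if_neg h, Set.ncard_coe_finset] at hw
      have h1 : (R.fp w).natDegree = d := by
        apply le_antisymm (R.fp_degree w)
        apply le_natDegree_of_ne_zero
        intro h2
        exact h (R.fp_infty.mpr h2)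
      have h2 : ¬ (R.fp w).Separable := by
        intro h2
        rw [← nodup_roots_iff_of_splits (R.fp_ne hd w) (IsAlgClosed.splits _),
          ← Multiset.toFinset_card_eq_card_iff_nodup] at h2
        rw [R.ffin_card, h2, ← (IsAlgClosed.splits (R.fp w)).natDegree_eq_card_roots] at hw
        omega
      have h3 : ∃ x, (R.fp w).eval x = 0 ∧ (derivative (R.fp w)).eval x = 0 := by
        by_contra hcon
        push Not at hcon
        apply h2
        refine (isCoprime_iff_aeval_ne_zero_of_isAlgClosed (k := L) L _ _).mpr ?_
        intro x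
        by_cases hx : (R.fp w).eval x = 0
        · right
          exact hcon x hx
        · left
          exact hx
      obtain ⟨x, hx, hx'⟩ := h3
      rw [Finset.mem_image]
      refine ⟨x, ?_, R.fp_root.mpr hx⟩
      rw [Multiset.mem_toFinset, mem_roots hW, IsRoot.def, eval_map_algebraMap]
      unfold wr
      rw [map_sub, map_mul, map_mul]
      rcases w with _ | y
      · have g1 : (R.q.map (algebraMap K L)).eval x = 0 := hx
        have g2 : (derivative (R.q.map (algebraMap K L))).eval x = 0 := hx'
        rw [eval_map_algebraMap] at g1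
        rw [derivative_map, eval_map_algebraMap] at g2
        rw [g1, g2]
        ring
      · have g1 : (R.p.map (algebraMap K L) - C y * R.q.map (algebraMap K L)).eval x = 0 := hx
        have g2 : (derivative (R.p.map (algebraMap K L) - C y * R.q.map (algebraMap K L))).eval x
            = 0 := hx'
        rw [eval_sub, eval_mul, eval_C, eval_map_algebraMap, eval_map_algebraMap] at g1
        rw [derivative_sub, derivative_C_mul, eval_sub, eval_mul, eval_C, derivative_map,
          derivative_map, eval_map_algebraMap, eval_map_algebraMap] at g2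
        linear_combination (aeval x R.q) * g2 - (aeval x (derivative R.q)) * g1
  refine ⟨(Finset.finite_toSet _).subset hsub, ?_⟩
  refine (Set.ncard_le_ncard hsub (Finset.finite_toSet _)).trans ?_
  rw [Set.ncard_coe_finset]
  refine (Finset.card_insert_le _ _).trans ?_
  have h1 : (R.wr.map (algebraMap K L)).roots.toFinset.card ≤ 2 * d :=
    (Multiset.toFinset_card_le _).trans ((card_roots' _).trans
      (natDegree_map_le.trans R.wr_degree))
  have h2 := Finset.card_image_le (s := (R.wr.map (algebraMap K L)).roots.toFinset)
    (f := fun x => R.act (some x))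
  omega

end RD

variable (p : ℕ) [Fact p.Prime] [CharP K p] [CharP L p]

omit [CharP L p] in
/-- an inseparable point of a fibre over a rational point -/
lemma fib_lt_of_insep [IsAlgClosed L] (hd : 1 ≤ d) (S : RD K L d) {y : Option K} {z : Option L}
    (hz : S.act z = eb L y) (hn : z ∉ Set.range (eb L : Option K → Option L)) {n : ℕ}
    (hp : fz p n z ∈ Set.range (eb L : Option K → Option L)) : (S.fib (eb L y)).ncard < d := by
  rcases z with _ | x
  · exact absurd ⟨none, rfl⟩ hn
  have hx1 := S.fp_root.mp hz
  apply S.fib_lt hd hx1
  -- a polynomial over K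
  obtain ⟨r, hr⟩ : ∃ r : K[X], r.map (algebraMap K L) = S.fp (eb L y) := by
    rcases y with _ | y
    · exact ⟨S.q, rfl⟩
    · refine ⟨S.p - C y * S.q, ?_⟩
      rw [Polynomial.map_sub, Polynomial.map_mul, map_C]
      rfl
  rw [← hr] at hx1 ⊢
  by_contra hne
  rw [derivative_map, eval_map_algebraMap] at hne
  rw [eval_map_algebraMap] at hx1
  have hr0 : r ≠ 0 := by
    rintro rfl
    rw [derivative_zero, map_zero] at hne
    exact hne rfl
  have hint : IsIntegral K x := isAlgebraic_iff_isIntegral.mp ⟨r, hr0, hx1⟩
  have hsep : IsSeparable K x := by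
    show (minpoly K x).Separable
    rw [separable_iff_derivative_ne_zero (minpoly.irreducible hint)]
    intro h0
    obtain ⟨s, hs⟩ := minpoly.dvd K x hx1
    apply hne
    rw [hs, derivative_mul, h0, zero_mul, zero_add, map_mul, minpoly.aeval, zero_mul]
  obtain ⟨w, hw⟩ := hp
  rcases w with _ | a
  · exact absurd hw (by simp [eb, fz])
  have ha : algebraMap K L a = x ^ p ^ n := Option.some_injective _ hw
  obtain ⟨b, hb⟩ := mem_of_pow p (K := K) (mem_separableClosure_iff.mpr hsep) ha.symm
  exact hn ⟨some b, congrArg some hb⟩

end Pool.Agent.V7H78.RP.D
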