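import Pool.Agent.V7H78.RP.D.A11

/-!
# The counting argument
-/

set_option autoImplicit false

namespace Pool.Agent.V7H78.RP.D

open Pool.Agent.V7H78.RP.UH Polynomial

variable {K L : Type*} [Field K] [Field L] [Algebra K L] {d : ℕ} {p : ℕ} [Fact p.Prime]
  [CharP K p] [CharP L p]

omit [Fact p.Prime] [CharP K p] [CharP L p] in
lemma im_congr {j j' : Option L → Option L} (h : ∀ z, j z = j' z) (P : Finset (Option L)) :
    im K j P = im K j' P := by
  have : j = j' := funext h
  rw [this]

lemma two_mul_of {d a b : ℕ} (hd : 2 ≤ d) (h : (d + 1) * a ≤ a + (d + 1) * b) : a ≤ 2 * b := by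
  have h1 : d * a ≤ d * (2 * b) := by nlinarith
  exact Nat.le_of_mul_le_mul_left h1 (by omega)

/-- `k` steps -/
theorem chainN [IsAlgClosed L] [Infinite K] (hd : 2 ≤ d) {B : ℕ} (hB : StepHyp K p d B)
    (R : RD K L d) (k : ℕ) : ∀ {N : ℕ} (s : Lv p R N) (Q : Finset (Option L)),
    (∀ z ∈ Q, R.act z ∈ Q) → 2 ^ k * (B + 1) ≤ (im K s.j Q).card →
    ∃ M, M = k ∧ ∃ t : Lv p s.S M, (im K s.j Q).card ≤ 2 ^ k * (im K (s.comp t).j Q).card := by
  induction k with
  | zero =>
    intro N s Q _ _
    refine ⟨0, rfl, Lv.triv p s.S, ?_⟩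
    rw [pow_zero, one_mul]
    apply le_of_eq
    congr 1
    apply im_congr
    intro z
    rw [Lv.comp_j, Lv.triv_j]
  | succ k ih =>
    intro N s Q hQ hc
    have h1 : 2 ^ (k + 1) * (B + 1) = 2 * (2 ^ k * (B + 1)) := by ring
    have h2 : 1 * (B + 1) ≤ 2 ^ k * (B + 1) := Nat.mul_le_mul_right _ Nat.one_le_two_pow
    obtain ⟨t1, ht1⟩ := s.next hd hB Q hQ (by omega)
    have h3 := two_mul_of hd ht1
    obtain ⟨M, hM, t', ht'⟩ := ih (s.comp t1) Q hQ (by omega)
    refine ⟨1 + M, by omega, t1.comp t', ?_⟩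
    have h4 : im K (s.comp (t1.comp t')).j Q = im K ((s.comp t1).comp t').j Q := by
      apply im_congr
      intro z
      let t'' : Lv p t1.S M := t'
      have e1 : (s.comp (t1.comp t'')).j z = s.j ((t1.comp t'').j z) := Lv.comp_j _ _ _
      have e2 : (t1.comp t'').j z = t1.j (t''.j z) := Lv.comp_j _ _ _
      have e3 : ((s.comp t1).comp t').j z = (s.comp t1).j (t'.j z) := Lv.comp_j _ _ _
      have e4 : (s.comp t1).j (t'.j z) = s.j (t1.j (t'.j z)) := Lv.comp_j _ _ _
      exact e1.trans ((congrArg s.j e2).trans (e3.trans e4).symm)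
    rw [h4, pow_succ]
    have h5 : 2 ^ k * 2 * (im K ((s.comp t1).comp t').j Q).card =
        2 * (2 ^ k * (im K ((s.comp t1).comp t').j Q).card) := by ring
    omega

omit [Field L] in
lemma iter_mem {P : Finset (Option L)} {f : Option L → Option L} (hst : ∀ z ∈ P, f z ∈ P)
    {z : Option L} (hz : z ∈ P) (n : ℕ) : f^[n] z ∈ P := by
  induction n with
  | zero => exact hz
  | succ n ih =>
    rw [Function.iterate_succ_apply']
    exact hst _ ih

omit [Field L] in
lemma short_period {P : Finset (Option L)} {f : Option L → Option L} (hst : ∀ z ∈ P, f z ∈ P)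
    {z : Option L} (hz : z ∈ P) (hper : z ∈ Function.periodicPts f) :
    ∃ n, 1 ≤ n ∧ n ≤ P.card ∧ f^[n] z = z := by
  classical
  refine ⟨Function.minimalPeriod f z, Function.minimalPeriod_pos_of_mem_periodicPts hper, ?_,
    Function.iterate_minimalPeriod⟩
  have h1 : ((Finset.range (Function.minimalPeriod f z)).image fun n => f^[n] z).card =
      Function.minimalPeriod f z := by
    rw [Finset.card_image_of_injOn, Finset.card_range]
    intro m hm n hn h
    rw [Finset.mem_coe, Finset.mem_range] at hm hn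
    exact Function.iterate_injOn_Iio_minimalPeriod hm hn h
  rw [← h1]
  apply Finset.card_le_card
  intro w hw
  obtain ⟨n, _, rfl⟩ := Finset.mem_image.mp hw
  exact iter_mem hst hz n

omit [Field L] in
lemma event_periodic {P : Finset (Option L)} {f : Option L → Option L} (hst : ∀ z ∈ P, f z ∈ P)
    {z : Option L} (hz : z ∈ P) : ∃ n, f^[n] z ∈ Function.periodicPts f := by
  classical
  obtain ⟨i, -, j, -, hij, h⟩ := Finset.exists_ne_map_eq_of_card_lt_of_maps_to
    (s := Finset.range (P.card + 1)) (t := P) (f := fun n => f^[n] z)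
    (by rw [Finset.card_range]; omega) (fun n _ => iter_mem hst hz n)
  wlog hlt : i < j generalizing i j
  · exact this j i hij.symm h.symm (by omega)
  refine ⟨i, ?_⟩
  refine Function.mk_mem_periodicPts (n := j - i) (by omega) ?_
  show f^[j - i] (f^[i] z) = f^[i] z
  rw [← Function.iterate_add_apply]
  have h1 : j - i + i = j := by omega
  rw [h1]
  exact h.symm

open Classical in
/-- **The main counting claim.** -/
theorem count_main [IsAlgClosed L] [Infinite K] (hd : 2 ≤ d) {B : ℕ} (hB : StepHyp K p d B)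
    (R : RD K L d) (h3 : ∃ z z1 z2, Three R z z1 z2) (P : Finset (Option L))
    (hPK : ∀ z ∈ P, z ∈ Set.range (eb L : Option K → Option L))
    (hst : ∀ z ∈ P, R.act z ∈ P) {B2 : ℕ} (hB2 : B2 = 2 ^ (3 * d + 2) * (B + 1))
    (Z : Finset (Option L))
    (hZ1 : ∀ z ∈ P, (∃ n, 1 ≤ n ∧ n ≤ B2 ∧ R.act^[n] z = z) → z ∈ Z)
    (hZ2 : (∀ z ∈ P, (R.fib (R.act z)).ncard < d → z ∈ Z) ∨
      ∀ z ∈ P, z ∈ Function.periodicPts R.act)
    {m0 : ℕ} (hT : ∀ N, m0 ≤ N → ∀ s : Lv p R N, (im K s.j P).card ≤ B2) :
    ∀ (k N : ℕ) (s : Lv p R N), m0 ≤ N + k →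
      (im K s.j P).card ≤ 2 ^ (im K s.j (P.filter (· ∈ Z))).card * B2 := by
  classical
  intro k
  induction k with
  | zero =>
    intro N s hN
    exact (hT N (by omega) s).trans (Nat.le_mul_of_pos_left _ (by positivity))
  | succ k ih =>
    intro N s hN
    by_cases hbig : (im K s.j P).card ≤ B2
    · exact hbig.trans (Nat.le_mul_of_pos_left _ (by positivity))
    push Not at hbig
    obtain ⟨zz, zz1, zz2, hThree⟩ := h3
    have hpow : 2 ^ (3 * d + 2) * (B + 1) = 2 * (2 ^ (3 * d + 1) * (B + 1)) := by ring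
    have hpow2 : 1 * (B + 1) ≤ 2 ^ (3 * d + 1) * (B + 1) :=
      Nat.mul_le_mul_right _ Nat.one_le_two_pow
    obtain ⟨t, ht⟩ := s.next hd hB P hst (by omega)
    have hhalf := two_mul_of hd ht
    set s' := s.comp t with hs'
    have hsub : im K s'.j P ⊆ im K s.j P := Lv.im_comp s t P
    have hsubZ : im K s'.j (P.filter (· ∈ Z)) ⊆ im K s.j (P.filter (· ∈ Z)) :=
      Lv.im_comp s t _
    have hIH := ih (N + 1) s' (by omega)
    by_cases hloss : im K s.j P ⊆ im K s'.j P
    · have h1 : im K s.j P = im K s'.j P := Finset.Subset.antisymm hloss hsub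
      rw [h1]
      refine hIH.trans (Nat.mul_le_mul_right _ (Nat.pow_le_pow_right (by norm_num) ?_))
      exact Finset.card_le_card hsubZ
    -- a special point is lost
    suffices hsp : ∃ c ∈ Z, c ∈ im K s.j P ∧ c ∉ im K s'.j P by
      obtain ⟨c, hcZ, hc1, hc2⟩ := hsp
      have h1 : (im K s'.j (P.filter (· ∈ Z))).card + 1 ≤
          (im K s.j (P.filter (· ∈ Z))).card := by
        apply Finset.card_lt_card
        refine ⟨hsubZ, fun h => hc2 ?_⟩
        have h2 := h (mem_im.mpr ⟨Finset.mem_filter.mpr ⟨(mem_im.mp hc1).1, hcZ⟩,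
          (mem_im.mp hc1).2⟩)
        exact mem_im.mpr ⟨(mem_im.mp hc1).1, (mem_im.mp h2).2⟩
      calc (im K s.j P).card ≤ 2 * (im K s'.j P).card := hhalf
        _ ≤ 2 * (2 ^ (im K s'.j (P.filter (· ∈ Z))).card * B2) := Nat.mul_le_mul_left _ hIH
        _ = 2 ^ ((im K s'.j (P.filter (· ∈ Z))).card + 1) * B2 := by ring
        _ ≤ _ := Nat.mul_le_mul_right _ (Nat.pow_le_pow_right (by norm_num) h1)
    have hstI := s.im_stable hst
    have hstI' := s'.im_stable hst
    -- the cyclic lost points
    set Q := (im K s.j P).filter fun z => z ∉ im K s'.j P ∧ z ∈ Function.periodicPts R.act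
      with hQ
    have hQst : ∀ z ∈ Q, R.act z ∈ Q := by
      intro z hz
      rw [hQ, Finset.mem_filter] at hz ⊢
      obtain ⟨hz1, hz2, hz3⟩ := hz
      refine ⟨hstI z hz1, ?_, ?_⟩
      · intro h
        apply hz2
        obtain ⟨n, hn, hper⟩ := hz3
        have h1 := iter_mem hstI' h (n - 1)
        rw [← Function.iterate_succ_apply, Nat.succ_eq_add_one, Nat.sub_add_cancel hn] at h1
        have h2 : R.act^[n] z = z := hper
        rwa [h2] at h1
      · obtain ⟨n, hn, hper⟩ := hz3
        refine ⟨n, hn, ?_⟩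
        show R.act^[n] (R.act z) = R.act z
        rw [← Function.iterate_succ_apply, Function.iterate_succ_apply']
        have h2 : R.act^[n] z = z := hper
        rw [h2]
    have hQim : im K s.j Q = Q := by
      apply Finset.Subset.antisymm (im_subset _ _)
      intro z hz
      refine mem_im.mpr ⟨hz, ?_⟩
      rw [hQ, Finset.mem_filter] at hz
      exact (mem_im.mp hz.1).2
    by_cases hQB : B2 < Q.card
    · -- impossible by uniqueness of deep structures
      exfalso
      obtain ⟨M, hM, t', ht'⟩ := chainN hd hB R (3 * d + 2) s Q hQst (by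
        rw [hQim]
        omega)
      obtain ⟨M', hM', t'', ht''⟩ := chainN hd hB R (3 * d + 1) s' P hst (by omega)
      have hne : (im K (s.comp t').j Q).Nonempty := by
        rw [Finset.nonempty_iff_ne_empty]
        intro h0
        rw [h0, Finset.card_empty, mul_zero, hQim] at ht'
        omega
      obtain ⟨z, hz⟩ := hne
      obtain ⟨hzQ, y, hy⟩ := mem_im.mp hz
      rw [Lv.comp_j] at hy
      -- the three points of `s.S`
      obtain ⟨x, x1, x2, -, -, -, hxT⟩ := hThree.pull s
      -- transport along the equality of levels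
      have key : ∀ (A : ℕ) (a : Lv p s.S A) (A' : ℕ) (b : Lv p s.S A'), A = A' →
          A = 1 + (3 * d + 1) → ∃ y' : Option K, a.j (eb L y) = jj p L b.U b.V 1 (eb L y') := by
        intro A a A' b hA hA1
        subst hA
        exact deep_unique hd hxT hA1 b a y
      obtain ⟨y', hy'⟩ := key M t' (1 + M') (t.comp t'') (by omega) (by omega)
      have hmem : ∃ y'' : Option K, jj p L (t.comp t'').U (t.comp t'').V 1 (eb L y') =
          t.j (eb L y'') := by
        refine ⟨mb t''.U t''.V (fz p 0 y'), ?_⟩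
        have h1 := jj_jj (p := p) (L := L) (U := t.U) (V := t.V) (M := 1) (N := 0) t''.hw
          (eb L y')
        rw [add_zero] at h1
        have h2 : jj p L (t.comp t'').U (t.comp t'').V 1 (eb L y') =
            jj p L (gx t.U t.V (fv p 1 t''.U)) (gx t.U t.V (fv p 1 t''.V)) 1 (eb L y') := rfl
        rw [h2, ← h1, jj_eb]
        rfl
      obtain ⟨y'', hy''⟩ := hmem
      have hzQ' := hzQ
      rw [hQ, Finset.mem_filter] at hzQ'
      apply hzQ'.2.1
      refine mem_im.mpr ⟨(mem_im.mp hzQ'.1).1, y'', ?_⟩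
      rw [hs', Lv.comp_j, ← hy'', ← hy']
      exact hy
    push Not at hQB
    by_cases hQe : Q.Nonempty
    · obtain ⟨z, hz⟩ := hQe
      have hz' := hz
      rw [hQ, Finset.mem_filter] at hz'
      obtain ⟨n, hn1, hn2, hn3⟩ := short_period hQst hz hz'.2.2
      exact ⟨z, hZ1 z (im_subset _ _ hz'.1) ⟨n, hn1, hn2.trans hQB, hn3⟩, hz'.1, hz'.2.1⟩
    · rw [Finset.not_nonempty_iff_eq_empty] at hQe
      obtain ⟨c0, hc0, hc0'⟩ := Finset.not_subset.mp hloss
      have hnotQ : ∀ z ∈ im K s.j P, z ∈ Function.periodicPts R.act → z ∈ im K s'.j P := by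
        intro z hz hper
        by_contra hcon
        have : z ∈ Q := by
          rw [hQ, Finset.mem_filter]
          exact ⟨hz, hcon, hper⟩
        rw [hQe] at this
        exact absurd this (Finset.notMem_empty z)
      rcases hZ2 with hZ2 | hZ2
      · have hex : ∃ n, R.act^[n] c0 ∈ im K s'.j P := by
          obtain ⟨n, hn⟩ := event_periodic hstI hc0
          exact ⟨n, hnotQ _ (iter_mem hstI hc0 n) hn⟩
        have hfind := Nat.find_spec hex
        have hmin := fun m hm => Nat.find_min hex (m := m) hm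
        have hpos : Nat.find hex ≠ 0 := by
          intro h0
          rw [h0] at hfind
          exact hc0' hfind
        set n := Nat.find hex with hn
        set c := R.act^[n - 1] c0 with hc
        have hRc : R.act c ∈ im K s'.j P := by
          have h1 : R.act (R.act^[n - 1] c0) = R.act^[n] c0 := by
            rw [← Function.iterate_succ_apply' R.act (n - 1) c0, Nat.succ_eq_add_one,
              Nat.sub_add_cancel (by omega)]
          rw [hc, h1]
          exact hfind
        have hcI : c ∈ im K s.j P := iter_mem hstI hc0 _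
        have hcI' : c ∉ im K s'.j P := hmin (n - 1) (by omega)
        have hcP : c ∈ P := im_subset _ _ hcI
        refine ⟨c, hZ2 c hcP ?_, hcI, hcI'⟩
        -- the fibre is small
        obtain ⟨u, hu⟩ := s'.j_surj c
        obtain ⟨-, y, hy⟩ := mem_im.mp hRc
        have hSu : s'.S.act u = eb L y := by
          apply s'.j_inj
          rw [← s'.act_j, hu, hy]
        have hun : u ∉ Set.range (eb L : Option K → Option L) := by
          rintro ⟨w, rfl⟩
          exact hcI' (mem_im.mpr ⟨hcP, w, hu⟩)
        have hup : fz p (N + 1) u ∈ Set.range (eb L : Option K → Option L) := by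
          obtain ⟨w, hw⟩ := hPK c hcP
          have h1 : mb (vb L s'.U) (vb L s'.V) (fz p (N + 1) u) = c := hu
          have h2 : fz p (N + 1) u = mi (vb L s'.U) (vb L s'.V) c := by
            rw [← h1, mi_mb (wd_vb_ne s'.hw)]
          rw [h2, ← hw]
          refine ⟨mi s'.U s'.V w, ?_⟩
          unfold mi
          rw [rep_eb, ← vb_ax, pt_vb]
        have hfib := fib_lt_of_insep p (by omega) s'.S hSu hun hup
        have himg : R.fib (R.act c) = s'.j '' (s'.S.fib (eb L y)) := by
          ext v
          constructor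
          · intro hv
            obtain ⟨v', rfl⟩ := s'.j_surj v
            refine ⟨v', ?_, rfl⟩
            apply s'.j_inj
            have h1 : R.act (s'.j v') = R.act c := hv
            rw [← s'.act_j, h1, hy]
          · rintro ⟨v', hv', rfl⟩
            show R.act (s'.j v') = R.act c
            have h1 : s'.S.act v' = eb L y := hv'
            rw [s'.act_j, h1, hy]
        rw [himg, Set.ncard_image_of_injective _ s'.j_inj]
        exact hfib
      · exact absurd (hnotQ c0 hc0 (hZ2 c0 (im_subset _ _ hc0))) hc0'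

end Pool.Agent.V7H78.RP.D
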