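import Pool.Agent.V7H78.RP.D.A12

/-!
# The bounds, given termination
-/

set_option autoImplicit false

namespace Pool.Agent.V7H78.RP.D

open Pool.Agent.V7H78.RP.UH Polynomial

variable {K L : Type*} [Field K] [Field L] [Algebra K L] {d : ℕ} {p : ℕ} [Fact p.Prime]
  [CharP K p] [CharP L p]

/-- the threshold -/
def bB (d B : ℕ) : ℕ := 2 ^ (3 * d + 2) * (B + 1)

/-- the final bound -/
def fB (d B : ℕ) : ℕ :=
  2 ^ ((∑ n ∈ Finset.range (bB d B + 1), (d ^ n + 2)) + d * (2 * d + 1)) * bB d B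

omit [Fact p.Prime] [CharP K p] [CharP L p] in
open Classical in
lemma card_short [IsAlgClosed L] (hd : 2 ≤ d) (R : RD K L d) (P : Finset (Option L)) (m : ℕ) :
    (P.filter fun z => ∃ n, 1 ≤ n ∧ n ≤ m ∧ R.act^[n] z = z).card ≤
      ∑ n ∈ Finset.range (m + 1), (d ^ n + 2) := by
  have hsub : (P.filter fun z => ∃ n, 1 ≤ n ∧ n ≤ m ∧ R.act^[n] z = z) ⊆
      (Finset.range (m + 1)).biUnion fun n => P.filter fun z => 1 ≤ n ∧ R.act^[n] z = z := by
    intro z hz
    rw [Finset.mem_filter] at hz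
    obtain ⟨hzP, n, h1, h2, h3⟩ := hz
    rw [Finset.mem_biUnion]
    exact ⟨n, Finset.mem_range.mpr (by omega), Finset.mem_filter.mpr ⟨hzP, h1, h3⟩⟩
  refine (Finset.card_le_card hsub).trans (Finset.card_biUnion_le.trans ?_)
  apply Finset.sum_le_sum
  intro n _
  by_cases hn : 1 ≤ n
  · obtain ⟨hf, hc⟩ := R.per_finite hd hn
    refine le_trans ?_ hc
    rw [← Set.ncard_coe_finset]
    apply Set.ncard_le_ncard _ hf
    intro z hz
    rw [Finset.mem_coe, Finset.mem_filter] at hz
    exact hz.2.2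
  · rw [Finset.card_eq_zero.mpr]
    · omega
    · rw [Finset.filter_eq_empty_iff]
      rintro z _ ⟨h1, _⟩
      exact hn h1

omit [Fact p.Prime] [CharP K p] [CharP L p] in
open Classical in
lemma card_crit [IsAlgClosed L] (hd : 2 ≤ d) (R : RD K L d) (hsep : R.wr ≠ 0)
    (P : Finset (Option L)) :
    (P.filter fun z => (R.fib (R.act z)).ncard < d).card ≤ d * (2 * d + 1) := by
  obtain ⟨hf, hc⟩ := R.crit_finite (by omega) hsep
  rw [Set.ncard_eq_toFinset_card _ hf] at hc
  refine le_trans ?_ (Nat.mul_le_mul_left d hc)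
  apply Finset.card_le_mul_card_image_of_maps_to (f := R.act)
  · intro z hz
    rw [Set.Finite.mem_toFinset]
    exact (Finset.mem_filter.mp hz).2
  · intro w _
    refine le_trans ?_ (R.fib_card (by omega) w)
    rw [← Set.ncard_coe_finset]
    apply Set.ncard_le_ncard _ (R.fib_finite (by omega) w)
    intro z hz
    rw [Finset.mem_coe, Finset.mem_filter] at hz
    exact hz.2

/-- **The bound for separable maps.** -/
theorem bound_sep [IsAlgClosed L] [Infinite K] (hd : 2 ≤ d) {B : ℕ} (hB : StepHyp K p d B)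
    (R : RD K L d) (h3 : ∃ z z1 z2, Three R z z1 z2) (hsep : R.wr ≠ 0) (P : Finset (Option L))
    (hPK : ∀ z ∈ P, z ∈ Set.range (eb L : Option K → Option L))
    (hst : ∀ z ∈ P, R.act z ∈ P)
    (hT : ∃ m0, ∀ N, m0 ≤ N → ∀ s : Lv p R N, (im K s.j P).card ≤ bB d B) :
    P.card ≤ fB d B := by
  classical
  obtain ⟨m0, hm0⟩ := hT
  set Z : Finset (Option L) := (P.filter fun z => ∃ n, 1 ≤ n ∧ n ≤ bB d B ∧ R.act^[n] z = z) ∪
    P.filter fun z => (R.fib (R.act z)).ncard < d with hZ
  have h := count_main hd hB R h3 P hPK hst (B2 := bB d B) rfl Z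
    (fun z hz h => Finset.mem_union_left _ (Finset.mem_filter.mpr ⟨hz, h⟩))
    (Or.inl fun z hz h => Finset.mem_union_right _ (Finset.mem_filter.mpr ⟨hz, h⟩)) hm0 m0 0
    (Lv.triv p R) (by omega)
  have himP : im K (Lv.triv p R).j P = P := by
    apply Finset.Subset.antisymm (im_subset _ _)
    intro z hz
    obtain ⟨y, hy⟩ := hPK z hz
    exact mem_im.mpr ⟨hz, y, by rw [Lv.triv_j, hy]⟩
  rw [himP] at h
  refine h.trans (Nat.mul_le_mul_right _ (Nat.pow_le_pow_right (by norm_num) ?_))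
  refine (Finset.card_le_card (im_subset _ _)).trans ?_
  have h1 : (P.filter (· ∈ Z)).card ≤ Z.card := by
    apply Finset.card_le_card
    intro z hz
    exact (Finset.mem_filter.mp hz).2
  refine h1.trans ((Finset.card_union_le _ _).trans ?_)
  exact add_le_add (card_short hd R P _) (card_crit hd R hsep P)

/-- **The bound for periodic points.** -/
theorem bound_per [IsAlgClosed L] [Infinite K] (hd : 2 ≤ d) {B : ℕ} (hB : StepHyp K p d B)
    (R : RD K L d) (h3 : ∃ z z1 z2, Three R z z1 z2) (P : Finset (Option L))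
    (hPK : ∀ z ∈ P, z ∈ Set.range (eb L : Option K → Option L))
    (hst : ∀ z ∈ P, R.act z ∈ P) (hper : ∀ z ∈ P, z ∈ Function.periodicPts R.act)
    (hT : ∃ m0, ∀ N, m0 ≤ N → ∀ s : Lv p R N, (im K s.j P).card ≤ bB d B) :
    P.card ≤ fB d B := by
  classical
  obtain ⟨m0, hm0⟩ := hT
  set Z : Finset (Option L) := P.filter fun z => ∃ n, 1 ≤ n ∧ n ≤ bB d B ∧ R.act^[n] z = z with hZ
  have h := count_main hd hB R h3 P hPK hst (B2 := bB d B) rfl Z
    (fun z hz h => Finset.mem_filter.mpr ⟨hz, h⟩) (Or.inr hper) hm0 m0 0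
    (Lv.triv p R) (by omega)
  have himP : im K (Lv.triv p R).j P = P := by
    apply Finset.Subset.antisymm (im_subset _ _)
    intro z hz
    obtain ⟨y, hy⟩ := hPK z hz
    exact mem_im.mpr ⟨hz, y, by rw [Lv.triv_j, hy]⟩
  rw [himP] at h
  refine h.trans (Nat.mul_le_mul_right _ (Nat.pow_le_pow_right (by norm_num) ?_))
  refine (Finset.card_le_card (im_subset _ _)).trans ?_
  have h1 : (P.filter (· ∈ Z)).card ≤ Z.card := by
    apply Finset.card_le_card
    intro z hz
    exact (Finset.mem_filter.mp hz).2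
  refine h1.trans ((card_short hd R P _).trans ?_)
  exact Nat.le_add_right _ _

end Pool.Agent.V7H78.RP.D
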