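import Pool.Agent.V7H78.RP.D.A13

/-!
# Termination
-/

set_option autoImplicit false

namespace Pool.Agent.V7H78.RP.D

open Pool.Agent.V7H78.RP.UH Polynomial

variable {K L : Type*} [Field K] [Field L] [Algebra K L] {d : ℕ}

/-- From the coordinates to a map with constant coefficients. -/
theorem const_of_coord [IsAlgClosed L] {k : Type*} [Field k] [Algebra k K] [Algebra k L]
    [IsScalarTower k K L] (hd : 2 ≤ d) (R : RD K L d) (a b c e : K)
    (hdet : a * e - b * c ≠ 0) (u w : k[X]) (hne : u ≠ 0 ∨ w ≠ 0) (hu : u.natDegree ≤ d)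
    (hw : w.natDegree ≤ d)
    (hid : (C a * R.p + C b * R.q) * hc d (w.map (algebraMap k K)) (C a * X + C b) (C c * X + C e) =
      (C c * R.p + C e * R.q) * hc d (u.map (algebraMap k K)) (C a * X + C b) (C c * X + C e)) :
    ∃ R0 : RD k L d, ∀ z, R.act (mb (vb L ((e, -c) : K × K)) (vb L ((-b, a) : K × K)) z) =
      mb (vb L ((e, -c) : K × K)) (vb L ((-b, a) : K × K)) (R0.act z) := by
  set u' := u.map (algebraMap k K) with hu'
  set w' := w.map (algebraMap k K) with hw'
  have hu'd : u'.natDegree ≤ d := natDegree_map_le.trans hu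
  have hw'd : w'.natDegree ≤ d := natDegree_map_le.trans hw
  set Pa := C a * R.p + C b * R.q with hPa
  set Qa := C c * R.p + C e * R.q with hQa
  have hPad : Pa.natDegree ≤ d := (natDegree_add_le _ _).trans (max_le
    ((natDegree_C_mul_le _ _).trans R.hp) ((natDegree_C_mul_le _ _).trans R.hq))
  have hQad : Qa.natDegree ≤ d := (natDegree_add_le _ _).trans (max_le
    ((natDegree_C_mul_le _ _).trans R.hp) ((natDegree_C_mul_le _ _).trans R.hq))
  set U1 : K × K := (a, c) with hU1
  set V1 : K × K := (b, e) with hV1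
  have hwd : wd U1 V1 ≠ 0 := by
    have : wd U1 V1 = a * e - b * c := by
      unfold wd
      simp only [hU1, hV1]
      ring
    rw [this]
    exact hdet
  have hPQ : ∀ X : L × L, ((hl L d Pa X, hl L d Qa X) : L × L) = gx (vb L U1) (vb L V1) (R.hv X) := by
    intro X
    rw [hPa, hQa, hl_add, hl_add, hl_C_mul, hl_C_mul, hl_C_mul, hl_C_mul]
    unfold gx vb RD.hv
    ext
    · simp only [Prod.fst_add, Prod.smul_fst, smul_eq_mul, hU1, hV1]
      ring
    · simp only [Prod.snd_add, Prod.smul_snd, smul_eq_mul, hU1, hV1]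
      ring
  have hPQnv : ∀ X : L × L, X ≠ 0 → ((hl L d Pa X, hl L d Qa X) : L × L) ≠ 0 := by
    intro X hX
    rw [hPQ]
    exact gx_ne (wd_vb_ne hwd) (R.nv X hX)
  have hPQco : IsCoprime Pa Qa := coprime_of_nv Pa Qa hPad hQad hPQnv
  have hPQlead := lead_of_nv Pa Qa hPQnv
  have hlin : ∀ X : L × L, ((hl L 1 (C a * Polynomial.X + C b) X,
      hl L 1 (C c * Polynomial.X + C e) X) : L × L) = gx (vb L U1) (vb L V1) X := by
    intro X
    have e1 : ∀ a b : K, hl L 1 (C a * Polynomial.X + C b) X =
        algebraMap K L a * X.1 + algebraMap K L b * X.2 := by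
      intro a b
      unfold hl hev
      rw [Finset.sum_range_succ, Finset.sum_range_one]
      simp
      ring
    rw [e1, e1]
    unfold gx vb
    ext
    · simp only [Prod.fst_add, Prod.smul_fst, smul_eq_mul, hU1, hV1]
      ring
    · simp only [Prod.snd_add, Prod.smul_snd, smul_eq_mul, hU1, hV1]
      ring
  set uA := hc d u' (C a * X + C b) (C c * X + C e) with huA
  set wA := hc d w' (C a * X + C b) (C c * X + C e) with hwA
  have huAd : uA.natDegree ≤ d := by
    have := hc_degree d 1 u' _ _ (lin_deg a b) (lin_deg c e)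
    rwa [mul_one] at this
  have hwAd : wA.natDegree ≤ d := by
    have := hc_degree d 1 w' _ _ (lin_deg a b) (lin_deg c e)
    rwa [mul_one] at this
  have huAe : ∀ X : L × L, hl L d uA X = hl L d u' (gx (vb L U1) (vb L V1) X) := by
    intro X
    have := hl_hc d 1 u' _ _ (lin_deg a b) (lin_deg c e) X
    rw [mul_one, hlin] at this
    exact this
  have hwAe : ∀ X : L × L, hl L d wA X = hl L d w' (gx (vb L U1) (vb L V1) X) := by
    intro X
    have := hl_hc d 1 w' _ _ (lin_deg a b) (lin_deg c e) X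
    rw [mul_one, hlin] at this
    exact this
  -- the quotient
  have hPa0 : Pa ≠ 0 := by
    intro h0
    have h1 : IsUnit Qa := by
      rw [h0] at hPQco
      exact isCoprime_zero_left.mp hPQco
    have h2 := natDegree_eq_zero_of_isUnit h1
    rcases hPQlead with h | h
    · exact h (by rw [h0, coeff_zero])
    · exact h (coeff_eq_zero_of_natDegree_lt (by omega))
  obtain ⟨s, hs⟩ : Pa ∣ uA := by
    apply hPQco.dvd_of_dvd_mul_left
    rw [← hid]
    exact dvd_mul_right _ _
  have hs2 : wA = Qa * s := by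
    apply mul_left_cancel₀ hPa0
    rw [hid, hs]
    ring
  have hs0 : s ≠ 0 := by
    rintro rfl
    rw [mul_zero] at hs hs2
    have key : ∀ r : K[X], r.natDegree ≤ d → (∀ X : L × L,
        hl L d r (gx (vb L U1) (vb L V1) X) = 0) → r = 0 := by
      intro r hr h
      have hinf : Infinite L := IsAlgClosed.instInfinite
      rw [← Polynomial.map_eq_zero (algebraMap K L)]
      apply Polynomial.eq_zero_of_infinite_isRoot
      apply Set.infinite_univ.mono
      intro x _
      show IsRoot _ x
      rw [IsRoot.def, eval_map_algebraMap, ← hl_one d r hr]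
      have h1 := h (ax (vb L U1) (vb L V1) (x, 1))
      rw [gx_ax, hl_smul] at h1
      exact (mul_eq_zero.mp h1).resolve_left (pow_ne_zero _ (wd_vb_ne hwd))
    have hu0 : u' = 0 := key u' hu'd fun X => by rw [← huAe, hs]; simp [hl, hev]
    have hw0 : w' = 0 := key w' hw'd fun X => by rw [← hwAe, hs2]; simp [hl, hev]
    rcases hne with h | h
    · exact h ((Polynomial.map_eq_zero _).mp hu0)
    · exact h ((Polynomial.map_eq_zero _).mp hw0)
  have hsd : s.natDegree = 0 := by
    rcases hPQlead with h | h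
    · have h1 : Pa.natDegree = d := le_antisymm hPad (le_natDegree_of_ne_zero h)
      have h2 : uA.natDegree = Pa.natDegree + s.natDegree := by
        rw [hs, natDegree_mul hPa0 hs0]
      omega
    · have h0 : Qa ≠ 0 := by
        rintro h0
        exact h (by rw [h0, coeff_zero])
      have h1 : Qa.natDegree = d := le_antisymm hQad (le_natDegree_of_ne_zero h)
      have h2 : wA.natDegree = Qa.natDegree + s.natDegree := by
        rw [hs2, natDegree_mul h0 hs0]
      omega
  obtain ⟨s0, hs0'⟩ := natDegree_eq_zero.mp hsd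
  have hs00 : s0 ≠ 0 := by
    rintro rfl
    apply hs0
    rw [← hs0', C_0]
  -- values
  have hval : ∀ X : L × L, ((hl L d u' (gx (vb L U1) (vb L V1) X),
      hl L d w' (gx (vb L U1) (vb L V1) X)) : L × L) =
      algebraMap K L s0 • gx (vb L U1) (vb L V1) (R.hv X) := by
    intro X
    rw [← huAe, ← hwAe, hs, hs2, ← hs0', mul_comm Pa, mul_comm Qa, hl_C_mul, hl_C_mul, ← hPQ]
    rfl
  have hs0L : algebraMap K L s0 ≠ 0 := (_root_.map_ne_zero _).mpr hs00
  have hfr : ∀ X : L × L, ((hl L d u' X, hl L d w' X) : L × L) = (hl L d u X, hl L d w X) := by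
    intro X
    rw [hu', hw']
    unfold hl
    rw [Polynomial.map_map, Polynomial.map_map, ← IsScalarTower.algebraMap_eq]
  have hnv' : ∀ Y : L × L, Y ≠ 0 → ((hl L d u' Y, hl L d w' Y) : L × L) ≠ 0 := by
    intro Y hY h0
    have h1 := hval (ax (vb L U1) (vb L V1) Y)
    rw [gx_ax, hl_smul, hl_smul] at h1
    have h2 : hl L d u' Y = 0 := congrArg Prod.fst h0
    have h3 : hl L d w' Y = 0 := congrArg Prod.snd h0
    rw [h2, h3, mul_zero] at h1
    have h4 := smul_ne_zero hs0L (gx_ne (wd_vb_ne hwd) (R.nv _ (ax_ne (wd_vb_ne hwd) hY)))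
    exact h4 h1.symm
  let R' : RD k L d :=
    { p := u
      q := w
      hp := hu
      hq := hw
      nv := by
        intro X hX h0
        apply hnv' X hX
        rw [hfr, h0] }
  refine ⟨R', ?_⟩
  have hadj : ∀ Y : L × L, gx (vb L ((e, -c) : K × K)) (vb L ((-b, a) : K × K)) Y =
      ax (vb L U1) (vb L V1) Y := by
    intro Y
    rw [ax_eq]
    congr 1
    · unfold vb
      simp [hU1, hV1]
    · unfold vb
      simp [hU1, hV1]
  have hwd2 : wd ((e, -c) : K × K) ((-b, a) : K × K) ≠ 0 := by
    have : wd ((e, -c) : K × K) ((-b, a) : K × K) = a * e - b * c := by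
      unfold wd
      ring
    rw [this]
    exact hdet
  intro z
  have hz : mb (vb L ((e, -c) : K × K)) (vb L ((-b, a) : K × K)) z =
      pt (ax (vb L U1) (vb L V1) (rep z)) := by
    unfold mb
    rw [hadj]
  rw [hz]
  set Y := rep z with hY
  have hY0 : Y ≠ 0 := rep_ne z
  rw [RD.act_pt (ax_ne (wd_vb_ne hwd) hY0)]
  have hR' : R'.act z = pt (R'.hv (rep z)) := rfl
  rw [hR', mb_pt _ _ (RD.hv_ne (rep_ne z)), hadj]
  have h1 := hval (ax (vb L U1) (vb L V1) Y)
  rw [gx_ax, hl_smul, hl_smul] at h1
  have h2 : ((wd (vb L U1) (vb L V1) ^ d * hl L d u' Y, wd (vb L U1) (vb L V1) ^ d * hl L d w' Y) :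
      L × L) = wd (vb L U1) (vb L V1) ^ d • (R'.hv (rep z)) := by
    have h3 := hfr (rep z)
    have h4 : R'.hv (rep z) = (hl L d u (rep z), hl L d w (rep z)) := rfl
    rw [h4, ← h3]
    rfl
  rw [h2] at h1
  have h5 := congrArg (ax (vb L U1) (vb L V1)) h1
  rw [ax_smul, ax_smul, ax_gx, smul_smul] at h5
  have h6 := congrArg pt h5
  rw [pt_smul (pow_ne_zero _ (wd_vb_ne hwd)), pt_smul (mul_ne_zero hs0L (wd_vb_ne hwd))] at h6
  exact h6.symm

/-- Affine coordinates. -/
theorem affine [IsAlgClosed L] [Infinite K] (hd : 2 ≤ d)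
    (R : RD K L d) (P : Finset (Option L))
    (hPK : ∀ z ∈ P, z ∈ Set.range (eb L : Option K → Option L)) (hst : ∀ z ∈ P, R.act z ∈ P) :
    ∃ (U V : K × K) (h : wd U V ≠ 0) (y : Option L → K), (R.conj U V h).q.natDegree = d ∧
      (∀ z ∈ P, mb (vb L U) (vb L V) (some (algebraMap K L (y z))) = z) ∧
      ∀ z ∈ P, (R.conj U V h).q.eval (y z) ≠ 0 ∧
        (R.conj U V h).p.eval (y z) / (R.conj U V h).q.eval (y z) = y (R.act z) := by
  classical
  -- a good point at infinity
  have hfin : {x : K | eb L (some x) ∈ P ∨ R.act (eb L (some x)) = eb L (some x)}.Finite := by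
    have h1 : ((P : Set (Option L)) ∪ {z : Option L | R.act z = z}).Finite :=
      (Finset.finite_toSet _).union (R.fix_finite hd).1
    have h2 : Function.Injective fun x : K => eb L (some x) := by
      intro x y hxy
      exact Option.some_injective _ (eb_inj hxy)
    refine (h1.preimage h2.injOn).subset ?_
    intro x hx
    exact hx
  obtain ⟨c, hcc⟩ := hfin.exists_notMem
  simp only [Set.mem_setOf_eq, not_or] at hcc
  obtain ⟨hc1, hc2⟩ := hcc
  set U : K × K := (c, 1) with hU
  set V : K × K := (1, 0) with hV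
  have hwd : wd U V ≠ 0 := by
    unfold wd
    simp [hU, hV]
  set G := mb (vb L U) (vb L V) with hG
  have hG0 : G none = eb L (some c) := by
    show pt (gx (vb L U) (vb L V) (1, 0)) = _
    have h1 : gx (vb L U) (vb L V) (1, 0) = vb L U := by
      unfold gx
      ext <;> simp
    rw [h1, pt_vb]
    have h2 : pt U = some c := by
      rw [pt_of_ne (one_ne_zero : U.2 ≠ 0)]
      show some (c / 1) = _
      rw [div_one]
    rw [h2]
  have hGi : ∀ z, mi (vb L U) (vb L V) (G z) = z := mi_mb (wd_vb_ne hwd)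
  have hGj : ∀ z, G (mi (vb L U) (vb L V) z) = z := mb_mi (wd_vb_ne hwd)
  set R1 := R.conj U V hwd with hR1
  have hR1a : ∀ z, R1.act z = mi (vb L U) (vb L V) (R.act (G z)) := fun z => RD.conj_act R U V hwd z
  have hq1 : R1.q.coeff d ≠ 0 := by
    intro h0
    have h1 : R1.act none = none := by
      show pt (R1.hv (1, 0)) = none
      apply pt_zero
      show hl L d R1.q (1, 0) = 0
      rw [hl_zero, h0, map_zero, zero_mul]
    rw [hR1a, hG0] at h1
    have h2 := hGj (R.act (eb L (some c)))
    rw [h1, hG0] at h2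
    exact hc2 h2.symm
  have hq1d : R1.q.natDegree = d := le_antisymm R1.hq (le_natDegree_of_ne_zero hq1)
  -- the points in the new coordinate
  have hex : ∀ z ∈ P, ∃ y : K, G (some (algebraMap K L y)) = z := by
    intro z hz
    obtain ⟨w, hw⟩ := hPK z hz
    have h1 : mi (vb L U) (vb L V) z = eb L (mi U V w) := by
      rw [← hw]
      unfold mi
      rw [rep_eb, ← vb_ax, pt_vb]
    have h2 := hGj z
    rw [h1] at h2
    rcases hm : mi U V w with _ | y
    · exfalso
      rw [hm] at h2
      apply hc1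
      rw [← hG0]
      have h3 : (eb L (none : Option K)) = none := rfl
      rw [h3] at h2
      rw [h2]
      exact hz
    · refine ⟨y, ?_⟩
      rw [hm] at h2
      exact h2
  choose! y hy using hex
  have hact1 : ∀ z ∈ P, R1.act (some (algebraMap K L (y z))) =
      some (algebraMap K L (y (R.act z))) := by
    intro z hz
    rw [hR1a, hy z hz]
    rw [← hy (R.act z) (hst z hz), hGi, hy (R.act z) (hst z hz)]
  refine ⟨U, V, hwd, y, hq1d, hy, ?_⟩
  intro z hz
  have h1 := hact1 z hz
  have h2 : R1.act (some (algebraMap K L (y z))) =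
      eb L (pt (hev d R1.p (y z, 1), hev d R1.q (y z, 1))) := RD.act_eb (some (y z))
  rw [hev_one d _ R1.hp, hev_one d _ R1.hq] at h2
  rw [h2] at h1
  have h3 : pt (R1.p.eval (y z), R1.q.eval (y z)) = some (y (R.act z)) := eb_inj h1
  by_cases h4 : R1.q.eval (y z) = 0
  · rw [pt_zero h4] at h3
    exact absurd h3 (by simp)
  · refine ⟨h4, ?_⟩
    rw [pt_of_ne h4] at h3
    exact Option.some_injective _ h3

end Pool.Agent.V7H78.RP.D
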