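import Pool.Agent.V7H78.RP.D.A14

/-!
# Termination
-/

set_option autoImplicit false

namespace Pool.Agent.V7H78.RP.D

open Pool.Agent.V7H78.RP.UH Polynomial

variable {K L : Type*} [Field K] [Field L] [Algebra K L] {d : ℕ} {p : ℕ} [Fact p.Prime]
  [CharP K p] [CharP L p]

omit [CharP L p] in
/-- the cross ratio and Frobenius -/
lemma cross_pow {U V U' V' : K × K} (h : wd U V ≠ 0) (h' : wd U' V' ≠ 0) (N : ℕ)
    (x x0 x1 x2 : K) (w w0 w1 w2 : Option K)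
    (e : pt (gx U V (x, 1)) = pt (gx U' V' (fv p N (rep w))))
    (e0 : pt (gx U V (x0, 1)) = pt (gx U' V' (fv p N (rep w0))))
    (e1 : pt (gx U V (x1, 1)) = pt (gx U' V' (fv p N (rep w1))))
    (e2 : pt (gx U V (x2, 1)) = pt (gx U' V' (fv p N (rep w2))))
    (h01 : x0 ≠ x1) (h2 : x ≠ x2) :
    ∃ y : K, y ^ p ^ N = ((x - x0) * (x1 - x2)) / ((x - x2) * (x1 - x0)) := by
  have key : ∀ (x : K) (w : Option K), pt (gx U V (x, 1)) = pt (gx U' V' (fv p N (rep w))) →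
      ∃ t : K, t ≠ 0 ∧ gx U' V' (fv p N (rep w)) = t • gx U V (x, 1) := by
    intro x w e
    have hn1 : gx U V ((x, 1) : K × K) ≠ 0 := gx_ne h (rep_ne (some x))
    have hn2 : gx U' V' (fv p N (rep w)) ≠ 0 := gx_ne h' (fv_ne p (rep_ne w))
    obtain ⟨t, ht⟩ := (wd_zero_iff hn1).mp ((pt_eq_iff hn2 hn1).mp e.symm)
    refine ⟨t, ?_, ht⟩
    rintro rfl
    rw [zero_smul] at ht
    exact hn2 ht
  obtain ⟨t, ht, g⟩ := key x w e
  obtain ⟨t0, ht0, g0⟩ := key x0 w0 e0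
  obtain ⟨t1, ht1, g1⟩ := key x1 w1 e1
  obtain ⟨t2, ht2, g2⟩ := key x2 w2 e2
  have hw : ∀ (a b : Option K) (u v s r : K), gx U' V' (fv p N (rep a)) = s • gx U V (u, 1) →
      gx U' V' (fv p N (rep b)) = r • gx U V (v, 1) →
      wd U' V' * wd (rep a) (rep b) ^ p ^ N = s * r * (wd U V * (u - v)) := by
    intro a b u v s r ga gb
    have h1 := wd_gx U' V' (fv p N (rep a)) (fv p N (rep b))
    rw [ga, gb, wd_smul_left, wd_smul_right, wd_gx, wd_fv] at h1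
    rw [← h1]
    unfold wd
    ring
  have k1 := hw w w0 x x0 t t0 g g0
  have k2 := hw w1 w2 x1 x2 t1 t2 g1 g2
  have k3 := hw w w2 x x2 t t2 g g2
  have k4 := hw w1 w0 x1 x0 t1 t0 g1 g0
  have n1 : x - x2 ≠ 0 := sub_ne_zero.mpr h2
  have n2 : x1 - x0 ≠ 0 := sub_ne_zero.mpr h01.symm
  have m3 : wd (rep w) (rep w2) ^ p ^ N ≠ 0 := by
    intro h0
    rw [h0, mul_zero] at k3
    exact mul_ne_zero (mul_ne_zero ht ht2) (mul_ne_zero h n1) k3.symm
  have m4 : wd (rep w1) (rep w0) ^ p ^ N ≠ 0 := by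
    intro h0
    rw [h0, mul_zero] at k4
    exact mul_ne_zero (mul_ne_zero ht1 ht0) (mul_ne_zero h n2) k4.symm
  refine ⟨wd (rep w) (rep w0) * wd (rep w1) (rep w2) /
    (wd (rep w) (rep w2) * wd (rep w1) (rep w0)), ?_⟩
  rw [div_pow, mul_pow, mul_pow, div_eq_div_iff (mul_ne_zero m3 m4) (mul_ne_zero n1 n2)]
  have hc : (wd U' V' ^ 2 * (t * t0 * t1 * t2) * wd U V ^ 2) ≠ 0 :=
    mul_ne_zero (mul_ne_zero (pow_ne_zero _ h') (mul_ne_zero (mul_ne_zero (mul_ne_zero ht ht0)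
      ht1) ht2)) (pow_ne_zero _ h)
  apply mul_left_cancel₀ hc
  obtain ⟨A1, hA1⟩ : ∃ a, a = wd (rep w) (rep w0) ^ p ^ N := ⟨_, rfl⟩
  obtain ⟨A2, hA2⟩ : ∃ a, a = wd (rep w1) (rep w2) ^ p ^ N := ⟨_, rfl⟩
  obtain ⟨A3, hA3⟩ : ∃ a, a = wd (rep w) (rep w2) ^ p ^ N := ⟨_, rfl⟩
  obtain ⟨A4, hA4⟩ : ∃ a, a = wd (rep w1) (rep w0) ^ p ^ N := ⟨_, rfl⟩
  rw [← hA1] at k1 ⊢
  rw [← hA2] at k2 ⊢
  rw [← hA3] at k3 ⊢
  rw [← hA4] at k4 ⊢
  calc wd U' V' ^ 2 * (t * t0 * t1 * t2) * wd U V ^ 2 * (A1 * A2 * ((x - x2) * (x1 - x0)))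
      = (wd U' V' * A1) * (wd U' V' * A2) * (t * t2 * (wd U V * (x - x2))) *
        (t1 * t0 * (wd U V * (x1 - x0))) := by ring
    _ = (t * t0 * (wd U V * (x - x0))) * (t1 * t2 * (wd U V * (x1 - x2))) *
        (wd U' V' * A3) * (wd U' V' * A4) := by rw [k1, k2, k3, k4]
    _ = wd U' V' ^ 2 * (t * t0 * t1 * t2) * wd U V ^ 2 * ((x - x0) * (x1 - x2) * (A3 * A4)) := by
        ring

/-- **Termination.** -/
theorem termination [IsAlgClosed L] [Infinite K] {k : Type*} [Field k] [Algebra k K] [Algebra k L]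
    [IsScalarTower k K L] (hd : 2 ≤ d)
    (hk : ∀ x : K, (∀ n : ℕ, ∃ y : K, y ^ p ^ n = x) → ∃ c : k, algebraMap k K c = x)
    (R : RD K L d) (P : Finset (Option L))
    (hPK : ∀ z ∈ P, z ∈ Set.range (eb L : Option K → Option L)) (hst : ∀ z ∈ P, R.act z ∈ P)
    (hiso : ¬ ∃ U V : K × K, wd U V ≠ 0 ∧ ∃ R0 : RD k L d,
      ∀ z, R.act (mb (vb L U) (vb L V) z) = mb (vb L U) (vb L V) (R0.act z))
    {m : ℕ} (hm : 3 * d + 4 ≤ m + 1) :
    ∃ m0, ∀ N, m0 ≤ N → ∀ s : Lv p R N, (im K s.j P).card ≤ m := by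
  classical
  obtain ⟨U, V, hwd, y, hqd, hy, hdyn⟩ := affine hd R P hPK hst
  set R1 := R.conj U V hwd with hR1
  -- the level where only constants survive
  have hex : ∀ e : K, ∃ n : ℕ, (∃ w : K, w ^ p ^ n = e) → ∃ c : k, algebraMap k K c = e := by
    intro e
    by_cases h : ∀ n : ℕ, ∃ w : K, w ^ p ^ n = e
    · exact ⟨0, fun _ => hk e h⟩
    · push Not at h
      obtain ⟨n, hn⟩ := h
      exact ⟨n, fun ⟨w, hw⟩ => absurd hw (hn w)⟩
  choose ν hν using hex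
  set I := P.image y with hI
  set E : Finset K := ((I ×ˢ I) ×ˢ (I ×ˢ I)).image fun w =>
    ((w.1.1 - w.1.2) * (w.2.1 - w.2.2)) / ((w.1.1 - w.2.2) * (w.2.1 - w.1.2)) with hE
  refine ⟨E.sup ν, fun N hN s => ?_⟩
  by_contra hcon
  push Not at hcon
  apply hiso
  set Q := im K s.j P with hQ
  have hQP : Q ⊆ P := im_subset _ _
  have hQst := s.im_stable hst
  set T := Q.image y with hT
  have hTI : T ⊆ I := Finset.image_subset_image hQP
  have hyinj : Set.InjOn y (Q : Set (Option L)) := by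
    intro z hz z' hz' h
    rw [← hy z (hQP hz), ← hy z' (hQP hz'), h]
  have hTc : T.card = Q.card := Finset.card_image_of_injOn hyinj
  have hTst : ∀ x ∈ T, R1.q.eval x ≠ 0 ∧ R1.p.eval x / R1.q.eval x ∈ T := by
    intro x hx
    obtain ⟨z, hz, rfl⟩ := Finset.mem_image.mp hx
    obtain ⟨h1, h2⟩ := hdyn z (hQP hz)
    refine ⟨h1, ?_⟩
    rw [h2]
    exact Finset.mem_image_of_mem _ (hQst z hz)
  have hcoord : ∀ x ∈ T, ∃ w : Option K, pt (gx U V (x, 1)) =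
      pt (gx s.U s.V (fv p N (rep w))) := by
    intro x hx
    obtain ⟨z, hz, rfl⟩ := Finset.mem_image.mp hx
    obtain ⟨hzP, w, hw⟩ := mem_im.mp hz
    refine ⟨w, ?_⟩
    apply eb_inj (L := L)
    have h1 := hy z hzP
    have h2 : mb (vb L U) (vb L V) (some (algebraMap K L (y z))) = eb L (pt (gx U V (y z, 1))) :=
      mb_eb (some (y z))
    have h3 : s.j (eb L w) = eb L (pt (gx s.U s.V (fv p N (rep w)))) := by
      have h4 : s.j (eb L w) = eb L (mb s.U s.V (fz p N w)) := jj_eb w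
      rw [h4]
      unfold mb
      rw [rep_fz]
    rw [← h2, h1, ← h3, hw]
  obtain ⟨x0, hx0, x1, hx1, x2, hx2, h01, h02, h12, hdet, u, w, hne, hu, hw, hid⟩ :=
    conj_of_cross' (k := k) R1.p R1.q d R1.hp hqd hd R1.coprime T hTst T
      (Finset.Subset.refl _) (by
      intro x0 hx0 x1 hx1 x2 hx2 x hx h01 h02 h12 hx2' hx0'
      apply hν
      obtain ⟨w, hw⟩ := hcoord x hx
      obtain ⟨w0, hw0⟩ := hcoord x0 hx0
      obtain ⟨w1, hw1⟩ := hcoord x1 hx1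
      obtain ⟨w2, hw2⟩ := hcoord x2 hx2
      obtain ⟨v, hv⟩ := cross_pow (p := p) hwd s.hw N x x0 x1 x2 w w0 w1 w2 hw hw0 hw1 hw2 h01 hx2'
      have hmem : ((x - x0) * (x1 - x2)) / ((x - x2) * (x1 - x0)) ∈ E := by
        rw [hE, Finset.mem_image]
        refine ⟨((x, x0), (x1, x2)), ?_, rfl⟩
        rw [Finset.mem_product, Finset.mem_product, Finset.mem_product]
        exact ⟨⟨hTI hx, hTI hx0⟩, hTI hx1, hTI hx2⟩
      have hle : ν (((x - x0) * (x1 - x2)) / ((x - x2) * (x1 - x0))) ≤ N :=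
        (Finset.le_sup hmem).trans hN
      refine ⟨v ^ p ^ (N - ν (((x - x0) * (x1 - x2)) / ((x - x2) * (x1 - x0)))), ?_⟩
      rw [← pow_mul, ← pow_add, Nat.sub_add_cancel hle]
      exact hv) (by
      rw [Finset.sdiff_self, Finset.card_empty, mul_zero, zero_add, hTc]
      omega)
  obtain ⟨R0, hR0⟩ := const_of_coord (k := k) hd R1 _ _ _ _ hdet u w hne hu hw hid
  set a := x1 - x2 with ha
  set b := -(x0 * (x1 - x2)) with hb
  set cc := x1 - x0 with hcc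
  set e := -(x2 * (x1 - x0)) with he
  have hwd2 : wd ((e, -cc) : K × K) ((-b, a) : K × K) ≠ 0 := by
    have : wd ((e, -cc) : K × K) ((-b, a) : K × K) = a * e - b * cc := by
      unfold wd
      ring
    rw [this]
    exact hdet
  refine ⟨gx U V (e, -cc), gx U V (-b, a), ?_, R0, ?_⟩
  · rw [wd_gx]
    exact mul_ne_zero hwd hwd2
  · intro z
    rw [vb_gx, vb_gx, ← mb_mb (wd_vb_ne hwd2), ← mb_mb (wd_vb_ne hwd2), RD.conj_semi R U V hwd,
      ← hR1, hR0]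

end Pool.Agent.V7H78.RP.D
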