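import Pool.Agent.V7H78.RP.D.A15
import Pool.Agent.V7H78.RP.UH.G2

/-!
# The bounds over a function field
-/

set_option autoImplicit false

namespace Pool.Agent.V7H78.RP.D

open Pool.Agent.V7H78.RP.UH Pool.Agent.V7H78.RP.UG Pool.Agent.V7H78.RP.UB Polynomial

universe u v w

/-- the step hypothesis holds over function fields -/
theorem stepHyp (p d : ℕ) (hd : 2 ≤ d) : ∃ B0 : ℕ,
    ∀ (k : Type v) (K : Type u) [Field k] [Infinite k] [Field K] [Algebra k K]
    (Q : PlaceData.{w} k K), (∀ x : K, Q.D x = 0 → ∃ y, y ^ p = x) →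
    StepHyp K p d (max B0 ((q₀ d) ^ (48 * d * (d + 1) * Q.lossT.toNat))) := by
  classical
  obtain ⟨B0, hB0⟩ := card_stableU.{u, v, w} d hd
  refine ⟨B0, ?_⟩
  intro k K _ _ _ _ Q hD P R hP hR hco S hS hc
  by_contra hcon
  have h1 := hB0 k K Q P R hP hR hco S hS (by
    intro T hT hcr
    by_contra hlt
    push Not at hlt
    apply hcon
    refine ⟨T, hT, ?_, ?_⟩
    · have h2 := Finset.card_sdiff_of_subset hT
      have h3 := Finset.card_le_card hT
      have h4 : (d + 1) * (S \ T).card + (d + 1) * T.card = (d + 1) * S.card := by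
        rw [← mul_add]
        congr 1
        omega
      omega
    · intro x0 h0 x1 h1 x2 h2 x hx h01 h02 h12 hx2 hx0
      exact hD _ (hcr x0 h0 x1 h1 x2 h2 x hx h01 h02 h12 hx2 hx0))
  omega

/-- the power map over any field -/
noncomputable def powRD (k L : Type*) [Field k] [Field L] [Algebra k L] (d : ℕ) : RD k L d where
  p := X ^ d
  q := 1
  hp := (natDegree_X_pow_le d)
  hq := by simp
  nv := by
    intro X hX h0
    have h1 : hl L d (Polynomial.X ^ d : k[X]) X = X.1 ^ d := by
      unfold hl hev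
      rw [Polynomial.map_pow, map_X, Finset.sum_eq_single d]
      · rw [coeff_X_pow_self, one_mul, Nat.sub_self, pow_zero, mul_one]
      · intro i _ hi
        rw [coeff_X_pow, if_neg hi, zero_mul, zero_mul]
      · intro h
        exact absurd (Finset.mem_range.mpr (Nat.lt_succ_self d)) h
    have h2 : hl L d (1 : k[X]) X = X.2 ^ d := by
      unfold hl hev
      rw [Polynomial.map_one, Finset.sum_eq_single 0]
      · simp
      · intro i _ hi
        rw [coeff_one, if_neg hi, zero_mul, zero_mul]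
      · intro h
        exact absurd (Finset.mem_range.mpr (Nat.succ_pos d)) h
    have h3 : X.1 ^ d = 0 := h1 ▸ congrArg Prod.fst h0
    have h4 : X.2 ^ d = 0 := h2 ▸ congrArg Prod.snd h0
    apply hX
    ext
    · exact eq_zero_of_pow_eq_zero h3
    · exact eq_zero_of_pow_eq_zero h4

lemma powRD_act {k L : Type*} [Field k] [Field L] [Algebra k L] {d : ℕ} (hd : 1 ≤ d)
    (z : Option L) : (powRD k L d).act z = powz d z := by
  rcases z with _ | x
  · rw [RD.act_none]
    show pt (vb L ((Polynomial.X ^ d : k[X]).coeff d, (1 : k[X]).coeff d)) = none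
    apply pt_zero
    show algebraMap k L ((1 : k[X]).coeff d) = 0
    rw [coeff_one, if_neg (by omega), map_zero]
  · rw [act_some_eq]
    show pt (aeval x (Polynomial.X ^ d : k[X]), aeval x (1 : k[X])) = some (x ^ d)
    rw [map_pow, aeval_X, map_one, pt_of_ne one_ne_zero]
    simp

variable {k K L : Type*} [Field k] [Field K] [Field L] [Algebra k K] [Algebra K L] [Algebra k L]
  {d : ℕ}

/-- conjugate over `L` to a map with coefficients in `k` -/
def IsoT (k : Type*) {K L : Type*} [Field k] [Field K] [Field L] [Algebra K L]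
    [Algebra k L] {d : ℕ} (R : RD K L d) : Prop :=
  ∃ U V : L × L, wd U V ≠ 0 ∧ ∃ R0 : RD k L d, ∀ z, R.act (mb U V z) = mb U V (R0.act z)

lemma three_of_not_isoT [IsAlgClosed L] (hd : 2 ≤ d) {R : RD K L d} (h : ¬ IsoT k R) :
    ∃ z z1 z2, Three R z z1 z2 := by
  rcases exists_three hd R with h1 | ⟨U, V, hw, h1⟩
  · exact h1
  · exfalso
    apply h
    refine ⟨U, V, hw, powRD k L d, ?_⟩
    intro z
    rw [powRD_act (by omega), h1]

variable {p : ℕ} [Fact p.Prime] [CharP K p] [CharP L p]

/-- termination for maps which are not isotrivial -/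
theorem term_of_not_isoT [IsAlgClosed L] [Infinite K] [IsScalarTower k K L] (hd : 2 ≤ d)
    (hk : ∀ x : K, (∀ n : ℕ, ∃ y : K, y ^ p ^ n = x) → ∃ c : k, algebraMap k K c = x)
    (R : RD K L d) (P : Finset (Option L))
    (hPK : ∀ z ∈ P, z ∈ Set.range (eb L : Option K → Option L)) (hst : ∀ z ∈ P, R.act z ∈ P)
    (hiso : ¬ IsoT k R) (B : ℕ) :
    ∃ m0, ∀ N, m0 ≤ N → ∀ s : Lv p R N, (im K s.j P).card ≤ bB d B := by
  apply termination (k := k) hd hk R P hPK hst
  · rintro ⟨U, V, hw, R0, h⟩
    exact hiso ⟨vb L U, vb L V, wd_vb_ne hw, R0, h⟩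
  · have h1 : 3 * d + 3 ≤ 2 ^ (3 * d + 2) := by
      have := Nat.lt_two_pow_self (n := 3 * d + 2)
      omega
    have h2 : 2 ^ (3 * d + 2) * 1 ≤ bB d B := Nat.mul_le_mul_left _ (by omega)
    omega

end Pool.Agent.V7H78.RP.D
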