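import Pool.Agent.V7H78.RP.D.A16

/-!
# Inseparable maps
-/

set_option autoImplicit false

namespace Pool.Agent.V7H78.RP.D

open Pool.Agent.V7H78.RP.UH Polynomial

variable {K L : Type*} [Field K] [Field L] [Algebra K L] {d : ℕ}

namespace RD

variable (R : RD K L d)

lemma deriv_of_wr [IsAlgClosed L] (h : R.wr = 0) :
    derivative R.p = 0 ∧ derivative R.q = 0 := by
  have hco := R.coprime
  have h1 : derivative R.p * R.q = R.p * derivative R.q := sub_eq_zero.mp h
  have key : ∀ f : K[X], f ∣ derivative f → derivative f = 0 := by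
    intro f hf
    by_contra hne
    have h2 := natDegree_le_of_dvd hf hne
    have h3 : f.natDegree ≠ 0 := by
      intro h0
      obtain ⟨c, hc⟩ := natDegree_eq_zero.mp h0
      rw [← hc, derivative_C] at hne
      exact hne rfl
    have h4 := natDegree_derivative_lt h3
    omega
  constructor
  · apply key
    apply hco.dvd_of_dvd_mul_right
    rw [h1]
    exact dvd_mul_right _ _
  · apply key
    apply hco.symm.dvd_of_dvd_mul_left
    rw [← h1]
    exact dvd_mul_left _ _

variable [IsAlgClosed L]

lemma fib_lt_all (hd : 2 ≤ d) (h : R.wr = 0) (w : Option L) : (R.fib w).ncard < d := by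
  classical
  obtain ⟨h1, h2⟩ := R.deriv_of_wr h
  by_cases hx : ∃ x, (R.fp w).eval x = 0
  · obtain ⟨x, hx⟩ := hx
    apply R.fib_lt (by omega) hx
    have h3 : derivative (R.fp w) = 0 := by
      rcases w with _ | y
      · show derivative (R.q.map (algebraMap K L)) = 0
        rw [derivative_map, h2, Polynomial.map_zero]
      · show derivative (R.p.map (algebraMap K L) - C y * R.q.map (algebraMap K L)) = 0
        rw [derivative_sub, derivative_C_mul, derivative_map, derivative_map, h1, h2,
          Polynomial.map_zero, mul_zero, sub_zero]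
    rw [h3, eval_zero]
  · push Not at hx
    have h3 : R.fib w ⊆ {none} := by
      intro z hz
      rcases z with _ | x
      · rfl
      · exact absurd (R.fp_root.mp hz) (hx x)
    have h4 := Set.ncard_le_ncard h3 (Set.finite_singleton _)
    rw [Set.ncard_singleton] at h4
    omega

lemma wr_zero_of_fib (hd : 1 ≤ d) (h : ∀ w, (R.fib w).ncard < d) : R.wr = 0 := by
  by_contra hne
  have h1 := (R.crit_finite hd hne).1
  have h2 : {w : Option L | (R.fib w).ncard < d} = Set.univ := by
    ext w
    simp [h w]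
  rw [h2] at h1
  have hinf : Infinite L := IsAlgClosed.instInfinite
  have : Infinite (Option L) := Infinite.of_injective _ (Option.some_injective L)
  exact Set.infinite_univ h1

end RD

/-- inseparability is preserved by semiconjugacies -/
lemma wr_transfer [IsAlgClosed L] (hd : 2 ≤ d) {R R' : RD K L d} {j : Option L → Option L}
    (hj : Function.Bijective j) (h : Semi R R' j) (hw : R.wr = 0) : R'.wr = 0 := by
  apply R'.wr_zero_of_fib (by omega)
  intro w
  have h1 : R.fib (j w) = j '' R'.fib w := by
    ext z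
    constructor
    · intro hz
      obtain ⟨y, rfl⟩ := hj.2 z
      refine ⟨y, ?_, rfl⟩
      apply hj.1
      have h2 : R.act (j y) = j w := hz
      rw [h y] at h2
      exact h2
    · rintro ⟨y, hy, rfl⟩
      have h2 : R'.act y = w := hy
      show R.act (j y) = j w
      rw [h y, h2]
  have h2 := R.fib_lt_all hd hw (j w)
  rw [h1, Set.ncard_image_of_injective _ hj.1] at h2
  exact h2

variable (p : ℕ) [Fact p.Prime] [CharP K p]

/-- inseparable maps as expansions -/
lemma exists_expand [IsAlgClosed L] (R : RD K L d) (hw : R.wr = 0) :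
    (∃ p₀ : K[X], R.p = expand K p p₀) ∧ ∃ q₁ : K[X], R.q = expand K p q₁ := by
  obtain ⟨h1, h2⟩ := R.deriv_of_wr hw
  exact ⟨⟨_, (expand_contract p h1 (Fact.out : p.Prime).ne_zero).symm⟩,
    ⟨_, (expand_contract p h2 (Fact.out : p.Prime).ne_zero).symm⟩⟩

/-- an inseparable map sends points over the field of roots to rational points -/
lemma act_of_pow [IsAlgClosed L] (R : RD K L d) (hw : R.wr = 0)
    {u : Option L} (hu : fz p 1 u ∈ Set.range (eb L : Option K → Option L)) :
    R.act u ∈ Set.range (eb L : Option K → Option L) := by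
  rcases u with _ | x
  · exact RD.act_mem ⟨none, rfl⟩
  · obtain ⟨⟨p₀, hp₀⟩, ⟨q₁, hq₁⟩⟩ := exists_expand p R hw
    obtain ⟨a, ha⟩ := hu
    rcases a with _ | a
    · exact absurd ha (by simp [eb, fz])
    have ha' : algebraMap K L a = x ^ p ^ 1 := Option.some_injective _ ha
    rw [pow_one] at ha'
    rw [act_some_eq, hp₀, hq₁, expand_aeval, expand_aeval, ← ha', aeval_algebraMap_apply,
      aeval_algebraMap_apply]
    exact ⟨pt (aeval a p₀, aeval a q₁), (pt_vb _).symm⟩

variable [CharP L p]
variable {p}

/-- an inseparable map has its values in the image of each structure of level one -/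
lemma act_mem_level [IsAlgClosed L] (hd : 2 ≤ d) {R : RD K L d} (hw : R.wr = 0)
    (t : Lv p R 1) {z : Option L} (hz : z ∈ Set.range (eb L : Option K → Option L)) :
    ∃ y : Option K, t.j (eb L y) = R.act z := by
  obtain ⟨u, hu⟩ := t.j_surj z
  have hw' : t.S.wr = 0 := wr_transfer hd ⟨t.j_inj, t.j_surj⟩ t.semi hw
  have h1 : fz p 1 u ∈ Set.range (eb L : Option K → Option L) := by
    obtain ⟨w, hw⟩ := hz
    have h1 : mb (vb L t.U) (vb L t.V) (fz p 1 u) = z := hu
    have h2 : fz p 1 u = mi (vb L t.U) (vb L t.V) z := by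
      rw [← h1, mi_mb (wd_vb_ne t.hw)]
    rw [h2, ← hw]
    refine ⟨mi t.U t.V w, ?_⟩
    unfold mi
    rw [rep_eb, ← vb_ax, pt_vb]
  obtain ⟨y, hy⟩ := act_of_pow p t.S hw' h1
  refine ⟨y, ?_⟩
  rw [hy, ← t.act_j, hu]

/-- **The chain for inseparable maps.** -/
theorem chainI [IsAlgClosed L] [Infinite K] (hd : 2 ≤ d) {B : ℕ} (hB : StepHyp K p d B) (e : ℕ) :
    ∀ (R : RD K L d), R.wr = 0 → ∀ z ∈ Set.range (eb L : Option K → Option L),
    (Set.range fun t : ℕ => R.act^[t] z).Finite → ∀ M : ℕ,
    (∀ s t, s < M → t < M → R.act^[s] z = R.act^[t] z → s = t) → B + e ≤ M →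
    ∃ s : Lv p R e, ∀ t, e ≤ t → ∃ y : Option K, s.j (eb L y) = R.act^[t] z := by
  classical
  induction e with
  | zero =>
    intro R _ z hz _ M _ _
    refine ⟨Lv.triv p R, fun t _ => ?_⟩
    have h1 : ∀ t : ℕ, R.act^[t] z ∈ Set.range (eb L : Option K → Option L) := by
      intro t
      induction t with
      | zero => exact hz
      | succ t ih =>
        rw [Function.iterate_succ_apply']
        exact RD.act_mem ih
    obtain ⟨y, hy⟩ := h1 t
    exact ⟨y, by rw [Lv.triv_j, hy]⟩
  | succ e ih =>
    intro R hw z hz hfin M hM hBM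
    have h1 : ∀ t : ℕ, R.act^[t] z ∈ Set.range (eb L : Option K → Option L) := by
      intro t
      induction t with
      | zero => exact hz
      | succ t ih =>
        rw [Function.iterate_succ_apply']
        exact RD.act_mem ih
    set P : Finset (Option L) := hfin.toFinset with hP
    have hPmem : ∀ w, w ∈ P ↔ ∃ t : ℕ, R.act^[t] z = w := by
      intro w
      rw [hP, Set.Finite.mem_toFinset]
      rfl
    have hPst : ∀ w ∈ P, R.act w ∈ P := by
      intro w hw
      rw [hPmem] at hw ⊢
      obtain ⟨t, rfl⟩ := hw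
      exact ⟨t + 1, Function.iterate_succ_apply' _ _ _⟩
    have hPK : ∀ w ∈ P, w ∈ Set.range (eb L : Option K → Option L) := by
      intro w hw
      rw [hPmem] at hw
      obtain ⟨t, rfl⟩ := hw
      exact h1 t
    have hPc : M ≤ P.card := by
      have h2 : ((Finset.range M).image fun t => R.act^[t] z).card = M := by
        rw [Finset.card_image_of_injOn, Finset.card_range]
        intro s hs t ht h
        rw [Finset.mem_coe, Finset.mem_range] at hs ht
        exact hM s t hs ht h
      rw [← h2]
      apply Finset.card_le_card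
      intro w hw
      obtain ⟨t, _, rfl⟩ := Finset.mem_image.mp hw
      exact (hPmem _).mpr ⟨t, rfl⟩
    obtain ⟨U, V, hwd, R', hsemi, -⟩ := step (L := L) p hd hB R P hPK hPst (by omega)
    let t₁ : Lv p R 1 := ⟨U, V, hwd, R', hsemi⟩
    obtain ⟨y₁, hy₁⟩ := act_mem_level hd hw t₁ hz
    have hw' : t₁.S.wr = 0 := wr_transfer hd ⟨t₁.j_inj, t₁.j_surj⟩ t₁.semi hw
    have hit : ∀ t : ℕ, t₁.j (t₁.S.act^[t] (eb L y₁)) = R.act^[t + 1] z := by
      intro t
      induction t with
      | zero => exact hy₁
      | succ t iht =>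
        rw [Function.iterate_succ_apply', ← t₁.act_j, iht, ← Function.iterate_succ_apply' R.act]
    obtain ⟨s', hs'⟩ := ih t₁.S hw' (eb L y₁) ⟨y₁, rfl⟩ (by
      have h2 : (t₁.j '' Set.range fun t : ℕ => t₁.S.act^[t] (eb L y₁)).Finite := by
        apply hfin.subset
        rintro _ ⟨_, ⟨t, rfl⟩, rfl⟩
        exact ⟨t + 1, (hit t).symm⟩
      exact Set.Finite.of_finite_image h2 t₁.j_inj.injOn) (M - 1) (by
      intro s t hs ht h
      have h2 := congrArg t₁.j h
      rw [hit, hit] at h2
      have := hM (s + 1) (t + 1) (by omega) (by omega) h2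
      omega) (by omega)
    have hcast : ∃ s : Lv p R (1 + e), ∀ t, e + 1 ≤ t →
        ∃ y : Option K, s.j (eb L y) = R.act^[t] z := by
      refine ⟨t₁.comp s', fun t ht => ?_⟩
      obtain ⟨y, hy⟩ := hs' (t - 1) (by omega)
      refine ⟨y, ?_⟩
      rw [Lv.comp_j, hy, hit]
      congr 2
      omega
    rw [add_comm e 1]
    obtain ⟨s, hs⟩ := hcast
    exact ⟨s, fun t ht => hs t (by omega)⟩

end Pool.Agent.V7H78.RP.D
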