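import Pool.Agent.V7H78.RP.D.A17

/-!
# Points with a cross ratio which is a power
-/

set_option autoImplicit false

namespace Pool.Agent.V7H78.RP.D

open Pool.Agent.V7H78.RP.UH Polynomial

variable {K : Type*} [Field K] {p : ℕ} [Fact p.Prime] [CharP K p]

/-- the relation between three vectors of the plane -/
lemma wd_three (A b c : K × K) : wd A c • b - wd A b • c = wd b c • A := by
  unfold wd
  ext
  · simp only [Prod.fst_sub, Prod.smul_fst, smul_eq_mul]
    ring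
  · simp only [Prod.snd_sub, Prod.smul_snd, smul_eq_mul]
    ring

lemma fv_sub (N : ℕ) (X Y : K × K) : fv p N (X - Y) = fv p N X - fv p N Y := by
  unfold fv
  ext
  · simp only [Prod.fst_sub]
    rw [sub_pow_char_pow]
  · simp only [Prod.snd_sub]
    rw [sub_pow_char_pow]

/-- a point with a cross ratio which is a power -/
lemma cross_mem {U V U' V' : K × K} (h : wd U V ≠ 0) (h' : wd U' V' ≠ 0) (N : ℕ)
    (x x0 x1 x2 : K) (w0 w1 w2 : Option K)
    (e0 : pt (gx U V (x0, 1)) = pt (gx U' V' (fv p N (rep w0))))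
    (e1 : pt (gx U V (x1, 1)) = pt (gx U' V' (fv p N (rep w1))))
    (e2 : pt (gx U V (x2, 1)) = pt (gx U' V' (fv p N (rep w2))))
    (h02 : x0 ≠ x2) (h12 : x1 ≠ x2) (t : K)
    (ht : t ^ p ^ N * ((x - x2) * (x1 - x0)) = (x - x0) * (x1 - x2)) :
    ∃ w : Option K, pt (gx U V (x, 1)) = pt (gx U' V' (fv p N (rep w))) := by
  have key : ∀ (x : K) (w : Option K), pt (gx U V (x, 1)) = pt (gx U' V' (fv p N (rep w))) →
      ∃ t : K, t ≠ 0 ∧ gx U' V' (fv p N (rep w)) = t • gx U V (x, 1) := by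
    intro x w e
    have hn1 : gx U V ((x, 1) : K × K) ≠ 0 := gx_ne h (rep_ne (some x))
    have hn2 : gx U' V' (fv p N (rep w)) ≠ 0 := gx_ne h' (fv_ne p (rep_ne w))
    obtain ⟨t, ht⟩ := (wd_zero_iff hn1).mp ((pt_eq_iff hn2 hn1).mp e.symm)
    refine ⟨t, ?_, ht⟩
    rintro rfl
    rw [zero_smul] at ht
    exact hn2 ht
  by_cases hx2 : x = x2
  · exact ⟨w2, by rw [hx2, e2]⟩
  obtain ⟨t0, ht0, g0⟩ := key x0 w0 e0
  obtain ⟨t1, ht1, g1⟩ := key x1 w1 e1
  obtain ⟨t2, ht2, g2⟩ := key x2 w2 e2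
  have hw : ∀ (a b : Option K) (u v s r : K), gx U' V' (fv p N (rep a)) = s • gx U V (u, 1) →
      gx U' V' (fv p N (rep b)) = r • gx U V (v, 1) →
      wd U' V' * wd (rep a) (rep b) ^ p ^ N = s * r * (wd U V * (u - v)) := by
    intro a b u v s r ga gb
    have h1 := wd_gx U' V' (fv p N (rep a)) (fv p N (rep b))
    rw [ga, gb, wd_smul_left, wd_smul_right, wd_gx, wd_fv] at h1
    rw [← h1]
    unfold wd
    ring
  have k12 := hw w1 w2 x1 x2 t1 t2 g1 g2
  have k10 := hw w1 w0 x1 x0 t1 t0 g1 g0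
  have k02 := hw w0 w2 x0 x2 t0 t2 g0 g2
  set A := ax U' V' (gx U V (x, 1)) with hA
  have hgA : gx U' V' A = wd U' V' • gx U V (x, 1) := gx_ax _ _ _
  have hA0 : A ≠ 0 := ax_ne h' (gx_ne h (rep_ne (some x)))
  have hwA : ∀ (b : Option K) (v r : K), gx U' V' (fv p N (rep b)) = r • gx U V (v, 1) →
      wd A (fv p N (rep b)) = r * (wd U V * (x - v)) := by
    intro b v r gb
    have h1 := wd_gx U' V' A (fv p N (rep b))
    rw [hgA, gb, wd_smul_left, wd_smul_right, wd_gx] at h1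
    apply mul_left_cancel₀ h'
    rw [← h1]
    unfold wd
    ring
  have a0 := hwA w0 x0 t0 g0
  have a2 := hwA w2 x2 t2 g2
  have n2 : x - x2 ≠ 0 := sub_ne_zero.mpr hx2
  have n12 : x1 - x2 ≠ 0 := sub_ne_zero.mpr h12
  have n02 : x0 - x2 ≠ 0 := sub_ne_zero.mpr h02
  have m12 : wd (rep w1) (rep w2) ^ p ^ N ≠ 0 := by
    intro h0
    rw [h0, mul_zero] at k12
    exact mul_ne_zero (mul_ne_zero ht1 ht2) (mul_ne_zero h n12) k12.symm
  have m02 : wd (fv p N (rep w0)) (fv p N (rep w2)) ≠ 0 := by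
    intro h0
    rw [wd_fv] at h0
    rw [h0, mul_zero] at k02
    exact mul_ne_zero (mul_ne_zero ht0 ht2) (mul_ne_zero h n02) k02.symm
  have mA : wd A (fv p N (rep w2)) ≠ 0 := by
    rw [a2]
    exact mul_ne_zero ht2 (mul_ne_zero h n2)
  have hrel : wd A (fv p N (rep w0)) * wd (rep w1) (rep w2) ^ p ^ N =
      t ^ p ^ N * wd A (fv p N (rep w2)) * wd (rep w1) (rep w0) ^ p ^ N := by
    rw [a0, a2]
    apply mul_left_cancel₀ h'
    calc wd U' V' * (t0 * (wd U V * (x - x0)) * wd (rep w1) (rep w2) ^ p ^ N)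
        = t0 * (wd U V * (x - x0)) * (wd U' V' * wd (rep w1) (rep w2) ^ p ^ N) := by ring
      _ = t0 * t1 * t2 * wd U V ^ 2 * ((x - x0) * (x1 - x2)) := by
          rw [k12]
          ring
      _ = t0 * t1 * t2 * wd U V ^ 2 * (t ^ p ^ N * ((x - x2) * (x1 - x0))) := by rw [ht]
      _ = t ^ p ^ N * (t2 * (wd U V * (x - x2))) * (t1 * t0 * (wd U V * (x1 - x0))) := by ring
      _ = t ^ p ^ N * (t2 * (wd U V * (x - x2))) * (wd U' V' * wd (rep w1) (rep w0) ^ p ^ N) := by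
          rw [k10]
      _ = wd U' V' * (t ^ p ^ N * (t2 * (wd U V * (x - x2))) *
          wd (rep w1) (rep w0) ^ p ^ N) := by ring
  set X := wd (rep w1) (rep w2) • rep w0 - (t * wd (rep w1) (rep w0)) • rep w2 with hX
  have hfX : (wd (rep w1) (rep w2) ^ p ^ N * wd (fv p N (rep w0)) (fv p N (rep w2))) • A =
      wd A (fv p N (rep w2)) • fv p N X := by
    rw [hX, fv_sub, fv_smul, fv_smul, mul_smul, ← wd_three, smul_sub, smul_sub, smul_smul,
      smul_smul, smul_smul, smul_smul, mul_pow]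
    congr 1
    · rw [mul_comm]
    · congr 1
      rw [mul_comm, hrel]
      ring
  have hc : wd (rep w1) (rep w2) ^ p ^ N * wd (fv p N (rep w0)) (fv p N (rep w2)) ≠ 0 :=
    mul_ne_zero m12 m02
  have hX0 : X ≠ 0 := by
    intro h0
    have h1 : fv p N X = 0 := by
      rw [h0]
      unfold fv
      have hp : p ^ N ≠ 0 := pow_ne_zero _ (Fact.out : p.Prime).ne_zero
      ext
      · simp [zero_pow hp]
      · simp [zero_pow hp]
    rw [h1, smul_zero] at hfX
    exact smul_ne_zero hc hA0 hfX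
  obtain ⟨s, hs, hXs⟩ := exists_rep hX0
  refine ⟨pt X, ?_⟩
  have h1 : pt (gx U V (x, 1)) = pt (gx U' V' A) := by
    rw [hgA, pt_smul h']
  have h2 : pt (gx U' V' A) = pt (gx U' V' (fv p N X)) := by
    have h3 := congrArg (gx U' V') hfX
    rw [gx_smul, gx_smul] at h3
    have h4 := congrArg pt h3
    rw [pt_smul hc, pt_smul mA] at h4
    exact h4
  have h3 : pt (gx U' V' (fv p N X)) = pt (gx U' V' (fv p N (rep (pt X)))) := by
    conv_lhs => rw [hXs, fv_smul, gx_smul, pt_smul (pow_ne_zero _ hs)]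
  rw [h1, h2, h3]

end Pool.Agent.V7H78.RP.D
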