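import Pool.Agent.V7H78.RP.D.A18
import Pool.Agent.V7H78.RP.I.J10

/-!
# Tails of inseparable maps outside the images of the structures
-/

set_option autoImplicit false

namespace Pool.Agent.V7H78.RP.D

open Pool.Agent.V7H78.RP.UH Pool.Agent.V7H78.RP.UG Pool.Agent.V7H78.RP.UB Polynomial

universe u v w x

/-- exponential growth -/
lemma growth (F : ℕ) : ∃ n₁, ∀ n, n₁ ≤ n → 32 * (n + F) ^ 4 ≤ 2 ^ (n / 2) := by
  have h1 := tendsto_pow_const_div_const_pow_of_one_lt 4 (r := (2 : ℝ)) (by norm_num)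
  have h2 := h1.eventually (gt_mem_nhds (show (0 : ℝ) < 1 / 8192 by norm_num))
  rw [Filter.eventually_atTop] at h2
  obtain ⟨m₁, hm₁⟩ := h2
  refine ⟨2 * (m₁ + F + 1), ?_⟩
  intro n hn
  set m := n / 2 with hm
  have hm1 : m₁ ≤ m := by omega
  have hm2 : n + F ≤ 4 * m := by omega
  have h3 := hm₁ m hm1
  rw [div_lt_div_iff₀ (by positivity) (by norm_num), one_mul] at h3
  have h4 : m ^ 4 * 8192 < 2 ^ m := by exact_mod_cast h3
  calc 32 * (n + F) ^ 4 ≤ 32 * (4 * m) ^ 4 := by gcongr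
    _ = m ^ 4 * 8192 := by ring
    _ ≤ 2 ^ m := h4.le

variable {k : Type v} {K : Type u} [Field k] [Infinite k] [Field K] [Algebra k K]
  {p : ℕ} [Fact p.Prime] [CharP K p] {d : ℕ}

/-- **Tails outside the images of the structures are short.** -/
theorem tail_len (hd : 2 ≤ d) (Q : PlaceData.{w} k K) (hD : ∀ x : K, Q.D x = 0 → ∃ y, y ^ p = x)
    {B : ℕ} (hB : StepHyp K p d B) (F : ℕ) : ∃ n₀ : ℕ,
    ∀ (L : Type x) [Field L] [IsAlgClosed L] [CharP L p] [Algebra K L] (R : RD K L d), R.wr = 0 →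
    ∀ z ∈ Set.range (eb L : Option K → Option L), ∀ n c : ℕ, 1 ≤ c → c ≤ F →
    (∀ s t, s < n → R.act^[s] z = R.act^[t] z → s = t) →
    (∀ t, n ≤ t → R.act^[c] (R.act^[t] z) = R.act^[t] z) →
    (¬ ∃ t : Lv p R 1, ∃ y : Option K, t.j (eb L y) = z) → n ≤ n₀ := by
  classical
  have : Infinite K := Infinite.of_injective _ (algebraMap k K).injective
  obtain ⟨N₀, M₀, hT⟩ := I.tail_bound.{u, v, w} d hd
  obtain ⟨n₁, hn₁⟩ := growth F
  set Z := (q₀ d) ^ (M₀ * Q.lossT.toNat) with hZ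
  refine ⟨n₁ + 2 * B + 2 * N₀ + 2 * Z + 4, ?_⟩
  intro L _ _ _ _ R hw z hz n c hc hcF hdist hper hno
  by_contra hcon
  push Not at hcon
  set e := n / 2 with he
  have hgr := hn₁ n (by omega)
  -- the orbit
  have horb : ∀ t : ℕ, ∃ t' < n + c, R.act^[t'] z = R.act^[t] z := by
    intro t
    induction t using Nat.strong_induction_on with
    | _ t ih =>
      by_cases ht : t < n + c
      · exact ⟨t, ht, rfl⟩
      · push Not at ht
        obtain ⟨t', ht', h1⟩ := ih (t - c) (by omega)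
        refine ⟨t', ht', ?_⟩
        rw [h1, ← hper (t - c) (by omega), ← Function.iterate_add_apply]
        congr 2
        omega
  set P : Finset (Option L) := (Finset.range (n + c)).image fun t => R.act^[t] z with hP
  have hPmem : ∀ w, w ∈ P ↔ ∃ t : ℕ, R.act^[t] z = w := by
    intro w
    rw [hP, Finset.mem_image]
    constructor
    · rintro ⟨t, _, h⟩
      exact ⟨t, h⟩
    · rintro ⟨t, rfl⟩
      obtain ⟨t', ht', h1⟩ := horb t
      exact ⟨t', Finset.mem_range.mpr ht', h1⟩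
  have hfin : (Set.range fun t : ℕ => R.act^[t] z).Finite := by
    apply (Finset.finite_toSet P).subset
    rintro _ ⟨t, rfl⟩
    exact (hPmem _).mpr ⟨t, rfl⟩
  have hPle : P.card ≤ n + F := by
    have h1 := Finset.card_image_le (s := Finset.range (n + c)) (f := fun t => R.act^[t] z)
    rw [Finset.card_range] at h1
    exact h1.trans (by omega)
  have h1 : ∀ t : ℕ, R.act^[t] z ∈ Set.range (eb L : Option K → Option L) := by
    intro t
    induction t with
    | zero => exact hz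
    | succ t ih =>
      rw [Function.iterate_succ_apply']
      exact RD.act_mem ih
  have hPst : ∀ w ∈ P, R.act w ∈ P := by
    intro w hw
    rw [hPmem] at hw ⊢
    obtain ⟨t, rfl⟩ := hw
    exact ⟨t + 1, Function.iterate_succ_apply' _ _ _⟩
  have hPK : ∀ w ∈ P, w ∈ Set.range (eb L : Option K → Option L) := by
    intro w hw
    rw [hPmem] at hw
    obtain ⟨t, rfl⟩ := hw
    exact h1 t
  have hPc : n ≤ P.card := by
    have h2 : ((Finset.range n).image fun t => R.act^[t] z).card = n := by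
      rw [Finset.card_image_of_injOn, Finset.card_range]
      intro s hs t ht h
      rw [Finset.mem_coe, Finset.mem_range] at hs ht
      exact hdist s t hs h
    rw [← h2]
    apply Finset.card_le_card
    intro w hw
    obtain ⟨t, _, rfl⟩ := Finset.mem_image.mp hw
    exact (hPmem _).mpr ⟨t, rfl⟩
  have hzP : z ∈ P := (hPmem z).mpr ⟨0, rfl⟩
  -- the structures
  obtain ⟨U₁, V₁, hwd₁, R', hsemi, -⟩ := step (L := L) p hd hB R P hPK hPst (by omega)
  let t₁ : Lv p R 1 := ⟨U₁, V₁, hwd₁, R', hsemi⟩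
  obtain ⟨y₁, hy₁⟩ := act_mem_level hd hw t₁ hz
  have hw' : t₁.S.wr = 0 := wr_transfer hd ⟨t₁.j_inj, t₁.j_surj⟩ t₁.semi hw
  have hit : ∀ t : ℕ, t₁.j (t₁.S.act^[t] (eb L y₁)) = R.act^[t + 1] z := by
    intro t
    induction t with
    | zero => exact hy₁
    | succ t iht =>
      rw [Function.iterate_succ_apply', ← t₁.act_j, iht, ← Function.iterate_succ_apply' R.act]
  have hlev1 : ∀ t : ℕ, 1 ≤ t → ∃ y : Option K, t₁.j (eb L y) = R.act^[t] z := by
    intro t ht
    have h2 : ∀ t : ℕ, t₁.S.act^[t] (eb L y₁) ∈ Set.range (eb L : Option K → Option L) := by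
      intro t
      induction t with
      | zero => exact ⟨y₁, rfl⟩
      | succ t ih =>
        rw [Function.iterate_succ_apply']
        exact RD.act_mem ih
    obtain ⟨y, hy⟩ := h2 (t - 1)
    refine ⟨y, ?_⟩
    rw [hy, hit, Nat.sub_add_cancel ht]
  obtain ⟨s', hs'⟩ := chainI hd hB e t₁.S hw' (eb L y₁) ⟨y₁, rfl⟩ (by
    have h2 : (t₁.j '' Set.range fun t : ℕ => t₁.S.act^[t] (eb L y₁)).Finite := by
      apply hfin.subset
      rintro _ ⟨_, ⟨t, rfl⟩, rfl⟩
      exact ⟨t + 1, (hit t).symm⟩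
    exact Set.Finite.of_finite_image h2 t₁.j_inj.injOn) (n - 1) (by
    intro s t hs ht h
    have h2 := congrArg t₁.j h
    rw [hit, hit] at h2
    have := hdist (s + 1) (t + 1) (by omega) h2
    omega) (by omega)
  set s : Lv p R (1 + e) := t₁.comp s' with hs
  have hlev : ∀ t, e + 1 ≤ t → ∃ y : Option K, s.j (eb L y) = R.act^[t] z := by
    intro t ht
    obtain ⟨y, hy⟩ := hs' (t - 1) (by omega)
    refine ⟨y, ?_⟩
    rw [hs, Lv.comp_j, hy, hit]
    congr 2
    omega
  -- affine coordinates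
  obtain ⟨U, V, hwd, y, hqd, hy, hdyn⟩ := affine hd R P hPK hPst
  set R1 := R.conj U V hwd with hR1
  have hw1 : R1.wr = 0 := by
    apply wr_transfer hd (R := R) (j := mb (vb L U) (vb L V)) ?_ (RD.conj_semi R U V hwd) hw
    constructor
    · intro a b hab
      have h2 := congrArg (mi (vb L U) (vb L V)) hab
      rwa [mi_mb (wd_vb_ne hwd), mi_mb (wd_vb_ne hwd)] at h2
    · intro a
      exact ⟨mi (vb L U) (vb L V) a, mb_mi (wd_vb_ne hwd) a⟩
  obtain ⟨⟨p₀, hp₀⟩, ⟨q₁, hq₁⟩⟩ := exists_expand p R1 hw1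
  have hdm : d = p * q₁.natDegree := by
    rw [← hqd, hq₁, natDegree_expand, mul_comm]
  set I := P.image y with hI
  have hyinj : Set.InjOn y (P : Set (Option L)) := by
    intro a ha b hb h
    rw [← hy a ha, ← hy b hb, h]
  have hIst : ∀ x ∈ I, R1.q.eval x ≠ 0 ∧ R1.p.eval x / R1.q.eval x ∈ I := by
    intro x hx
    obtain ⟨a, ha, rfl⟩ := Finset.mem_image.mp hx
    obtain ⟨h1, h2⟩ := hdyn a ha
    refine ⟨h1, ?_⟩
    rw [h2]
    exact Finset.mem_image_of_mem _ (hPst a ha)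
  set f : K → K := fun x => R1.p.eval x / R1.q.eval x with hf
  have hfy : ∀ a ∈ P, ∀ t : ℕ, f^[t] (y a) = y (R.act^[t] a) := by
    intro a ha t
    induction t with
    | zero => rfl
    | succ t ih =>
      rw [Function.iterate_succ_apply', ih, Function.iterate_succ_apply']
      exact (hdyn _ (iter_mem hPst ha t)).2
  have hcoord : ∀ {N : ℕ} (s : Lv p R N) (a : Option L) (w : Option K), a ∈ P →
      (s.j (eb L w) = a ↔ pt (gx U V (y a, 1)) = pt (gx s.U s.V (fv p N (rep w)))) := by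
    intro N s a w ha
    have h3 : s.j (eb L w) = eb L (pt (gx s.U s.V (fv p N (rep w)))) := by
      have h4 : s.j (eb L w) = eb L (mb s.U s.V (fz p N w)) := jj_eb w
      rw [h4]
      unfold mb
      rw [rep_fz]
    have h2 : eb L (pt (gx U V (y a, 1))) = a := by
      have h1 := hy a ha
      have h2 : mb (vb L U) (vb L V) (some (algebraMap K L (y a))) = eb L (pt (gx U V (y a, 1))) :=
        mb_eb (some (y a))
      rw [← h2, h1]
    constructor
    · intro h
      apply eb_inj (L := L)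
      rw [h2, ← h3, h]
    · intro h
      rw [h3, ← h, h2]
  -- the points of the tail
  set W : Finset (Option L) := P.filter fun a => ∃ t, e + 1 ≤ t ∧ R.act^[t] z = a with hW
  have hWP : W ⊆ P := Finset.filter_subset _ _
  set Y := W.image y with hY
  have hYc : Y.card = W.card := Finset.card_image_of_injOn (hyinj.mono (by exact_mod_cast hWP))
  have hWc : n - (e + 1) ≤ W.card := by
    have h2 : ((Finset.Ico (e + 1) n).image fun t => R.act^[t] z).card = n - (e + 1) := by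
      rw [Finset.card_image_of_injOn, Nat.card_Ico]
      intro s hs t ht h
      rw [Finset.mem_coe, Finset.mem_Ico] at hs ht
      exact hdist s t hs.2 h
    rw [← h2]
    apply Finset.card_le_card
    intro w hw
    obtain ⟨t, ht, rfl⟩ := Finset.mem_image.mp hw
    rw [Finset.mem_Ico] at ht
    exact Finset.mem_filter.mpr ⟨(hPmem _).mpr ⟨t, rfl⟩, t, ht.1, rfl⟩
  have hWle : W.card ≤ n + F := (Finset.card_le_card hWP).trans hPle
  have hYge : 1 ≤ Y.card := by omega
  have hdeg4 : 32 * Y.card ^ 4 ≤ 2 ^ e := by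
    refine le_trans ?_ hgr
    gcongr
    omega
  have hYpow : Y.card ≤ 2 ^ (n - 1) := by
    have h2 : Y.card ≤ 32 * Y.card ^ 4 := by
      calc Y.card = 1 * Y.card ^ 1 := by ring
        _ ≤ 32 * Y.card ^ 4 := by
          apply Nat.mul_le_mul (by norm_num)
          exact Nat.pow_le_pow_right hYge (by norm_num)
    refine h2.trans (hdeg4.trans ?_)
    exact Nat.pow_le_pow_right (by norm_num) (by omega)
  have hmem : ∀ x ∈ Y, ∃ a ∈ P, y a = x ∧ ∃ t, e + 1 ≤ t ∧ R.act^[t] z = a := by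
    intro x hx
    obtain ⟨a, ha, rfl⟩ := Finset.mem_image.mp hx
    obtain ⟨h2, h3⟩ := Finset.mem_filter.mp ha
    exact ⟨a, h2, rfl, h3⟩
  have hfin := hT k K Q p q₁.natDegree hdm p₀ q₁ R1.p R1.q hp₀ hq₁ R1.hp hqd R1.coprime I hIst f
    (fun _ _ => rfl) (y z) (Finset.mem_image_of_mem _ hzP) n (by omega) (by
      intro s t hs h
      rw [hfy z hzP, hfy z hzP] at h
      exact hdist s t hs (hyinj (iter_mem hPst hzP s) (iter_mem hPst hzP t) h)) c hc (by
      intro t ht
      rw [hfy z hzP, hfy _ (iter_mem hPst hzP t), hper t ht]) Y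
    (Finset.image_subset_image hWP) (by
      intro x hx
      obtain ⟨a, ha, rfl, t, ht, rfl⟩ := hmem x hx
      exact ⟨t, by omega, hfy z hzP t⟩) (by omega) hYpow e hdeg4 (by
      intro x0 hx0 x1 hx1 x2 hx2 x hx h01 h02 h12 hx2' hx0' hx1'
      obtain ⟨a, ha, rfl, t, ht, hta⟩ := hmem x hx
      obtain ⟨a0, ha0, rfl, t0, ht0, hta0⟩ := hmem x0 hx0
      obtain ⟨a1, ha1, rfl, t1, ht1, hta1⟩ := hmem x1 hx1
      obtain ⟨a2, ha2, rfl, t2, ht2, hta2⟩ := hmem x2 hx2
      obtain ⟨w, hw⟩ := hlev t ht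
      obtain ⟨w0, hw0⟩ := hlev t0 ht0
      obtain ⟨w1, hw1⟩ := hlev t1 ht1
      obtain ⟨w2, hw2⟩ := hlev t2 ht2
      rw [hta] at hw
      rw [hta0] at hw0
      rw [hta1] at hw1
      rw [hta2] at hw2
      obtain ⟨v, hv⟩ := cross_pow (p := p) hwd s.hw (1 + e) (y a) (y a0) (y a1) (y a2) w w0 w1 w2
        ((hcoord s a w ha).mp hw) ((hcoord s a0 w0 ha0).mp hw0) ((hcoord s a1 w1 ha1).mp hw1)
        ((hcoord s a2 w2 ha2).mp hw2) h01 hx2'
      refine ⟨v ^ p, ?_⟩
      rw [← hv, ← pow_mul, pow_add, pow_one]) (by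
      intro x0 hx0 x1 hx1 x2 hx2 hD3 h0
      obtain ⟨h01, h02, h12⟩ := hD3
      obtain ⟨a0, ha0, rfl, t0, ht0, hta0⟩ := hmem x0 hx0
      obtain ⟨a1, ha1, rfl, t1, ht1, hta1⟩ := hmem x1 hx1
      obtain ⟨a2, ha2, rfl, t2, ht2, hta2⟩ := hmem x2 hx2
      obtain ⟨w0, hw0⟩ := hlev1 t0 (by omega)
      obtain ⟨w1, hw1⟩ := hlev1 t1 (by omega)
      obtain ⟨w2, hw2⟩ := hlev1 t2 (by omega)
      rw [hta0] at hw0
      rw [hta1] at hw1
      rw [hta2] at hw2
      obtain ⟨v, hv⟩ := hD _ h0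
      have hz2 : y z - y a2 ≠ 0 := by
        rw [sub_ne_zero]
        intro h
        have h3 := hyinj hzP ha2 h
        have h4 := hdist 0 t2 (by omega) (by rw [hta2, ← h3]; rfl)
        omega
      have h10 : y a1 - y a0 ≠ 0 := sub_ne_zero.mpr (Ne.symm h01)
      obtain ⟨w, hw⟩ := cross_mem (p := p) hwd t₁.hw 1 (y z) (y a0) (y a1) (y a2) w0 w1 w2
        ((hcoord t₁ a0 w0 ha0).mp hw0) ((hcoord t₁ a1 w1 ha1).mp hw1)
        ((hcoord t₁ a2 w2 ha2).mp hw2) h02 h12 v (by
          rw [pow_one, hv]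
          exact div_mul_cancel₀ _ (mul_ne_zero hz2 h10))
      exact hno ⟨t₁, w, (hcoord t₁ z w hzP).mpr hw⟩)
  rw [← hZ] at hfin
  omega

end Pool.Agent.V7H78.RP.D
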