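import Pool.Agent.V7H78.RP.D.A1

/-!
# Rational maps on the projective line over an algebraically closed field
-/

set_option autoImplicit false

namespace Pool.Agent.V7H78.RP.D

open Pool.Agent.V7H78.RP.UH Polynomial

variable {K L : Type*} [Field K] [Field L] [Algebra K L]

/-- base change of vectors -/
def vb (L : Type*) [Field L] [Algebra K L] (X : K × K) : L × L :=
  (algebraMap K L X.1, algebraMap K L X.2)

lemma vb_ne {X : K × K} (hX : X ≠ 0) : vb L X ≠ 0 := by
  intro h
  apply hX
  ext
  · exact (map_eq_zero _).mp (congrArg Prod.fst h)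
  · exact (map_eq_zero _).mp (congrArg Prod.snd h)

lemma wd_vb (X Y : K × K) : wd (vb L X) (vb L Y) = algebraMap K L (wd X Y) := by
  unfold wd vb
  simp

lemma wd_vb_ne {X Y : K × K} (h : wd X Y ≠ 0) : wd (vb L X) (vb L Y) ≠ 0 := by
  rw [wd_vb]
  exact (_root_.map_ne_zero _).mpr h

lemma vb_gx (U V X : K × K) : vb L (gx U V X) = gx (vb L U) (vb L V) (vb L X) := by
  unfold vb gx
  ext
  · simp only [Prod.fst_add, Prod.smul_fst, smul_eq_mul, map_add, map_mul]
  · simp only [Prod.snd_add, Prod.smul_snd, smul_eq_mul, map_add, map_mul]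

lemma vb_ax (U V X : K × K) : vb L (ax U V X) = ax (vb L U) (vb L V) (vb L X) := by
  unfold ax
  rw [wd_vb, wd_vb]
  rfl

lemma vb_fv (p N : ℕ) (X : K × K) : vb L (fv p N X) = fv p N (vb L X) := by
  unfold vb fv
  ext <;> simp

lemma vb_smul (t : K) (X : K × K) : vb L (t • X) = algebraMap K L t • vb L X := by
  unfold vb
  ext
  · simp only [Prod.smul_fst, smul_eq_mul, map_mul]
  · simp only [Prod.smul_snd, smul_eq_mul, map_mul]

/-- base change of points -/
def eb (L : Type*) [Field L] [Algebra K L] (z : Option K) : Option L := z.map (algebraMap K L)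

lemma eb_inj : Function.Injective (eb L : Option K → Option L) :=
  Option.map_injective (algebraMap K L).injective

lemma rep_eb (z : Option K) : rep (eb L z) = vb L (rep z) := by
  rcases z with _ | x
  · show ((1 : L), (0 : L)) = (algebraMap K L 1, algebraMap K L 0)
    rw [map_one, map_zero]
  · show ((algebraMap K L x, 1) : L × L) = (algebraMap K L x, algebraMap K L 1)
    rw [map_one]

lemma pt_vb (X : K × K) : pt (vb L X) = eb L (pt X) := by
  by_cases h : X.2 = 0
  · rw [pt_zero h, pt_zero (by show algebraMap K L X.2 = 0; rw [h, map_zero])]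
    rfl
  · rw [pt_of_ne h, pt_of_ne ((_root_.map_ne_zero _).mpr h)]
    show some (algebraMap K L X.1 / algebraMap K L X.2) = some (algebraMap K L (X.1 / X.2))
    rw [map_div₀]

/-- homogeneous evaluation of polynomials over `K` at vectors over `L` -/
noncomputable def hl (L : Type*) [Field L] [Algebra K L] (d : ℕ) (p : K[X]) (X : L × L) : L :=
  hev d (p.map (algebraMap K L)) X

lemma hl_smul (d : ℕ) (p : K[X]) (t : L) (X : L × L) : hl L d p (t • X) = t ^ d * hl L d p X :=
  hev_smul d _ t X

lemma hl_vb (d : ℕ) (p : K[X]) (X : K × K) : hl L d p (vb L X) = algebraMap K L (hev d p X) := by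
  unfold hl hev vb
  rw [map_sum]
  apply Finset.sum_congr rfl
  intro i _
  simp

lemma hl_add (d : ℕ) (p q : K[X]) (X : L × L) : hl L d (p + q) X = hl L d p X + hl L d q X := by
  unfold hl hev
  rw [← Finset.sum_add_distrib]
  apply Finset.sum_congr rfl
  intro i _
  rw [Polynomial.map_add, coeff_add]
  ring

lemma hl_C_mul (d : ℕ) (a : K) (p : K[X]) (X : L × L) :
    hl L d (C a * p) X = algebraMap K L a * hl L d p X := by
  unfold hl hev
  rw [Finset.mul_sum]
  apply Finset.sum_congr rfl
  intro i _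
  rw [Polynomial.map_mul, map_C, coeff_C_mul]
  ring

lemma hl_sub (d : ℕ) (p q : K[X]) (X : L × L) : hl L d (p - q) X = hl L d p X - hl L d q X := by
  have h : p - q = p + C (-1) * q := by
    rw [C_neg, C_1]
    ring
  rw [h, hl_add, hl_C_mul]
  simp
  ring

lemma hl_one (d : ℕ) (p : K[X]) (hp : p.natDegree ≤ d) (x : L) :
    hl L d p (x, 1) = aeval x p := by
  unfold hl
  rw [hev_one d _ (natDegree_map_le.trans hp), eval_map_algebraMap]

lemma hl_zero (d : ℕ) (p : K[X]) (x : L) : hl L d p (x, 0) = algebraMap K L (p.coeff d) * x ^ d := by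
  unfold hl
  rw [hev_zero, coeff_map]

lemma hl_eval (d : ℕ) (p : K[X]) (hp : p.natDegree ≤ d) (X : L × L) (h : X.2 ≠ 0) :
    hl L d p X = X.2 ^ d * aeval (X.1 / X.2) p := by
  unfold hl
  rw [hev_eval d _ (natDegree_map_le.trans hp) X h, eval_map_algebraMap]

/-- composition of forms -/
lemma hl_hc (n d : ℕ) (A p q : K[X]) (hp : p.natDegree ≤ d) (hq : q.natDegree ≤ d)
    (X : L × L) : hl L (n * d) (hc n A p q) X = hl L n A (hl L d p X, hl L d q X) := by
  by_cases h : X.2 = 0
  · have hX : X = (X.1, 0) := Prod.ext rfl h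
    rw [hX, hl_zero, hl_zero, hl_zero, hc_coeff n d A p q hp hq]
    have e1 : ((algebraMap K L (p.coeff d) * X.1 ^ d, algebraMap K L (q.coeff d) * X.1 ^ d) : L × L) =
        X.1 ^ d • vb L (p.coeff d, q.coeff d) := by
      unfold vb
      ext
      · simp [mul_comm]
      · simp [mul_comm]
    rw [e1, hl_smul, hl_vb, ← pow_mul, mul_comm d n]
    ring
  · have hdeg := hc_degree n d A p q hp hq
    rw [hl_eval _ _ hdeg X h, hc_aeval, hl_eval _ _ hp X h, hl_eval _ _ hq X h]
    have e1 : ((X.2 ^ d * aeval (X.1 / X.2) p, X.2 ^ d * aeval (X.1 / X.2) q) : L × L) =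
        X.2 ^ d • (aeval (X.1 / X.2) p, aeval (X.1 / X.2) q) := by
      ext <;> simp
    rw [e1, hl_smul, ← pow_mul, mul_comm d n]
    rfl

/-- A rational map of degree `d` with coefficients in `K`, acting on the projective line over `L`. -/
structure RD (K L : Type*) [Field K] [Field L] [Algebra K L] (d : ℕ) where
  /-- numerator -/
  p : K[X]
  /-- denominator -/
  q : K[X]
  hp : p.natDegree ≤ d
  hq : q.natDegree ≤ d
  nv : ∀ X : L × L, X ≠ 0 → ((hl L d p X, hl L d q X) : L × L) ≠ 0

namespace RD

variable {d : ℕ} (R : RD K L d)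

/-- action on vectors -/
noncomputable def hv (X : L × L) : L × L := (hl L d R.p X, hl L d R.q X)

/-- action on points -/
noncomputable def act (z : Option L) : Option L := pt (R.hv (rep z))

variable {R}

lemma hv_ne {X : L × L} (hX : X ≠ 0) : R.hv X ≠ 0 := R.nv X hX

lemma hv_smul (t : L) (X : L × L) : R.hv (t • X) = t ^ d • R.hv X := by
  unfold hv
  rw [hl_smul, hl_smul]
  rfl

lemma act_pt {X : L × L} (hX : X ≠ 0) : R.act (pt X) = pt (R.hv X) := by
  obtain ⟨t, ht, h⟩ := exists_rep hX
  unfold act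
  conv_rhs => rw [h, hv_smul, pt_smul (pow_ne_zero d ht)]

lemma hv_vb (X : K × K) : R.hv (vb L X) = vb L (hev d R.p X, hev d R.q X) := by
  unfold hv
  rw [hl_vb, hl_vb]
  rfl

/-- the map preserves the points over `K` -/
lemma act_eb (z : Option K) : R.act (eb L z) = eb L (pt (hev d R.p (rep z), hev d R.q (rep z))) := by
  unfold act
  rw [rep_eb, hv_vb, pt_vb]

lemma act_mem {z : Option L} (hz : z ∈ Set.range (eb L : Option K → Option L)) :
    R.act z ∈ Set.range (eb L : Option K → Option L) := by
  obtain ⟨w, rfl⟩ := hz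
  exact ⟨_, (act_eb w).symm⟩

/-- composition -/
noncomputable def comp {m n : ℕ} (S : RD K L m) (T : RD K L n) : RD K L (m * n) where
  p := hc m S.p T.p T.q
  q := hc m S.q T.p T.q
  hp := hc_degree m n S.p T.p T.q T.hp T.hq
  hq := hc_degree m n S.q T.p T.q T.hp T.hq
  nv := by
    intro X hX
    rw [hl_hc m n S.p T.p T.q T.hp T.hq, hl_hc m n S.q T.p T.q T.hp T.hq]
    exact S.nv _ (T.nv X hX)

lemma comp_hv {m n : ℕ} (S : RD K L m) (T : RD K L n) (X : L × L) :
    (S.comp T).hv X = S.hv (T.hv X) := by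
  unfold hv comp
  simp only
  rw [hl_hc m n S.p T.p T.q T.hp T.hq, hl_hc m n S.q T.p T.q T.hp T.hq]

lemma comp_act {m n : ℕ} (S : RD K L m) (T : RD K L n) (z : Option L) :
    (S.comp T).act z = S.act (T.act z) := by
  conv_lhs => unfold act
  rw [comp_hv]
  have h : T.act z = pt (T.hv (rep z)) := rfl
  rw [h, act_pt (hv_ne (rep_ne z))]

/-- a Moebius map -/
noncomputable def mob (U V : K × K) (h : wd U V ≠ 0) : RD K L 1 where
  p := C U.1 * X + C V.1
  q := C U.2 * X + C V.2
  hp := lin_deg _ _
  hq := lin_deg _ _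
  nv := by
    intro X hX
    have h1 : ((hl L 1 (C U.1 * Polynomial.X + C V.1) X, hl L 1 (C U.2 * Polynomial.X + C V.2) X) :
        L × L) = gx (vb L U) (vb L V) X := by
      have e : ∀ a b : K, hl L 1 (C a * Polynomial.X + C b) X =
          algebraMap K L a * X.1 + algebraMap K L b * X.2 := by
        intro a b
        unfold hl hev
        rw [Finset.sum_range_succ, Finset.sum_range_one]
        simp
        ring
      rw [e, e]
      unfold gx vb
      ext
      · simp only [Prod.fst_add, Prod.smul_fst, smul_eq_mul]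
        ring
      · simp only [Prod.snd_add, Prod.smul_snd, smul_eq_mul]
        ring
    rw [h1]
    exact gx_ne (wd_vb_ne h) hX

lemma mob_hv (U V : K × K) (h : wd U V ≠ 0) (X : L × L) :
    (mob U V h : RD K L 1).hv X = gx (vb L U) (vb L V) X := by
  have e : ∀ a b : K, hl L 1 (C a * Polynomial.X + C b) X =
      algebraMap K L a * X.1 + algebraMap K L b * X.2 := by
    intro a b
    unfold hl hev
    rw [Finset.sum_range_succ, Finset.sum_range_one]
    simp
    ring
  unfold hv mob
  simp only
  rw [e, e]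
  unfold gx vb
  ext
  · simp only [Prod.fst_add, Prod.smul_fst, smul_eq_mul]
    ring
  · simp only [Prod.snd_add, Prod.smul_snd, smul_eq_mul]
    ring

lemma mob_act (U V : K × K) (h : wd U V ≠ 0) (z : Option L) :
    (mob U V h : RD K L 1).act z = mb (vb L U) (vb L V) z := by
  unfold act mb
  rw [mob_hv]

/-- change of the degree index -/
def cast {m n : ℕ} (S : RD K L m) (h : m = n) : RD K L n where
  p := S.p
  q := S.q
  hp := h ▸ S.hp
  hq := h ▸ S.hq
  nv := h ▸ S.nv

lemma cast_act {m n : ℕ} (S : RD K L m) (h : m = n) (z : Option L) :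
    (S.cast h).act z = S.act z := by
  subst h
  rfl

/-- the conjugate of a rational map by a Moebius map -/
noncomputable def conj (R : RD K L d) (U V : K × K) (h : wd U V ≠ 0) : RD K L d :=
  ((mob (V.2, -U.2) (-V.1, U.1) (by rw [wd_adj]; exact h)).comp (R.comp (mob U V h))).cast
    (by ring)

lemma vb_adj (U V : K × K) (z : Option L) :
    mb (vb L (V.2, -U.2)) (vb L (-V.1, U.1)) z = mi (vb L U) (vb L V) z := by
  rw [mi_eq]
  congr 1
  · unfold vb
    simp
  · unfold vb
    simp

lemma conj_act (R : RD K L d) (U V : K × K) (h : wd U V ≠ 0) (z : Option L) :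
    (R.conj U V h).act z = mi (vb L U) (vb L V) (R.act (mb (vb L U) (vb L V) z)) := by
  unfold conj
  rw [cast_act, comp_act, comp_act, mob_act, mob_act, vb_adj]

/-- the semiconjugacy by the Moebius map -/
lemma conj_semi (R : RD K L d) (U V : K × K) (h : wd U V ≠ 0) (z : Option L) :
    R.act (mb (vb L U) (vb L V) z) = mb (vb L U) (vb L V) ((R.conj U V h).act z) := by
  rw [conj_act, mb_mi (wd_vb_ne h)]

end RD

end Pool.Agent.V7H78.RP.D
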