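import Pool.Agent.V7H78.RP.D.A19

/-!
# The bound for inseparable maps
-/

set_option autoImplicit false

namespace Pool.Agent.V7H78.RP.D

open Pool.Agent.V7H78.RP.UH Pool.Agent.V7H78.RP.UG Pool.Agent.V7H78.RP.UB Polynomial

universe u v w x

/-- a power of a map has small fibres -/
lemma card_le_iter {K L : Type*} [Field K] [Field L] [Algebra K L] [IsAlgClosed L] {d : ℕ}
    (hd : 1 ≤ d) (R : RD K L d) (n : ℕ) (P P' : Finset (Option L))
    (h : ∀ z ∈ P, R.act^[n] z ∈ P') : P.card ≤ d ^ n * P'.card := by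
  classical
  apply Finset.card_le_mul_card_image_of_maps_to h
  intro b _
  have h1 := (R.iter n).fib_card (Nat.one_le_pow _ _ hd) b
  refine le_trans ?_ h1
  rw [← Set.ncard_coe_finset]
  apply Set.ncard_le_ncard _ ((R.iter n).fib_finite (Nat.one_le_pow _ _ hd) b)
  intro z hz
  rw [Finset.mem_coe, Finset.mem_filter] at hz
  show (R.iter n).act z = b
  rw [RD.iter_act]
  exact hz.2

variable {k : Type v} {K : Type u} [Field k] [Infinite k] [Field K] [Algebra k K]
  {p : ℕ} [Fact p.Prime] [CharP K p] {d : ℕ}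

/-- **All tails of inseparable maps are short.** -/
theorem tail_all (hd : 2 ≤ d) (Q : PlaceData.{w} k K) (hD : ∀ x : K, Q.D x = 0 → ∃ y, y ^ p = x)
    {B : ℕ} (hB : StepHyp K p d B) (F : ℕ) : ∃ n₀ : ℕ,
    ∀ (L : Type x) [Field L] [IsAlgClosed L] [CharP L p] [Algebra K L] (R : RD K L d), R.wr = 0 →
    ∀ P : Finset (Option L), (∀ z ∈ P, z ∈ Set.range (eb L : Option K → Option L)) →
    (∀ z ∈ P, R.act z ∈ P) →
    (∃ m0, ∀ N, m0 ≤ N → ∀ s : Lv p R N, (im K s.j P).card ≤ bB d B) →
    ∀ z ∈ P, ∀ n c : ℕ, 1 ≤ c → c ≤ F →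
    (∀ s t, s < n → R.act^[s] z = R.act^[t] z → s = t) →
    (∀ t, n ≤ t → R.act^[c] (R.act^[t] z) = R.act^[t] z) → n ≤ n₀ := by
  classical
  obtain ⟨n₀, hn₀⟩ := tail_len.{u, v, w, x} hd Q hD hB F
  refine ⟨max n₀ (bB d B), ?_⟩
  intro L _ _ _ _ R hw P hPK hst ⟨m0, hm0⟩ z hz n c hc hcF hdist hper
  by_contra hcon
  push Not at hcon
  obtain ⟨hcon1, hcon2⟩ := max_lt_iff.mp hcon
  -- the deepest structure containing `z`
  set pr : ℕ → Prop := fun N => ∃ s : Lv p R N, ∃ y : Option K, s.j (eb L y) = z with hpr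
  have hpr0 : pr 0 := by
    obtain ⟨y, hy⟩ := hPK z hz
    exact ⟨Lv.triv p R, y, by rw [Lv.triv_j, hy]⟩
  have hprb : ∀ N, pr N → N < m0 := by
    rintro N ⟨s, y, hy⟩
    by_contra hN
    push Not at hN
    have h1 := hm0 N hN s
    have h2 : n ≤ (im K s.j P).card := by
      have h3 : ((Finset.range n).image fun t => R.act^[t] z).card = n := by
        rw [Finset.card_image_of_injOn, Finset.card_range]
        intro s hs t ht h
        rw [Finset.mem_coe, Finset.mem_range] at hs ht
        exact hdist s t hs h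
      rw [← h3]
      apply Finset.card_le_card
      intro w hw
      obtain ⟨t, _, rfl⟩ := Finset.mem_image.mp hw
      exact iter_mem (s.im_stable hst) (mem_im.mpr ⟨hz, y, hy⟩) t
    omega
  set N := Nat.findGreatest pr m0 with hN
  have hprN : pr N := Nat.findGreatest_spec (P := pr) (Nat.zero_le m0) hpr0
  have hmax : ¬ pr (N + 1) := by
    intro h
    have h1 := hprb _ h
    have h2 := Nat.le_findGreatest (P := pr) h1.le h
    omega
  obtain ⟨s, y, hy⟩ := hprN
  have hws : s.S.wr = 0 := wr_transfer hd ⟨s.j_inj, s.j_surj⟩ s.semi hw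
  have hit : ∀ t : ℕ, s.j (s.S.act^[t] (eb L y)) = R.act^[t] z := by
    intro t
    induction t with
    | zero => exact hy
    | succ t iht =>
      rw [Function.iterate_succ_apply', ← s.act_j, iht, ← Function.iterate_succ_apply' R.act]
  have h1 := hn₀ L s.S hws (eb L y) ⟨y, rfl⟩ n c hc hcF (by
    intro i j hi h
    apply hdist i j hi
    rw [← hit, ← hit, h]) (by
    intro t ht
    apply s.j_inj
    rw [← Function.iterate_add_apply, hit, hit, Function.iterate_add_apply, hper t ht]) (by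
    rintro ⟨t, y', hy'⟩
    exact hmax ⟨s.comp t, y', by rw [Lv.comp_j, hy', hy]⟩)
  omega

/-- **The bound for inseparable maps.** -/
theorem bound_insep (hd : 2 ≤ d) (Q : PlaceData.{w} k K)
    (hD : ∀ x : K, Q.D x = 0 → ∃ y, y ^ p = x) {B : ℕ} (hB : StepHyp K p d B) : ∃ N : ℕ,
    ∀ (L : Type x) [Field L] [IsAlgClosed L] [CharP L p] [Algebra K L] (R : RD K L d), R.wr = 0 →
    (∃ z z1 z2, Three R z z1 z2) →
    ∀ P : Finset (Option L), (∀ z ∈ P, z ∈ Set.range (eb L : Option K → Option L)) →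
    (∀ z ∈ P, R.act z ∈ P) →
    (∀ P' : Finset (Option L), (∀ z ∈ P', z ∈ Set.range (eb L : Option K → Option L)) →
      (∀ z ∈ P', R.act z ∈ P') →
      ∃ m0, ∀ N, m0 ≤ N → ∀ s : Lv p R N, (im K s.j P').card ≤ bB d B) →
    P.card ≤ N := by
  classical
  have : Infinite K := Infinite.of_injective _ (algebraMap k K).injective
  obtain ⟨n₀, hn₀⟩ := tail_all.{u, v, w, x} hd Q hD hB (fB d B)
  refine ⟨d ^ n₀ * fB d B, ?_⟩
  intro L _ _ _ _ R hw h3 P hPK hst hT
  set P' := P.filter fun z => z ∈ Function.periodicPts R.act with hP'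
  have hPP : P' ⊆ P := Finset.filter_subset _ _
  have hst' : ∀ z ∈ P', R.act z ∈ P' := by
    intro z hz
    rw [hP', Finset.mem_filter] at hz ⊢
    exact ⟨hst z hz.1, by
      obtain ⟨m, hm, h⟩ := hz.2
      exact ⟨m, hm, h.apply⟩⟩
  have hbd : P'.card ≤ fB d B := bound_per hd hB R h3 P' (fun z hz => hPK z (hPP hz)) hst'
    (fun z hz => (Finset.mem_filter.mp hz).2) (hT P' (fun z hz => hPK z (hPP hz)) hst')
  refine (card_le_iter (by omega) R n₀ P P' ?_).trans (Nat.mul_le_mul_left _ hbd)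
  intro z hz
  -- the tail of `z`
  have hex : ∃ n, R.act^[n] z ∈ Function.periodicPts R.act := event_periodic hst hz
  set n := Nat.find hex with hn
  have hnp : R.act^[n] z ∈ Function.periodicPts R.act := Nat.find_spec hex
  have hnm : ∀ m, m < n → R.act^[m] z ∉ Function.periodicPts R.act := fun m hm =>
    Nat.find_min hex hm
  have hnP : R.act^[n] z ∈ P' := Finset.mem_filter.mpr ⟨iter_mem hst hz n, hnp⟩
  obtain ⟨c, hc1, hc2, hc3⟩ := short_period hst' hnP hnp
  have hle : n ≤ n₀ := by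
    apply hn₀ L R hw P hPK hst (hT P hPK hst) z hz n c hc1 (hc2.trans hbd)
    · intro s t hs h
      rcases lt_trichotomy s t with h1 | h1 | h1
      · exfalso
        apply hnm s hs
        refine ⟨t - s, by omega, ?_⟩
        show R.act^[t - s] (R.act^[s] z) = R.act^[s] z
        rw [← Function.iterate_add_apply, Nat.sub_add_cancel h1.le, h]
      · exact h1
      · exfalso
        apply hnm t (by omega)
        refine ⟨s - t, by omega, ?_⟩
        show R.act^[s - t] (R.act^[t] z) = R.act^[t] z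
        rw [← Function.iterate_add_apply, Nat.sub_add_cancel h1.le, h]
    · intro t ht
      obtain ⟨m, rfl⟩ := Nat.exists_eq_add_of_le ht
      rw [add_comm n m, Function.iterate_add_apply, ← Function.iterate_add_apply R.act c m,
        add_comm c m, Function.iterate_add_apply R.act m c, hc3]
  obtain ⟨m, hm⟩ := Nat.exists_eq_add_of_le hle
  rw [hm, add_comm n m, Function.iterate_add_apply]
  exact iter_mem hst' hnP m

end Pool.Agent.V7H78.RP.D
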