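import Pool.Agent.V7H78.RP.D.A2

/-!
# Semiconjugacies by Frobenius followed by a Moebius map
-/

set_option autoImplicit false

namespace Pool.Agent.V7H78.RP.D

open Pool.Agent.V7H78.RP.UH Polynomial

variable {K L : Type*} [Field K] [Field L] [Algebra K L] (p : ℕ) [Fact p.Prime] [CharP L p]
  [CharP K p]

/-- Frobenius followed by a Moebius map over `K` -/
noncomputable def jj (L : Type*) [Field L] [Algebra K L] (U V : K × K) (N : ℕ) (z : Option L) :
    Option L :=
  mb (vb L U) (vb L V) (fz p N z)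

variable {p} {U V U' V' : K × K} {M N : ℕ}

omit [CharP K p] in
lemma jj_inj (h : wd U V ≠ 0) : Function.Injective (jj p L U V N) := by
  intro x y hxy
  apply fz_inj p N
  have h1 := congrArg (mi (vb L U) (vb L V)) hxy
  unfold jj at h1
  rwa [mi_mb (wd_vb_ne h), mi_mb (wd_vb_ne h)] at h1

omit [CharP L p] [CharP K p] in
lemma fz_surj [IsAlgClosed L] (N : ℕ) : Function.Surjective (fz p N : Option L → Option L) := by
  intro z
  rcases z with _ | x
  · exact ⟨none, rfl⟩
  · obtain ⟨y, hy⟩ := IsAlgClosed.exists_pow_nat_eq x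
      (pow_pos (Fact.out : p.Prime).pos N)
    exact ⟨some y, congrArg some hy⟩

omit [CharP L p] [CharP K p] in
lemma jj_surj [IsAlgClosed L] (h : wd U V ≠ 0) : Function.Surjective (jj p L U V N) := by
  intro z
  obtain ⟨y, hy⟩ := fz_surj (p := p) N (mi (vb L U) (vb L V) z)
  refine ⟨y, ?_⟩
  unfold jj
  rw [hy, mb_mi (wd_vb_ne h)]

omit [CharP L p] [CharP K p] in
lemma rep_fz (z : Option L) : rep (fz p N z) = fv p N (rep z) := by
  rcases z with _ | x
  · show ((1 : L), (0 : L)) = (1 ^ p ^ N, 0 ^ p ^ N)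
    rw [one_pow, zero_pow (pow_ne_zero _ (Fact.out : p.Prime).ne_zero)]
  · show ((x ^ p ^ N, 1) : L × L) = (x ^ p ^ N, 1 ^ p ^ N)
    rw [one_pow]

omit [CharP L p] [CharP K p] in
lemma jj_pt {X : L × L} (hX : X ≠ 0) :
    jj p L U V N (pt X) = pt (gx (vb L U) (vb L V) (fv p N X)) := by
  unfold jj
  rw [← pt_fv, mb_pt _ _ (fv_ne p hX)]

omit [CharP L p] [CharP K p] in
lemma jj_eq (z : Option L) : jj p L U V N z = pt (gx (vb L U) (vb L V) (fv p N (rep z))) := by
  conv_lhs => rw [← pt_rep z]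
  exact jj_pt (rep_ne z)

omit [CharP K p] in
lemma jj_jj (h : wd U' V' ≠ 0) (z : Option L) :
    jj p L U V M (jj p L U' V' N z) =
      jj p L (gx U V (fv p M U')) (gx U V (fv p M V')) (M + N) z := by
  rw [jj_eq (N := N), jj_pt (gx_ne (wd_vb_ne h) (fv_ne p (rep_ne z))), jj_eq, fv_gx, gx_gx, fv_fv,
    vb_gx, vb_gx, vb_fv, vb_fv]

omit [CharP L p] in
lemma wd_comp (h : wd U V ≠ 0) (h' : wd U' V' ≠ 0) :
    wd (gx U V (fv p M U')) (gx U V (fv p M V')) ≠ 0 := by
  rw [wd_gx, wd_fv]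
  exact mul_ne_zero h (pow_ne_zero _ h')

omit [Fact p.Prime] [CharP L p] [CharP K p] in
lemma fz_eb (z : Option K) : fz p N (eb L z) = eb L (fz p N z) := by
  unfold fz eb
  rw [Option.map_map, Option.map_map]
  congr 1
  funext x
  simp

omit [CharP L p] [CharP K p] [Fact p.Prime] in
lemma mb_eb (z : Option K) : mb (vb L U) (vb L V) (eb L z) = eb L (mb U V z) := by
  unfold mb
  rw [rep_eb, ← vb_gx, pt_vb]

omit [Fact p.Prime] [CharP L p] [CharP K p] in
lemma jj_eb (z : Option K) : jj p L U V N (eb L z) = eb L (mb U V (fz p N z)) := by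
  unfold jj
  rw [fz_eb, mb_eb]

omit [Fact p.Prime] [CharP L p] [CharP K p] in
lemma jj_mem {z : Option L} (hz : z ∈ Set.range (eb L : Option K → Option L)) :
    jj p L U V N z ∈ Set.range (eb L : Option K → Option L) := by
  obtain ⟨w, rfl⟩ := hz
  exact ⟨_, (jj_eb w).symm⟩

omit [Fact p.Prime] [CharP L p] [CharP K p] in
lemma jj_id (z : Option L) : jj p L ((1, 0) : K × K) ((0, 1) : K × K) 0 z = z := by
  unfold jj mb
  rw [fz_zero]
  have h : gx (vb L ((1, 0) : K × K)) (vb L ((0, 1) : K × K)) (rep z) = rep z := by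
    unfold gx vb
    ext
    · simp
    · simp
  rw [h, pt_rep]

/-- `j` is a semiconjugacy from `R'` to `R` -/
def Semi {d : ℕ} (R R' : RD K L d) (j : Option L → Option L) : Prop :=
  ∀ z, R.act (j z) = j (R'.act z)

omit [Fact p.Prime] [CharP L p] [CharP K p] in
lemma Semi.comp {d : ℕ} {R R' R'' : RD K L d} {i j : Option L → Option L} (h : Semi R R' i)
    (h' : Semi R' R'' j) : Semi R R'' (i ∘ j) := by
  intro z
  show R.act (i (j z)) = i (j (R''.act z))
  rw [h, h']

end Pool.Agent.V7H78.RP.D
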