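import Pool.Agent.V7H78.RP.D.A3

/-!
# Elementary facts: coprimality, fixed points
-/

set_option autoImplicit false

namespace Pool.Agent.V7H78.RP.D

open Pool.Agent.V7H78.RP.UH Polynomial

variable {K L : Type*} [Field K] [Field L] [Algebra K L] {d : ℕ}

/-- two polynomials without common zeros on the projective line are coprime -/
lemma coprime_of_nv [IsAlgClosed L] (p q : K[X]) (hp : p.natDegree ≤ d) (hq : q.natDegree ≤ d)
    (h : ∀ X : L × L, X ≠ 0 → ((hl L d p X, hl L d q X) : L × L) ≠ 0) : IsCoprime p q := by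
  refine (isCoprime_iff_aeval_ne_zero_of_isAlgClosed (k := K) L _ _).mpr ?_
  intro x
  by_contra hcon
  push Not at hcon
  apply h (x, 1) (by
    intro h0
    exact one_ne_zero (congrArg Prod.snd h0))
  rw [hl_one d p hp, hl_one d q hq, hcon.1, hcon.2]
  rfl

lemma lead_of_nv (p q : K[X])
    (h : ∀ X : L × L, X ≠ 0 → ((hl L d p X, hl L d q X) : L × L) ≠ 0) :
    p.coeff d ≠ 0 ∨ q.coeff d ≠ 0 := by
  by_contra hcon
  push Not at hcon
  apply h (1, 0) (by
    intro h0
    exact one_ne_zero (congrArg Prod.fst h0))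
  rw [hl_zero, hl_zero, hcon.1, hcon.2, map_zero, zero_mul]
  rfl

/-- conversely -/
lemma nv_of_coprime (p q : K[X]) (hp : p.natDegree ≤ d) (hq : q.natDegree ≤ d)
    (hco : IsCoprime p q) (hl' : p.coeff d ≠ 0 ∨ q.coeff d ≠ 0) (X : L × L) (hX : X ≠ 0) :
    ((hl L d p X, hl L d q X) : L × L) ≠ 0 := by
  intro h0
  have h1 : hl L d p X = 0 := congrArg Prod.fst h0
  have h2 : hl L d q X = 0 := congrArg Prod.snd h0
  by_cases h : X.2 = 0
  · have hX' : X = (X.1, 0) := Prod.ext rfl h
    have hX1 : X.1 ≠ 0 := fun h1 => hX (Prod.ext h1 h)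
    rw [hX', hl_zero] at h1 h2
    have h3 := (mul_eq_zero.mp h1).resolve_right (pow_ne_zero _ hX1)
    have h4 := (mul_eq_zero.mp h2).resolve_right (pow_ne_zero _ hX1)
    rcases hl' with h5 | h5
    · exact h5 ((map_eq_zero _).mp h3)
    · exact h5 ((map_eq_zero _).mp h4)
  · rw [hl_eval d p hp X h] at h1
    rw [hl_eval d q hq X h] at h2
    have h3 := (mul_eq_zero.mp h1).resolve_left (pow_ne_zero _ h)
    have h4 := (mul_eq_zero.mp h2).resolve_left (pow_ne_zero _ h)
    obtain ⟨u, w, huw⟩ := hco
    have := congrArg (aeval (X.1 / X.2)) huw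
    rw [map_add, map_mul, map_mul, h3, h4, mul_zero, mul_zero, add_zero, map_one] at this
    exact zero_ne_one this

namespace RD

variable (R : RD K L d)

lemma coprime [IsAlgClosed L] : IsCoprime R.p R.q := coprime_of_nv R.p R.q R.hp R.hq R.nv

lemma lead : R.p.coeff d ≠ 0 ∨ R.q.coeff d ≠ 0 := lead_of_nv R.p R.q R.nv

lemma fix_ne [IsAlgClosed L] (hd : 2 ≤ d) : R.p - X * R.q ≠ 0 := by
  intro h0
  have h1 : R.p = X * R.q := sub_eq_zero.mp h0
  have hco := R.coprime
  have h2 : IsUnit R.q := by
    obtain ⟨a, b, hab⟩ := hco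
    rw [h1] at hab
    apply IsUnit.of_mul_eq_one (a * X + b)
    rw [← hab]
    ring
  have h3 := natDegree_eq_zero_of_isUnit h2
  have h4 : R.p.natDegree ≤ 1 := by
    rw [h1]
    refine natDegree_mul_le.trans ?_
    rw [h3, add_zero]
    exact natDegree_X_le
  rcases R.lead with h | h
  · exact h (coeff_eq_zero_of_natDegree_lt (by omega))
  · exact h (coeff_eq_zero_of_natDegree_lt (by omega))

lemma fix_root {x : L} (h : R.act (some x) = some x) : aeval x (R.p - X * R.q) = 0 := by
  have h1 : R.act (some x) = pt (R.hv (x, 1)) := rfl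
  have h2 : (some x : Option L) = pt ((x, 1) : L × L) := (pt_rep (some x)).symm
  rw [h1] at h
  have h3 : pt (R.hv (rep (some x))) = pt (rep (some x)) := h.trans h2
  have h4 : hl L d R.p (x, 1) * 1 - hl L d R.q (x, 1) * x = 0 :=
    (pt_eq_iff (hv_ne (rep_ne (some x))) (rep_ne (some x))).mp h3
  rw [hl_one d _ R.hp, hl_one d _ R.hq] at h4
  rw [map_sub, map_mul, aeval_X]
  linear_combination h4

/-- there are finitely many fixed points -/
lemma fix_finite [IsAlgClosed L] (hd : 2 ≤ d) : {z : Option L | R.act z = z}.Finite ∧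
    {z : Option L | R.act z = z}.ncard ≤ d + 2 := by
  classical
  have hne := R.fix_ne hd
  have hne' : (R.p - X * R.q).map (algebraMap K L) ≠ 0 :=
    (Polynomial.map_ne_zero_iff (algebraMap K L).injective).mpr hne
  have hsub : {z : Option L | R.act z = z} ⊆
      ((insert none (((R.p - X * R.q).map (algebraMap K L)).roots.toFinset.image some) :
        Finset (Option L)) : Set (Option L)) := by
    intro z hz
    rw [Finset.mem_coe, Finset.mem_insert, Finset.mem_image]
    rcases z with _ | x
    · exact Or.inl rfl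
    · right
      refine ⟨x, ?_, rfl⟩
      rw [Multiset.mem_toFinset, mem_roots hne', IsRoot.def, eval_map_algebraMap]
      exact R.fix_root hz
  refine ⟨(Finset.finite_toSet _).subset hsub, ?_⟩
  refine (Set.ncard_le_ncard hsub (Finset.finite_toSet _)).trans ?_
  rw [Set.ncard_coe_finset]
  refine (Finset.card_insert_le _ _).trans ?_
  have h1 : ((R.p - X * R.q).map (algebraMap K L)).roots.toFinset.card ≤ d + 1 := by
    refine (Multiset.toFinset_card_le _).trans ((card_roots' _).trans ?_)
    refine natDegree_map_le.trans ((natDegree_sub_le _ _).trans (max_le ?_ ?_))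
    · have := R.hp
      omega
    · refine natDegree_mul_le.trans ?_
      have := R.hq
      have := natDegree_X_le (R := K)
      omega
  have h2 := Finset.card_image_le (s := ((R.p - X * R.q).map (algebraMap K L)).roots.toFinset)
    (f := (some : L → Option L))
  omega

/-- the iterates -/
noncomputable def iter (R : RD K L d) : (n : ℕ) → RD K L (d ^ n)
  | 0 => (mob ((1, 0) : K × K) (0, 1) (by unfold wd; simp)).cast (pow_zero d).symm
  | n + 1 => (iter R n).comp R |>.cast (pow_succ d n).symm

lemma iter_act (n : ℕ) (z : Option L) : (R.iter n).act z = R.act^[n] z := by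
  induction n generalizing z with
  | zero =>
    show ((mob ((1, 0) : K × K) (0, 1) _).cast (pow_zero d).symm).act z = z
    rw [cast_act, mob_act]
    unfold mb
    have h : gx (vb L ((1, 0) : K × K)) (vb L ((0, 1) : K × K)) (rep z) = rep z := by
      unfold gx vb
      ext
      · simp
      · simp
    rw [h, pt_rep]
  | succ n ih =>
    show (((R.iter n).comp R).cast (pow_succ d n).symm).act z = _
    rw [cast_act, comp_act, ih, Function.iterate_succ_apply]

/-- there are finitely many points of period `n` -/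
lemma per_finite [IsAlgClosed L] (hd : 2 ≤ d) {n : ℕ} (hn : 1 ≤ n) :
    {z : Option L | R.act^[n] z = z}.Finite ∧
    {z : Option L | R.act^[n] z = z}.ncard ≤ d ^ n + 2 := by
  have h := (R.iter n).fix_finite (by
    calc 2 ≤ d := hd
      _ = d ^ 1 := (pow_one d).symm
      _ ≤ d ^ n := Nat.pow_le_pow_right (by omega) hn)
  simp_rw [iter_act] at h
  exact h

end RD

end Pool.Agent.V7H78.RP.D
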