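import Pool.Agent.V7H78.RP.D.A4
import Pool.Agent.V7H78.RP.UH.I2

/-!
# One step of the descent
-/

set_option autoImplicit false

namespace Pool.Agent.V7H78.RP.D

open Pool.Agent.V7H78.RP.UH Polynomial

variable {K L : Type*} [Field K] [Field L] [Algebra K L] {d : ℕ} (p : ℕ) [Fact p.Prime]
  [CharP K p] [CharP L p]

omit [CharP K p] in
/-- Frobenius and forms -/
lemma hl_frob (u : K[X]) (X : L × L) [ExpChar K p] :
    hl L d (u.map (frobenius K p)) (fv p 1 X) = (hl L d u X) ^ p := by
  unfold hl hev fv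
  rw [← frobenius_def (R := L) (p := p), map_sum]
  apply Finset.sum_congr rfl
  intro i _
  rw [map_mul, map_mul, map_pow, map_pow, frobenius_def, frobenius_def, frobenius_def,
    coeff_map, coeff_map, coeff_map, frobenius_def, map_pow, pow_one]

variable {p}

/-- From the coordinates to the semiconjugacy. -/
theorem semi_of_coord [IsAlgClosed L] (hd : 2 ≤ d) (R : RD K L d) (a b c e : K)
    (hdet : a * e - b * c ≠ 0) (u w : K[X]) (hne : u ≠ 0 ∨ w ≠ 0) (hu : u.natDegree ≤ d)
    (hw : w.natDegree ≤ d)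
    (hid : (C a * R.p + C b * R.q) * hc d (w.map (frobenius K p)) (C a * X + C b) (C c * X + C e) =
      (C c * R.p + C e * R.q) * hc d (u.map (frobenius K p)) (C a * X + C b) (C c * X + C e)) :
    ∃ R' : RD K L d, Semi R R' (jj p L ((e, -c) : K × K) ((-b, a) : K × K) 1) := by
  set u' := u.map (frobenius K p) with hu'
  set w' := w.map (frobenius K p) with hw'
  have hu'd : u'.natDegree ≤ d := natDegree_map_le.trans hu
  have hw'd : w'.natDegree ≤ d := natDegree_map_le.trans hw
  set Pa := C a * R.p + C b * R.q with hPa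
  set Qa := C c * R.p + C e * R.q with hQa
  have hPad : Pa.natDegree ≤ d := (natDegree_add_le _ _).trans (max_le
    ((natDegree_C_mul_le _ _).trans R.hp) ((natDegree_C_mul_le _ _).trans R.hq))
  have hQad : Qa.natDegree ≤ d := (natDegree_add_le _ _).trans (max_le
    ((natDegree_C_mul_le _ _).trans R.hp) ((natDegree_C_mul_le _ _).trans R.hq))
  set U1 : K × K := (a, c) with hU1
  set V1 : K × K := (b, e) with hV1
  have hwd : wd U1 V1 ≠ 0 := by
    have : wd U1 V1 = a * e - b * c := by
      unfold wd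
      simp only [hU1, hV1]
      ring
    rw [this]
    exact hdet
  have hPQ : ∀ X : L × L, ((hl L d Pa X, hl L d Qa X) : L × L) = gx (vb L U1) (vb L V1) (R.hv X) := by
    intro X
    rw [hPa, hQa, hl_add, hl_add, hl_C_mul, hl_C_mul, hl_C_mul, hl_C_mul]
    unfold gx vb RD.hv
    ext
    · simp only [Prod.fst_add, Prod.smul_fst, smul_eq_mul, hU1, hV1]
      ring
    · simp only [Prod.snd_add, Prod.smul_snd, smul_eq_mul, hU1, hV1]
      ring
  have hPQnv : ∀ X : L × L, X ≠ 0 → ((hl L d Pa X, hl L d Qa X) : L × L) ≠ 0 := by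
    intro X hX
    rw [hPQ]
    exact gx_ne (wd_vb_ne hwd) (R.nv X hX)
  have hPQco : IsCoprime Pa Qa := coprime_of_nv Pa Qa hPad hQad hPQnv
  have hPQlead := lead_of_nv Pa Qa hPQnv
  have hlin : ∀ X : L × L, ((hl L 1 (C a * Polynomial.X + C b) X,
      hl L 1 (C c * Polynomial.X + C e) X) : L × L) = gx (vb L U1) (vb L V1) X := by
    intro X
    have e1 : ∀ a b : K, hl L 1 (C a * Polynomial.X + C b) X =
        algebraMap K L a * X.1 + algebraMap K L b * X.2 := by
      intro a b
      unfold hl hev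
      rw [Finset.sum_range_succ, Finset.sum_range_one]
      simp
      ring
    rw [e1, e1]
    unfold gx vb
    ext
    · simp only [Prod.fst_add, Prod.smul_fst, smul_eq_mul, hU1, hV1]
      ring
    · simp only [Prod.snd_add, Prod.smul_snd, smul_eq_mul, hU1, hV1]
      ring
  set uA := hc d u' (C a * X + C b) (C c * X + C e) with huA
  set wA := hc d w' (C a * X + C b) (C c * X + C e) with hwA
  have huAd : uA.natDegree ≤ d := by
    have := hc_degree d 1 u' _ _ (lin_deg a b) (lin_deg c e)
    rwa [mul_one] at this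
  have hwAd : wA.natDegree ≤ d := by
    have := hc_degree d 1 w' _ _ (lin_deg a b) (lin_deg c e)
    rwa [mul_one] at this
  have huAe : ∀ X : L × L, hl L d uA X = hl L d u' (gx (vb L U1) (vb L V1) X) := by
    intro X
    have := hl_hc d 1 u' _ _ (lin_deg a b) (lin_deg c e) X
    rw [mul_one, hlin] at this
    exact this
  have hwAe : ∀ X : L × L, hl L d wA X = hl L d w' (gx (vb L U1) (vb L V1) X) := by
    intro X
    have := hl_hc d 1 w' _ _ (lin_deg a b) (lin_deg c e) X
    rw [mul_one, hlin] at this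
    exact this
  -- the quotient
  have hPa0 : Pa ≠ 0 := by
    intro h0
    have h1 : IsUnit Qa := by
      rw [h0] at hPQco
      exact isCoprime_zero_left.mp hPQco
    have h2 := natDegree_eq_zero_of_isUnit h1
    rcases hPQlead with h | h
    · exact h (by rw [h0, coeff_zero])
    · exact h (coeff_eq_zero_of_natDegree_lt (by omega))
  obtain ⟨s, hs⟩ : Pa ∣ uA := by
    apply hPQco.dvd_of_dvd_mul_left
    rw [← hid]
    exact dvd_mul_right _ _
  have hs2 : wA = Qa * s := by
    apply mul_left_cancel₀ hPa0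
    rw [hid, hs]
    ring
  have hs0 : s ≠ 0 := by
    rintro rfl
    rw [mul_zero] at hs hs2
    have key : ∀ r : K[X], r.natDegree ≤ d → (∀ X : L × L,
        hl L d r (gx (vb L U1) (vb L V1) X) = 0) → r = 0 := by
      intro r hr h
      have hinf : Infinite L := IsAlgClosed.instInfinite
      rw [← Polynomial.map_eq_zero (algebraMap K L)]
      apply Polynomial.eq_zero_of_infinite_isRoot
      apply Set.infinite_univ.mono
      intro x _
      show IsRoot _ x
      rw [IsRoot.def, eval_map_algebraMap, ← hl_one d r hr]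
      have h1 := h (ax (vb L U1) (vb L V1) (x, 1))
      rw [gx_ax, hl_smul] at h1
      exact (mul_eq_zero.mp h1).resolve_left (pow_ne_zero _ (wd_vb_ne hwd))
    have hu0 : u' = 0 := key u' hu'd fun X => by rw [← huAe, hs]; simp [hl, hev]
    have hw0 : w' = 0 := key w' hw'd fun X => by rw [← hwAe, hs2]; simp [hl, hev]
    rcases hne with h | h
    · exact h ((Polynomial.map_eq_zero _).mp hu0)
    · exact h ((Polynomial.map_eq_zero _).mp hw0)
  have hsd : s.natDegree = 0 := by
    rcases hPQlead with h | h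
    · have h1 : Pa.natDegree = d := le_antisymm hPad (le_natDegree_of_ne_zero h)
      have h2 : uA.natDegree = Pa.natDegree + s.natDegree := by
        rw [hs, natDegree_mul hPa0 hs0]
      omega
    · have h0 : Qa ≠ 0 := by
        rintro h0
        exact h (by rw [h0, coeff_zero])
      have h1 : Qa.natDegree = d := le_antisymm hQad (le_natDegree_of_ne_zero h)
      have h2 : wA.natDegree = Qa.natDegree + s.natDegree := by
        rw [hs2, natDegree_mul h0 hs0]
      omega
  obtain ⟨s0, hs0'⟩ := natDegree_eq_zero.mp hsd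
  have hs00 : s0 ≠ 0 := by
    rintro rfl
    apply hs0
    rw [← hs0', C_0]
  -- values
  have hval : ∀ X : L × L, ((hl L d u' (gx (vb L U1) (vb L V1) X),
      hl L d w' (gx (vb L U1) (vb L V1) X)) : L × L) =
      algebraMap K L s0 • gx (vb L U1) (vb L V1) (R.hv X) := by
    intro X
    rw [← huAe, ← hwAe, hs, hs2, ← hs0', mul_comm Pa, mul_comm Qa, hl_C_mul, hl_C_mul, ← hPQ]
    rfl
  have hs0L : algebraMap K L s0 ≠ 0 := (_root_.map_ne_zero _).mpr hs00
  have hfr : ∀ X : L × L, ((hl L d u' (fv p 1 X), hl L d w' (fv p 1 X)) : L × L) =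
      fv p 1 (hl L d u X, hl L d w X) := by
    intro X
    rw [hu', hw', hl_frob, hl_frob]
    unfold fv
    simp only [pow_one]
  have hnv' : ∀ Y : L × L, Y ≠ 0 → ((hl L d u' Y, hl L d w' Y) : L × L) ≠ 0 := by
    intro Y hY h0
    have h1 := hval (ax (vb L U1) (vb L V1) Y)
    rw [gx_ax, hl_smul, hl_smul] at h1
    have h2 : hl L d u' Y = 0 := congrArg Prod.fst h0
    have h3 : hl L d w' Y = 0 := congrArg Prod.snd h0
    rw [h2, h3, mul_zero] at h1
    have h4 := smul_ne_zero hs0L (gx_ne (wd_vb_ne hwd) (R.nv _ (ax_ne (wd_vb_ne hwd) hY)))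
    exact h4 h1.symm
  let R' : RD K L d :=
    { p := u
      q := w
      hp := hu
      hq := hw
      nv := by
        intro X hX h0
        apply hnv' (fv p 1 X) (fv_ne p hX)
        rw [hfr, h0]
        unfold fv
        ext
        · show (0 : L) ^ p ^ 1 = 0
          rw [zero_pow (pow_ne_zero _ (Fact.out : p.Prime).ne_zero)]
        · show (0 : L) ^ p ^ 1 = 0
          rw [zero_pow (pow_ne_zero _ (Fact.out : p.Prime).ne_zero)] }
  refine ⟨R', ?_⟩
  have hadj : ∀ Y : L × L, gx (vb L ((e, -c) : K × K)) (vb L ((-b, a) : K × K)) Y =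
      ax (vb L U1) (vb L V1) Y := by
    intro Y
    rw [ax_eq]
    congr 1
    · unfold vb
      simp [hU1, hV1]
    · unfold vb
      simp [hU1, hV1]
  have hwd2 : wd ((e, -c) : K × K) ((-b, a) : K × K) ≠ 0 := by
    have : wd ((e, -c) : K × K) ((-b, a) : K × K) = a * e - b * c := by
      unfold wd
      ring
    rw [this]
    exact hdet
  intro z
  rw [jj_eq, hadj]
  set Y := fv p 1 (rep z) with hY
  have hY0 : Y ≠ 0 := fv_ne p (rep_ne z)
  rw [RD.act_pt (ax_ne (wd_vb_ne hwd) hY0)]
  have hR' : R'.act z = pt (R'.hv (rep z)) := rfl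
  rw [hR', jj_pt (RD.hv_ne (rep_ne z)), hadj]
  have h1 := hval (ax (vb L U1) (vb L V1) Y)
  rw [gx_ax, hl_smul, hl_smul] at h1
  have h2 : ((wd (vb L U1) (vb L V1) ^ d * hl L d u' Y, wd (vb L U1) (vb L V1) ^ d * hl L d w' Y) :
      L × L) = wd (vb L U1) (vb L V1) ^ d • fv p 1 (R'.hv (rep z)) := by
    have h3 := hfr (rep z)
    have h4 : R'.hv (rep z) = (hl L d u (rep z), hl L d w (rep z)) := rfl
    rw [h4, ← h3]
    rfl
  rw [h2] at h1
  have h5 := congrArg (ax (vb L U1) (vb L V1)) h1
  rw [ax_smul, ax_smul, ax_gx, smul_smul] at h5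
  have h6 := congrArg pt h5
  rw [pt_smul (pow_ne_zero _ (wd_vb_ne hwd)), pt_smul (mul_ne_zero hs0L (wd_vb_ne hwd))] at h6
  exact h6.symm

end Pool.Agent.V7H78.RP.D
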