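import Pool.Agent.V7H78.RP.D.A5

/-!
# One step of the descent, on the projective line
-/

set_option autoImplicit false

namespace Pool.Agent.V7H78.RP.D

open Pool.Agent.V7H78.RP.UH Polynomial

/-- Finite stable sets with more than `B` points: most of the points have cross ratios which are
`p`-th powers. -/
def StepHyp (K : Type*) [Field K] (p d B : ℕ) : Prop :=
  ∀ (P Q : K[X]), P.natDegree ≤ d → Q.natDegree = d → IsCoprime P Q → ∀ S : Finset K,
    (∀ z ∈ S, Q.eval z ≠ 0 ∧ P.eval z / Q.eval z ∈ S) → B < S.card →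
    ∃ T ⊆ S, (d + 1) * S.card + (3 * d + 4) ≤ S.card + (d + 1) * T.card ∧
      ∀ x0 ∈ T, ∀ x1 ∈ T, ∀ x2 ∈ T, ∀ x ∈ T, x0 ≠ x1 → x0 ≠ x2 → x1 ≠ x2 → x ≠ x2 → x ≠ x0 →
        ∃ y : K, y ^ p = ((x - x0) * (x1 - x2)) / ((x - x2) * (x1 - x0))

variable {K L : Type*} [Field K] [Field L] [Algebra K L] {d : ℕ}

/-- polynomials over the field of `p`-th powers -/
lemma exists_root_poly (p : ℕ) [Fact p.Prime] [CharP K p] (k1 : Subfield K)
    (h : ∀ x ∈ k1, ∃ y : K, y ^ p = x) (u : Polynomial k1) :
    ∃ u1 : K[X], u1.map (frobenius K p) = u.map (algebraMap k1 K) ∧ u1.natDegree ≤ u.natDegree := by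
  choose! r hr using h
  refine ⟨∑ i ∈ Finset.range (u.natDegree + 1), monomial i (r (u.coeff i)), ?_, ?_⟩
  · ext n
    rw [coeff_map, coeff_map, finsetSum_coeff]
    by_cases hn : n < u.natDegree + 1
    · rw [Finset.sum_eq_single n]
      · rw [coeff_monomial, if_pos rfl, frobenius_def]
        exact hr _ (u.coeff n).2
      · intro i _ hi
        rw [coeff_monomial, if_neg hi]
      · intro h
        exact absurd (Finset.mem_range.mpr hn) h
    · rw [Finset.sum_eq_zero, map_zero]
      · rw [coeff_eq_zero_of_natDegree_lt (by omega), map_zero]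
      · intro i hi
        rw [Finset.mem_range] at hi
        rw [coeff_monomial, if_neg (by omega)]
  · apply natDegree_sum_le_of_forall_le
    intro i hi
    rw [Finset.mem_range] at hi
    exact (natDegree_monomial_le _).trans (by omega)

/-- **One step of the descent.** -/
theorem step (p : ℕ) [Fact p.Prime] [CharP K p] [CharP L p] [IsAlgClosed L] [Infinite K]
    (hd : 2 ≤ d) {B : ℕ} (hB : StepHyp K p d B)
    (R : RD K L d) (P : Finset (Option L))
    (hPK : ∀ z ∈ P, z ∈ Set.range (eb L : Option K → Option L)) (hst : ∀ z ∈ P, R.act z ∈ P)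
    (hc : B < P.card) :
    ∃ U V : K × K, wd U V ≠ 0 ∧ ∃ R' : RD K L d, Semi R R' (jj p L U V 1) ∧
      ∃ T ⊆ P, (∀ z ∈ T, ∃ y : Option K, jj p L U V 1 (eb L y) = z) ∧
        (d + 1) * P.card ≤ P.card + (d + 1) * T.card := by
  classical
  -- a good point at infinity
  have hfin : {x : K | eb L (some x) ∈ P ∨ R.act (eb L (some x)) = eb L (some x)}.Finite := by
    have h1 : ((P : Set (Option L)) ∪ {z : Option L | R.act z = z}).Finite :=
      (Finset.finite_toSet _).union (R.fix_finite hd).1
    have h2 : Function.Injective fun x : K => eb L (some x) := by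
      intro x y hxy
      exact Option.some_injective _ (eb_inj hxy)
    refine (h1.preimage h2.injOn).subset ?_
    intro x hx
    exact hx
  obtain ⟨c, hcc⟩ := hfin.exists_notMem
  simp only [Set.mem_setOf_eq, not_or] at hcc
  obtain ⟨hc1, hc2⟩ := hcc
  set U : K × K := (c, 1) with hU
  set V : K × K := (1, 0) with hV
  have hwd : wd U V ≠ 0 := by
    unfold wd
    simp [hU, hV]
  set G := mb (vb L U) (vb L V) with hG
  have hG0 : G none = eb L (some c) := by
    show pt (gx (vb L U) (vb L V) (1, 0)) = _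
    have h1 : gx (vb L U) (vb L V) (1, 0) = vb L U := by
      unfold gx
      ext <;> simp
    rw [h1, pt_vb]
    have h2 : pt U = some c := by
      rw [pt_of_ne (one_ne_zero : U.2 ≠ 0)]
      show some (c / 1) = _
      rw [div_one]
    rw [h2]
  have hGi : ∀ z, mi (vb L U) (vb L V) (G z) = z := mi_mb (wd_vb_ne hwd)
  have hGj : ∀ z, G (mi (vb L U) (vb L V) z) = z := mb_mi (wd_vb_ne hwd)
  set R1 := R.conj U V hwd with hR1
  have hR1a : ∀ z, R1.act z = mi (vb L U) (vb L V) (R.act (G z)) := fun z => RD.conj_act R U V hwd z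
  have hq1 : R1.q.coeff d ≠ 0 := by
    intro h0
    have h1 : R1.act none = none := by
      show pt (R1.hv (1, 0)) = none
      apply pt_zero
      show hl L d R1.q (1, 0) = 0
      rw [hl_zero, h0, map_zero, zero_mul]
    rw [hR1a, hG0] at h1
    have h2 := hGj (R.act (eb L (some c)))
    rw [h1, hG0] at h2
    exact hc2 h2.symm
  have hq1d : R1.q.natDegree = d := le_antisymm R1.hq (le_natDegree_of_ne_zero hq1)
  -- the points in the new coordinate
  have hex : ∀ z ∈ P, ∃ y : K, G (some (algebraMap K L y)) = z := by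
    intro z hz
    obtain ⟨w, hw⟩ := hPK z hz
    have h1 : mi (vb L U) (vb L V) z = eb L (mi U V w) := by
      rw [← hw]
      unfold mi
      rw [rep_eb, ← vb_ax, pt_vb]
    have h2 := hGj z
    rw [h1] at h2
    rcases hm : mi U V w with _ | y
    · exfalso
      rw [hm] at h2
      apply hc1
      rw [← hG0]
      have h3 : (eb L (none : Option K)) = none := rfl
      rw [h3] at h2
      rw [h2]
      exact hz
    · refine ⟨y, ?_⟩
      rw [hm] at h2
      exact h2
  choose! y hy using hex
  set S : Finset K := P.image y with hS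
  have hyinj : Set.InjOn y (P : Set (Option L)) := by
    intro z hz z' hz' h
    rw [← hy z hz, ← hy z' hz', h]
  have hScard : S.card = P.card := Finset.card_image_of_injOn hyinj
  have hact1 : ∀ z ∈ P, R1.act (some (algebraMap K L (y z))) =
      some (algebraMap K L (y (R.act z))) := by
    intro z hz
    rw [hR1a, hy z hz]
    rw [← hy (R.act z) (hst z hz), hGi, hy (R.act z) (hst z hz)]
  have hSst : ∀ x ∈ S, R1.q.eval x ≠ 0 ∧ R1.p.eval x / R1.q.eval x ∈ S := by
    intro x hx
    obtain ⟨z, hz, rfl⟩ := Finset.mem_image.mp hx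
    have h1 := hact1 z hz
    have h2 : R1.act (some (algebraMap K L (y z))) =
        eb L (pt (hev d R1.p (y z, 1), hev d R1.q (y z, 1))) := RD.act_eb (some (y z))
    rw [hev_one d _ R1.hp, hev_one d _ R1.hq] at h2
    rw [h2] at h1
    have h3 : pt (R1.p.eval (y z), R1.q.eval (y z)) = some (y (R.act z)) := eb_inj h1
    by_cases h4 : R1.q.eval (y z) = 0
    · rw [pt_zero h4] at h3
      exact absurd h3 (by simp)
    · refine ⟨h4, ?_⟩
      rw [pt_of_ne h4] at h3
      have h5 := Option.some_injective _ h3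
      simp only at h5
      rw [h5]
      exact Finset.mem_image_of_mem _ (hst z hz)
  obtain ⟨T, hTS, hTc, hTcr⟩ := hB R1.p R1.q R1.hp hq1d R1.coprime S hSst (by rw [hScard]; exact hc)
  -- the coordinates
  let k1 : Subfield K := (frobenius K p).fieldRange
  have hk1 : ∀ x ∈ k1, ∃ y : K, y ^ p = x := by
    rintro x ⟨y, hy⟩
    exact ⟨y, hy⟩
  have hcard : (d + 1) * (S \ T).card + (3 * d + 4) ≤ S.card := by
    have h1 := Finset.card_sdiff_of_subset hTS
    have h2 := Finset.card_le_card hTS
    have h3 : (d + 1) * (S \ T).card + (d + 1) * T.card = (d + 1) * S.card := by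
      rw [← mul_add]
      congr 1
      omega
    omega
  obtain ⟨x0, hx0, x1, hx1, x2, hx2, h01, h02, h12, hdet, u, w, hne, hu, hw, hid⟩ :=
    conj_of_cross' (k := k1) R1.p R1.q d R1.hp hq1d hd R1.coprime S hSst T hTS (by
      intro x0 hx0 x1 hx1 x2 hx2 x hx h01 h02 h12 hx2' hx0'
      obtain ⟨t, ht⟩ := hTcr x0 hx0 x1 hx1 x2 hx2 x hx h01 h02 h12 hx2' hx0'
      refine ⟨⟨t ^ p, ⟨t, rfl⟩⟩, ?_⟩
      exact ht) hcard
  obtain ⟨u1, hu1, hu1d⟩ := exists_root_poly p k1 hk1 u
  obtain ⟨w1, hw1, hw1d⟩ := exists_root_poly p k1 hk1 w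
  have hne1 : u1 ≠ 0 ∨ w1 ≠ 0 := by
    rcases hne with h | h
    · left
      rintro rfl
      rw [Polynomial.map_zero] at hu1
      exact h ((Polynomial.map_eq_zero _).mp hu1.symm)
    · right
      rintro rfl
      rw [Polynomial.map_zero] at hw1
      exact h ((Polynomial.map_eq_zero _).mp hw1.symm)
  rw [← hu1, ← hw1] at hid
  obtain ⟨R', hR'⟩ := semi_of_coord (p := p) hd R1 _ _ _ _ hdet u1 w1 hne1 (hu1d.trans hu)
    (hw1d.trans hw) hid
  set a := x1 - x2 with ha
  set b := -(x0 * (x1 - x2)) with hb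
  set cc := x1 - x0 with hcc
  set e := -(x2 * (x1 - x0)) with he
  set U2 : K × K := (e, -cc) with hU2
  set V2 : K × K := (-b, a) with hV2
  have hwd2 : wd U2 V2 ≠ 0 := by
    have : wd U2 V2 = a * e - b * cc := by
      unfold wd
      simp only [hU2, hV2]
      ring
    rw [this]
    exact hdet
  have hjj : ∀ z, G (jj p L U2 V2 1 z) =
      jj p L (gx U V (fv p 0 U2)) (gx U V (fv p 0 V2)) 1 z := by
    intro z
    have h1 := jj_jj (p := p) (L := L) (U := U) (V := V) (M := 0) (N := 1) hwd2 z
    rw [zero_add] at h1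
    rw [← h1]
    unfold jj
    rw [fz_zero]
  refine ⟨gx U V (fv p 0 U2), gx U V (fv p 0 V2), wd_comp (M := 0) hwd hwd2, R', ?_,
    P.filter (fun z => y z ∈ T), Finset.filter_subset _ _, ?_, ?_⟩
  · intro z
    rw [← hjj, ← hjj, hG, RD.conj_semi R U V hwd, ← hR1, hR' z]
  · intro z hz
    rw [Finset.mem_filter] at hz
    obtain ⟨hzP, hzT⟩ := hz
    have hdet' : a * e - b * cc ≠ 0 := hdet
    -- the point is in the image
    suffices hmain : ∃ t : Option K, jj p L U2 V2 1 (eb L t) = some (algebraMap K L (y z)) by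
      obtain ⟨t, ht⟩ := hmain
      exact ⟨t, by rw [← hjj, ht, hy z hzP]⟩
    have hpt : ∀ t : K × K, t ≠ 0 → wd (gx U2 V2 (fv p 1 t)) (y z, 1) = 0 →
        ∃ t : Option K, jj p L U2 V2 1 (eb L t) = some (algebraMap K L (y z)) := by
      intro t ht h
      refine ⟨pt t, ?_⟩
      rw [← pt_vb, jj_pt (vb_ne ht), ← vb_fv, ← vb_gx, pt_vb]
      have h1 : pt (gx U2 V2 (fv p 1 t)) = pt ((y z, 1) : K × K) :=
        (pt_eq_iff (gx_ne hwd2 (fv_ne p ht)) (rep_ne (some (y z)))).mpr h
      rw [h1]
      have h2 : pt ((y z, 1) : K × K) = some (y z) := pt_rep (some (y z))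
      rw [h2]
      rfl
    have hform : ∀ t : K × K, wd (gx U2 V2 (fv p 1 t)) (y z, 1) =
        t.1 ^ p * (cc * y z + e) - t.2 ^ p * (a * y z + b) := by
      intro t
      unfold wd gx fv
      simp only [Prod.fst_add, Prod.smul_fst, Prod.snd_add, Prod.smul_snd, smul_eq_mul, hU2, hV2,
        pow_one]
      ring
    by_cases hx2' : y z = x2
    · apply hpt (1, 0) (by
        intro h
        exact one_ne_zero (congrArg Prod.fst h))
      rw [hform, hx2']
      simp only
      rw [zero_pow (Fact.out : p.Prime).ne_zero, he, hcc]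
      ring
    · by_cases hx0' : y z = x0
      · apply hpt (0, 1) (by
          intro h
          exact one_ne_zero (congrArg Prod.snd h))
        rw [hform, hx0']
        simp only
        rw [zero_pow (Fact.out : p.Prime).ne_zero, ha, hb]
        ring
      · obtain ⟨t, ht⟩ := hTcr x0 hx0 x1 hx1 x2 hx2 (y z) hzT h01 h02 h12 hx2' hx0'
        apply hpt (t, 1) (by
          intro h
          exact one_ne_zero (congrArg Prod.snd h))
        rw [hform]
        simp only
        rw [ht, one_pow]
        have h1 : y z - x2 ≠ 0 := sub_ne_zero.mpr hx2'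
        have h2 : x1 - x0 ≠ 0 := sub_ne_zero.mpr h01.symm
        rw [ha, hb, hcc, he]
        field_simp
        ring
  · have h1 : (P.filter fun z => y z ∈ T).card = T.card := by
      have h2 : (P.filter fun z => y z ∈ T).image y = T := by
        ext x
        rw [Finset.mem_image]
        constructor
        · rintro ⟨z, hz, rfl⟩
          exact (Finset.mem_filter.mp hz).2
        · intro hx
          obtain ⟨z, hz, rfl⟩ := Finset.mem_image.mp (hTS hx)
          exact ⟨z, Finset.mem_filter.mpr ⟨hz, hx⟩, rfl⟩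
      have h3 : ((P.filter fun z => y z ∈ T).image y).card = (P.filter fun z => y z ∈ T).card := by
        apply Finset.card_image_of_injOn
        intro z hz z' hz' h
        exact hyinj (Finset.mem_filter.mp hz).1 (Finset.mem_filter.mp hz').1 h
      rw [h2] at h3
      exact h3.symm
    rw [h1]
    rw [hScard] at hTc
    omega

end Pool.Agent.V7H78.RP.D
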