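import Pool.Agent.V7H78.RP.D.A6

/-!
# Steps at all levels
-/

set_option autoImplicit false

namespace Pool.Agent.V7H78.RP.D

open Pool.Agent.V7H78.RP.UH Polynomial

variable {K L : Type*} [Field K] [Field L] [Algebra K L] {d : ℕ}

open Classical in
/-- the points of `P` in the image of the points over `K` under `j` -/
noncomputable def im (K : Type*) {L : Type*} [Field K] [Field L] [Algebra K L]
    (j : Option L → Option L) (P : Finset (Option L)) : Finset (Option L) :=
  P.filter fun z => ∃ y : Option K, j (eb L y) = z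

open Classical in
lemma mem_im {j : Option L → Option L} {P : Finset (Option L)} {z : Option L} :
    z ∈ im K j P ↔ z ∈ P ∧ ∃ y : Option K, j (eb L y) = z := by
  unfold im
  exact Finset.mem_filter

lemma im_subset (j : Option L → Option L) (P : Finset (Option L)) : im K j P ⊆ P := fun _ hz =>
  (mem_im.mp hz).1

/-- a structure of level `N`: a semiconjugacy from a rational map over `K` -/
structure Lv (p : ℕ) (R : RD K L d) (N : ℕ) where
  /-- first column -/
  U : K × K
  /-- second column -/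
  V : K × K
  hw : wd U V ≠ 0
  /-- the rational map upstairs -/
  S : RD K L d
  semi : Semi R S (jj p L U V N)

namespace Lv

variable {p : ℕ} {R : RD K L d} {N : ℕ}

/-- the semiconjugacy -/
noncomputable def j (s : Lv p R N) : Option L → Option L := jj p L s.U s.V N

/-- the trivial structure -/
def triv (p : ℕ) (R : RD K L d) : Lv p R 0 where
  U := (1, 0)
  V := (0, 1)
  hw := by
    unfold wd
    simp
  S := R
  semi := by
    intro z
    rw [jj_id, jj_id]

lemma triv_j (z : Option L) : (triv p R).j z = z := jj_id z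

variable [Fact p.Prime] [CharP K p] [CharP L p]

/-- composition of structures -/
noncomputable def comp {M : ℕ} (s : Lv p R N) (t : Lv p s.S M) : Lv p R (N + M) where
  U := gx s.U s.V (fv p N t.U)
  V := gx s.U s.V (fv p N t.V)
  hw := wd_comp s.hw t.hw
  S := t.S
  semi := by
    intro z
    rw [← jj_jj t.hw, ← jj_jj t.hw, s.semi, t.semi]

lemma comp_j {M : ℕ} (s : Lv p R N) (t : Lv p s.S M) (z : Option L) :
    (s.comp t).j z = s.j (t.j z) := by
  unfold j comp
  simp only
  rw [← jj_jj t.hw]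

omit [CharP K p] in
lemma j_inj (s : Lv p R N) : Function.Injective s.j := jj_inj s.hw

omit [CharP K p] [CharP L p] in
lemma j_surj [IsAlgClosed L] (s : Lv p R N) : Function.Surjective s.j := jj_surj s.hw

omit [Fact p.Prime] [CharP K p] [CharP L p] in
lemma act_j (s : Lv p R N) (z : Option L) : R.act (s.j z) = s.j (s.S.act z) := s.semi z

omit [Fact p.Prime] [CharP K p] [CharP L p] in
/-- the image is stable -/
lemma im_stable (s : Lv p R N) {P : Finset (Option L)} (hst : ∀ z ∈ P, R.act z ∈ P) :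
    ∀ z ∈ im K s.j P, R.act z ∈ im K s.j P := by
  intro z hz
  obtain ⟨hzP, y, hy⟩ := mem_im.mp hz
  refine mem_im.mpr ⟨hst z hzP, ?_⟩
  obtain ⟨w, hw⟩ := RD.act_mem (R := s.S) (z := eb L y) ⟨y, rfl⟩
  refine ⟨w, ?_⟩
  rw [hw, ← act_j, hy]

lemma im_comp {M : ℕ} (s : Lv p R N) (t : Lv p s.S M) (P : Finset (Option L)) :
    im K (s.comp t).j P ⊆ im K s.j P := by
  intro z hz
  obtain ⟨hzP, y, hy⟩ := mem_im.mp hz
  refine mem_im.mpr ⟨hzP, ?_⟩
  rw [comp_j] at hy
  obtain ⟨w, hw⟩ : t.j (eb L y) ∈ Set.range (eb L : Option K → Option L) := jj_mem ⟨y, rfl⟩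
  exact ⟨w, by rw [hw]; exact hy⟩

/-- **One step at level `N`.** -/
theorem next [IsAlgClosed L] [Infinite K] (hd : 2 ≤ d) {B : ℕ} (hB : StepHyp K p d B)
    (s : Lv p R N) (P : Finset (Option L)) (hst : ∀ z ∈ P, R.act z ∈ P)
    (hc : B < (im K s.j P).card) :
    ∃ t : Lv p s.S 1, (d + 1) * (im K s.j P).card ≤
      (im K s.j P).card + (d + 1) * (im K (s.comp t).j P).card := by
  classical
  have hstI := s.im_stable hst
  have hex : ∀ z ∈ im K s.j P, ∃ y : Option K, s.j (eb L y) = z := fun z hz => (mem_im.mp hz).2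
  choose! y hy using hex
  set P' : Finset (Option L) := (im K s.j P).image fun z => eb L (y z) with hP'
  have hinj : Set.InjOn (fun z => eb L (y z)) (im K s.j P : Set (Option L)) := by
    intro z hz z' hz' h
    have h1 : eb L (y z) = eb L (y z') := h
    rw [← hy z hz, ← hy z' hz', h1]
  have hcard : P'.card = (im K s.j P).card := Finset.card_image_of_injOn hinj
  have hP'K : ∀ z ∈ P', z ∈ Set.range (eb L : Option K → Option L) := by
    intro z hz
    obtain ⟨w, _, rfl⟩ := Finset.mem_image.mp hz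
    exact ⟨_, rfl⟩
  have hP'st : ∀ z ∈ P', s.S.act z ∈ P' := by
    intro z hz
    obtain ⟨w, hw, rfl⟩ := Finset.mem_image.mp hz
    refine Finset.mem_image.mpr ⟨R.act w, hstI w hw, ?_⟩
    apply s.j_inj
    have h1 : s.j (eb L (y (R.act w))) = R.act w := hy _ (hstI w hw)
    show s.j (eb L (y (R.act w))) = s.j (s.S.act (eb L (y w)))
    rw [h1, ← act_j, hy w hw]
  obtain ⟨U, V, hwd, S', hsemi, T, hTP, hTim, hTc⟩ := step (L := L) p hd hB s.S P' hP'K hP'st
    (by rw [hcard]; exact hc)
  refine ⟨⟨U, V, hwd, S', hsemi⟩, ?_⟩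
  rw [hcard] at hTc
  refine hTc.trans ?_
  apply Nat.add_le_add_left
  apply Nat.mul_le_mul_left
  have hsub : T.image s.j ⊆ im K (s.comp ⟨U, V, hwd, S', hsemi⟩).j P := by
    intro z hz
    obtain ⟨w, hw, rfl⟩ := Finset.mem_image.mp hz
    obtain ⟨v, hv, rfl⟩ := Finset.mem_image.mp (hTP hw)
    refine mem_im.mpr ⟨?_, ?_⟩
    · show s.j (eb L (y v)) ∈ P
      rw [hy v hv]
      exact im_subset _ _ hv
    · obtain ⟨t, ht⟩ := hTim _ hw
      refine ⟨t, ?_⟩
      rw [comp_j]
      exact congrArg s.j ht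
  have h2 := Finset.card_le_card hsub
  rw [Finset.card_image_of_injective _ s.j_inj] at h2
  exact h2

end Lv

end Pool.Agent.V7H78.RP.D
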