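import Pool.Agent.V7H78.RP.D.A7

/-!
# Deep structures coincide near the top
-/

set_option autoImplicit false

namespace Pool.Agent.V7H78.RP.D

open Pool.Agent.V7H78.RP.UH Polynomial

section linalg

variable {S L : Type*} [Field S] [Field L] [Algebra S L] (p : ℕ) [Fact p.Prime] [CharP S p]
  [CharP L p]

lemma gx_add {F : Type*} [Field F] (U V X Y : F × F) : gx U V (X + Y) = gx U V X + gx U V Y := by
  unfold gx
  ext
  · simp only [Prod.fst_add, Prod.smul_fst, Prod.snd_add, smul_eq_mul]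
    ring
  · simp only [Prod.fst_add, Prod.smul_snd, Prod.snd_add, smul_eq_mul]
    ring

omit [CharP S p] [CharP L p] in
lemma rep_fz_eb (M : ℕ) (t : Option S) : rep (fz p M (eb L t)) = vb L (fv p M (rep t)) := by
  rw [rep_fz, rep_eb, vb_fv]

/-- A Moebius map sending three points over `S` to three points over `S` is defined over `S`,
together with Frobenius powers. -/
theorem three_points (Γ1 Γ2 : L × L) (hΓ : wd Γ1 Γ2 ≠ 0) (M : ℕ) (s0 s1 s2 t0 t1 t2 : Option S)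
    (h01 : t0 ≠ t1) (h02 : t0 ≠ t2) (h12 : t1 ≠ t2)
    (e0 : mb Γ1 Γ2 (fz p M (eb L t0)) = fz p M (eb L s0))
    (e1 : mb Γ1 Γ2 (fz p M (eb L t1)) = fz p M (eb L s1))
    (e2 : mb Γ1 Γ2 (fz p M (eb L t2)) = fz p M (eb L s2)) :
    ∃ (lam : L) (G1 G2 : S × S), lam ≠ 0 ∧ Γ1 = lam • vb L (fv p M G1) ∧
      Γ2 = lam • vb L (fv p M G2) := by
  have hlam : ∀ s t : Option S, mb Γ1 Γ2 (fz p M (eb L t)) = fz p M (eb L s) →
      ∃ l : L, l ≠ 0 ∧ gx Γ1 Γ2 (vb L (fv p M (rep t))) = l • vb L (fv p M (rep s)) := by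
    intro s t h
    have h1 : pt (gx Γ1 Γ2 (vb L (fv p M (rep t)))) = pt (vb L (fv p M (rep s))) := by
      rw [← rep_fz_eb, ← rep_fz_eb, pt_rep]
      exact h
    have hn1 : gx Γ1 Γ2 (vb L (fv p M (rep t))) ≠ 0 := gx_ne hΓ (vb_ne (fv_ne p (rep_ne t)))
    have hn2 : vb L (fv p M (rep s)) ≠ 0 := vb_ne (fv_ne p (rep_ne s))
    obtain ⟨l, hl⟩ := (wd_zero_iff hn2).mp ((pt_eq_iff hn1 hn2).mp h1)
    refine ⟨l, ?_, hl⟩
    rintro rfl
    rw [zero_smul] at hl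
    exact hn1 hl
  obtain ⟨l0, hl0, g0⟩ := hlam s0 t0 e0
  obtain ⟨l1, hl1, g1⟩ := hlam s1 t1 e1
  obtain ⟨l2, hl2, g2⟩ := hlam s2 t2 e2
  have hdist : ∀ s s' t t' : Option S, mb Γ1 Γ2 (fz p M (eb L t)) = fz p M (eb L s) →
      mb Γ1 Γ2 (fz p M (eb L t')) = fz p M (eb L s') → t ≠ t' → s ≠ s' := by
    intro s s' t t' h h' hne hss
    apply hne
    rw [hss, ← h'] at h
    have h1 := congrArg (mi Γ1 Γ2) h
    rw [mi_mb hΓ, mi_mb hΓ] at h1
    exact eb_inj (fz_inj p M h1)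
  have f01 := hdist _ _ _ _ e0 e1 h01
  have f02 := hdist _ _ _ _ e0 e2 h02
  have f12 := hdist _ _ _ _ e1 e2 h12
  have hwdne : ∀ s t : Option S, s ≠ t → wd (rep s) (rep t) ≠ 0 := by
    intro s t hst h
    apply hst
    have := (pt_eq_iff (rep_ne s) (rep_ne t)).mpr h
    rwa [pt_rep, pt_rep] at this
  obtain ⟨X0, hX0⟩ : ∃ X, X = rep s0 := ⟨_, rfl⟩
  obtain ⟨X1, hX1⟩ : ∃ X, X = rep s1 := ⟨_, rfl⟩
  obtain ⟨X2, hX2⟩ : ∃ X, X = rep s2 := ⟨_, rfl⟩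
  obtain ⟨Y0, hY0⟩ : ∃ X, X = rep t0 := ⟨_, rfl⟩
  obtain ⟨Y1, hY1⟩ : ∃ X, X = rep t1 := ⟨_, rfl⟩
  obtain ⟨Y2, hY2⟩ : ∃ X, X = rep t2 := ⟨_, rfl⟩
  have x10 : wd X1 X0 ≠ 0 := by rw [hX1, hX0]; exact hwdne _ _ f01.symm
  have x01 : wd X0 X1 ≠ 0 := by rw [hX1, hX0]; exact hwdne _ _ f01
  have y01 : wd Y0 Y1 ≠ 0 := by rw [hY1, hY0]; exact hwdne _ _ h01
  have y02 : wd Y0 Y2 ≠ 0 := by rw [hY2, hY0]; exact hwdne _ _ h02
  have y21 : wd Y2 Y1 ≠ 0 := by rw [hY1, hY2]; exact hwdne _ _ h12.symm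
  rw [← hX0, ← hY0] at g0
  rw [← hX1, ← hY1] at g1
  rw [← hX2, ← hY2] at g2
  have hwf : ∀ A B : S × S, wd (vb L (fv p M A)) (vb L (fv p M B)) =
      algebraMap S L (wd A B) ^ p ^ M := by
    intro A B
    rw [wd_vb, wd_fv, map_pow]
  set φ := algebraMap S L with hφ
  have hφn : ∀ a : S, a ≠ 0 → φ a ^ p ^ M ≠ 0 := fun a ha =>
    pow_ne_zero _ ((_root_.map_ne_zero φ).mpr ha)
  have hthree : ∀ A B Z : L × L, wd A B • Z = wd A Z • B + wd Z B • A := by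
    intro A B Z
    rw [wd_three, wd_comm Z B]
    module
  -- the relation
  have hrel := congrArg (gx Γ1 Γ2) (hthree (vb L (fv p M Y0)) (vb L (fv p M Y1))
    (vb L (fv p M Y2)))
  rw [gx_add, gx_smul, gx_smul, gx_smul, g0, g1, g2, hwf, hwf, hwf] at hrel
  have hE1 := congrArg (fun Z => wd Z (vb L (fv p M X0))) hrel
  have hE0 := congrArg (fun Z => wd Z (vb L (fv p M X1))) hrel
  simp only [wd_add_left, wd_smul_left, hwf] at hE1 hE0
  have hwself : ∀ A : S × S, wd A A = 0 := fun A => wd_self A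
  have hp0 : (0 : L) ^ p ^ M = 0 := zero_pow (pow_ne_zero _ (Fact.out : p.Prime).ne_zero)
  rw [hwself, map_zero, hp0, mul_zero, mul_zero, add_zero] at hE1
  rw [hwself, map_zero, hp0, mul_zero, mul_zero, zero_add] at hE0
  have hν1 : l1 = l2 * φ (wd Y0 Y1 * wd X2 X0 / (wd Y0 Y2 * wd X1 X0)) ^ p ^ M := by
    rw [map_div₀, map_mul, map_mul, div_pow, mul_pow, mul_pow]
    have h1 := hφn _ y02
    have h2 := hφn _ x10
    field_simp
    linear_combination -hE1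
  have hν0 : l0 = l2 * φ (wd Y0 Y1 * wd X2 X1 / (wd Y2 Y1 * wd X0 X1)) ^ p ^ M := by
    rw [map_div₀, map_mul, map_mul, div_pow, mul_pow, mul_pow]
    have h1 := hφn _ y21
    have h2 := hφn _ x01
    field_simp
    linear_combination -hE0
  set ν1 := wd Y0 Y1 * wd X2 X0 / (wd Y0 Y2 * wd X1 X0) with hν1'
  set ν0 := wd Y0 Y1 * wd X2 X1 / (wd Y2 Y1 * wd X0 X1) with hν0'
  -- the columns
  have hcol : ∀ E : S × S, ∃ G : S × S, gx Γ1 Γ2 (vb L (fv p M E)) = l2 • vb L (fv p M G) := by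
    intro E
    refine ⟨(wd Y0 Y1)⁻¹ • gx X1 X0 (wd Y0 E * ν1, wd E Y1 * ν0), ?_⟩
    have h1 := congrArg (gx Γ1 Γ2) (hthree (vb L (fv p M Y0)) (vb L (fv p M Y1))
      (vb L (fv p M E)))
    rw [gx_add, gx_smul, gx_smul, gx_smul, g0, g1, hwf, hwf, hwf, hν1, hν0] at h1
    rw [fv_smul, fv_gx, vb_smul, vb_gx]
    have h2 : vb L (fv p M ((wd Y0 E * ν1, wd E Y1 * ν0) : S × S)) =
        (φ (wd Y0 E) ^ p ^ M * φ ν1 ^ p ^ M, φ (wd E Y1) ^ p ^ M * φ ν0 ^ p ^ M) := by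
      unfold vb fv
      ext
      · simp only [map_pow, map_mul]
        rw [mul_pow]
      · simp only [map_pow, map_mul]
        rw [mul_pow]
    rw [h2]
    have h3 := hφn _ y01
    have h4 : algebraMap S L ((wd Y0 Y1)⁻¹ ^ p ^ M) = (φ (wd Y0 Y1) ^ p ^ M)⁻¹ := by
      rw [map_pow, map_inv₀, inv_pow]
    rw [h4]
    have h5 : (φ (wd Y0 Y1) ^ p ^ M) • gx Γ1 Γ2 (vb L (fv p M E)) = (φ (wd Y0 Y1) ^ p ^ M) •
        (l2 • (φ (wd Y0 Y1) ^ p ^ M)⁻¹ • gx (vb L (fv p M X1)) (vb L (fv p M X0))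
          (φ (wd Y0 E) ^ p ^ M * φ ν1 ^ p ^ M, φ (wd E Y1) ^ p ^ M * φ ν0 ^ p ^ M)) := by
      rw [h1, smul_comm l2, smul_smul (φ (wd Y0 Y1) ^ p ^ M), mul_inv_cancel₀ h3, one_smul]
      unfold gx
      simp only
      rw [smul_add, smul_smul, smul_smul, smul_smul, smul_smul]
      congr 1
      · congr 1
        ring
      · congr 1
        ring
    have h6 := congrArg (fun Z => (φ (wd Y0 Y1) ^ p ^ M)⁻¹ • Z) h5
    simp only [smul_smul, inv_mul_cancel₀ h3, one_smul] at h6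
    rw [h6, smul_smul]
    congr 1
    field_simp
  obtain ⟨G1, hG1⟩ := hcol (1, 0)
  obtain ⟨G2, hG2⟩ := hcol (0, 1)
  refine ⟨l2, G1, G2, hl2, ?_, ?_⟩
  · rw [← hG1]
    have : vb L (fv p M ((1, 0) : S × S)) = (1, 0) := by
      unfold vb fv
      ext
      · simp
      · simp [(Fact.out : p.Prime).ne_zero]
    rw [this]
    unfold gx
    ext <;> simp
  · rw [← hG2]
    have : vb L (fv p M ((0, 1) : S × S)) = (0, 1) := by
      unfold vb fv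
      ext
      · simp [(Fact.out : p.Prime).ne_zero]
      · simp
    rw [this]
    unfold gx
    ext <;> simp

end linalg

end Pool.Agent.V7H78.RP.D
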