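import Pool.Agent.V7H78.RP.D.A8

/-!
# Points of small degree and the separable closure
-/

set_option autoImplicit false

namespace Pool.Agent.V7H78.RP.D

open Pool.Agent.V7H78.RP.UH Polynomial

variable {K L : Type*} [Field K] [Field L] [Algebra K L] {d : ℕ} (p : ℕ) [Fact p.Prime]
  [CharP K p] [CharP L p]

omit [CharP L p] in
/-- an element which is separable and purely inseparable -/
lemma mem_of_pow {s : L} (hs : s ∈ separableClosure K L) {M : ℕ} {a : K}
    (h : s ^ p ^ M = algebraMap K L a) : ∃ b : K, algebraMap K L b = s := by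
  have h1 : s ∈ perfectClosure K L := (mem_perfectClosure_iff_pow_mem p).mpr ⟨M, ⟨a, h.symm⟩⟩
  have h2 : s ∈ separableClosure K L ⊓ perfectClosure K L := ⟨hs, h1⟩
  rw [separableClosure_inf_perfectClosure] at h2
  exact IntermediateField.mem_bot.mp h2

/-- a root of a polynomial of degree `m` over the separable closure -/
lemma pow_mem_sep {x : L} {m : ℕ} (r : Polynomial (separableClosure K L)) (hr : r ≠ 0)
    (hd : r.natDegree ≤ m) (hx : aeval x r = 0) : x ^ p ^ m ∈ separableClosure K L := by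
  have hint : IsIntegral (separableClosure K L) x := isAlgebraic_iff_isIntegral.mp ⟨r, hr, hx⟩
  have : CharP (separableClosure K L) p := charP_of_injective_algebraMap
    (algebraMap K (separableClosure K L)).injective p
  obtain ⟨n, g, hg, hge⟩ := exists_separable_of_irreducible p (minpoly.irreducible hint)
    (Fact.out : p.Prime).ne_zero
  have hdeg : p ^ n ≤ m := by
    have h1 : (minpoly (separableClosure K L) x).natDegree ≤ r.natDegree :=
      natDegree_le_of_dvd (minpoly.dvd _ _ hx) hr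
    have h2 : (minpoly (separableClosure K L) x).natDegree = g.natDegree * p ^ n := by
      rw [← hge, natDegree_expand]
    have h3 := minpoly.natDegree_pos hint
    rw [h2] at h3
    have h4 : 0 < g.natDegree := Nat.pos_of_mul_pos_right h3
    have h5 : 1 * p ^ n ≤ g.natDegree * p ^ n := Nat.mul_le_mul_right _ h4
    omega
  have hn : n ≤ m := (Nat.lt_pow_self (Fact.out : p.Prime).one_lt).le.trans hdeg
  have hy : aeval (x ^ p ^ n) g = 0 := by
    have h1 := minpoly.aeval (separableClosure K L) x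
    rw [← hge, expand_aeval] at h1
    exact h1
  have hsep : IsSeparable (separableClosure K L) (x ^ p ^ n) :=
    Polynomial.Separable.of_dvd hg (minpoly.dvd _ _ hy)
  have hy' : x ^ p ^ n ∈ separableClosure (separableClosure K L) L :=
    mem_separableClosure_iff.mpr hsep
  rw [separableClosure.separableClosure_eq_bot] at hy'
  obtain ⟨s, hs⟩ := IntermediateField.mem_bot.mp hy'
  have h1 : x ^ p ^ m = (x ^ p ^ n) ^ p ^ (m - n) := by
    rw [← pow_mul, ← pow_add]
    congr 2
    omega
  rw [h1, ← hs]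
  exact pow_mem s.2 _

/-- some Frobenius power of the point is defined over the separable closure -/
def InS (K : Type*) {L : Type*} [Field K] [Field L] [Algebra K L] (p c : ℕ) (z : Option L) :
    Prop :=
  ∃ s : Option (separableClosure K L), eb L s = fz p c z

variable {p}

omit [Fact p.Prime] [CharP K p] [CharP L p] in
lemma InS.mono {c c' : ℕ} {z : Option L} (h : InS K p c z) (hcc : c ≤ c') : InS K p c' z := by
  obtain ⟨s, hs⟩ := h
  refine ⟨fz p (c' - c) s, ?_⟩
  rw [← fz_eb, hs, fz_fz]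
  congr 1
  omega

omit [Fact p.Prime] [CharP K p] [CharP L p] in
lemma InS.none' {c : ℕ} : InS K p c (none : Option L) := ⟨none, rfl⟩

omit [Fact p.Prime] [CharP K p] [CharP L p] in
lemma InS.some' {c : ℕ} {x : L} (h : x ^ p ^ c ∈ separableClosure K L) :
    InS K p c (some x) := ⟨some ⟨_, h⟩, rfl⟩

lemma fix_InS [IsAlgClosed L] (hd : 2 ≤ d) (R : RD K L d) {z : Option L} (hz : R.act z = z) :
    InS K p (d + 1) z := by
  rcases z with _ | x
  · exact InS.none'
  · apply InS.some'
    have h1 := R.fix_root hz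
    apply pow_mem_sep p ((R.p - X * R.q).map (algebraMap K (separableClosure K L)))
    · exact (Polynomial.map_ne_zero_iff (algebraMap K (separableClosure K L)).injective).mpr
        (R.fix_ne hd)
    · refine natDegree_map_le.trans ((natDegree_sub_le _ _).trans (max_le ?_ ?_))
      · have := R.hp
        omega
      · refine natDegree_mul_le.trans ?_
        have := R.hq
        have := natDegree_X_le (R := K)
        omega
    · rw [aeval_map_algebraMap]
      exact h1

lemma aeval_frob (f : K[X]) (c : ℕ) (x : L) :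
    (aeval x f) ^ p ^ c = aeval (x ^ p ^ c) (f.map (iterateFrobenius K p c)) := by
  have h1 : (aeval x f) ^ p ^ c = iterateFrobenius L p c (aeval x f) := rfl
  rw [h1, aeval_def, aeval_def, hom_eval₂, eval₂_map]
  have h2 : (iterateFrobenius L p c).comp (algebraMap K L) =
      (algebraMap K L).comp (iterateFrobenius K p c) := by
    ext y
    simp [iterateFrobenius_def]
  rw [h2, iterateFrobenius_def]

lemma q_ne [IsAlgClosed L] (hd : 1 ≤ d) (R : RD K L d) (s : L)
    (h : ∀ x : L, aeval x R.p = s * aeval x R.q) : False := by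
  have hinf : Infinite L := IsAlgClosed.instInfinite
  have h1 : R.p.map (algebraMap K L) = C s * R.q.map (algebraMap K L) := by
    apply Polynomial.funext
    intro x
    rw [eval_mul, eval_C, eval_map_algebraMap, eval_map_algebraMap]
    exact h x
  have hco : IsCoprime (R.p.map (algebraMap K L)) (R.q.map (algebraMap K L)) := by
    obtain ⟨a, b, hab⟩ := R.coprime
    refine ⟨a.map (algebraMap K L), b.map (algebraMap K L), ?_⟩
    rw [← Polynomial.map_mul, ← Polynomial.map_mul, ← Polynomial.map_add, hab, Polynomial.map_one]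
  have h2 : IsUnit (R.q.map (algebraMap K L)) := by
    obtain ⟨a, b, hab⟩ := hco
    rw [h1] at hab
    apply IsUnit.of_mul_eq_one (a * C s + b)
    rw [← hab]
    ring
  have h3 := natDegree_eq_zero_of_isUnit h2
  rw [natDegree_map] at h3
  have h4 : R.p.natDegree = 0 := by
    have h5 : (R.p.map (algebraMap K L)).natDegree ≤ (R.q.map (algebraMap K L)).natDegree := by
      rw [h1]
      exact natDegree_C_mul_le _ _
    rw [natDegree_map, natDegree_map] at h5
    omega
  rcases R.lead with h | h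
  · exact h (coeff_eq_zero_of_natDegree_lt (by omega))
  · exact h (coeff_eq_zero_of_natDegree_lt (by omega))

lemma act_some_eq (R : RD K L d) (x : L) : R.act (some x) = pt (aeval x R.p, aeval x R.q) := by
  have h1 : R.act (some x) = pt (hl L d R.p (x, 1), hl L d R.q (x, 1)) := rfl
  rw [h1, hl_one d _ R.hp, hl_one d _ R.hq]

lemma preim_InS [IsAlgClosed L] (hd : 1 ≤ d) (R : RD K L d) {z w : Option L} {c : ℕ}
    (hz : R.act z = w) (hw : InS K p c w) : InS K p (c + d) z := by
  rcases z with _ | x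
  · exact InS.none'
  rw [act_some_eq] at hz
  rcases w with _ | y
  · -- a pole
    have h1 : aeval x R.q = 0 := by
      by_contra h
      rw [pt_of_ne h] at hz
      exact absurd hz (by simp)
    refine InS.mono (c := d) ?_ (by omega)
    apply InS.some'
    have hq0 : R.q ≠ 0 := by
      intro h0
      have hco := R.coprime
      rw [h0] at hco
      have h2 := natDegree_eq_zero_of_isUnit (isCoprime_zero_right.mp hco)
      rcases R.lead with h | h
      · exact h (coeff_eq_zero_of_natDegree_lt (by omega))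
      · exact h (by rw [h0, coeff_zero])
    apply pow_mem_sep p (R.q.map (algebraMap K (separableClosure K L)))
    · exact (Polynomial.map_ne_zero_iff (algebraMap K (separableClosure K L)).injective).mpr hq0
    · exact natDegree_map_le.trans R.hq
    · rw [aeval_map_algebraMap]
      exact h1
  · have h1 : aeval x R.q ≠ 0 := by
      intro h
      rw [pt_zero h] at hz
      exact absurd hz (by simp)
    rw [pt_of_ne h1] at hz
    have h2 : aeval x R.p = y * aeval x R.q := by
      have h3 := Option.some_injective _ hz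
      simp only at h3
      rw [← h3, div_mul_cancel₀ _ h1]
    obtain ⟨s, hs⟩ := hw
    rcases s with _ | s
    · exact absurd hs (by simp [eb, fz])
    have hs' : algebraMap (separableClosure K L) L s = y ^ p ^ c := Option.some_injective _ hs
    set P' := (R.p.map (iterateFrobenius K p c)).map (algebraMap K (separableClosure K L)) with hP'
    set Q' := (R.q.map (iterateFrobenius K p c)).map (algebraMap K (separableClosure K L)) with hQ'
    have hev : ∀ u : L, aeval (u ^ p ^ c) (P' - C s * Q') =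
        (aeval u R.p) ^ p ^ c - y ^ p ^ c * (aeval u R.q) ^ p ^ c := by
      intro u
      rw [map_sub, map_mul, aeval_C, hP', hQ', aeval_map_algebraMap, aeval_map_algebraMap,
        ← aeval_frob, ← aeval_frob, hs']
    have hmem : (x ^ p ^ c) ^ p ^ d ∈ separableClosure K L := by
      apply pow_mem_sep p (P' - C s * Q')
      · intro h0
        apply q_ne hd R y
        intro u
        have h3 := hev u
        rw [h0, map_zero] at h3
        apply pow_inj p c
        show (aeval u R.p) ^ p ^ c = (y * aeval u R.q) ^ p ^ c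
        rw [mul_pow]
        exact (sub_eq_zero.mp h3.symm)
      · refine (natDegree_sub_le _ _).trans (max_le ?_ ?_)
        · exact natDegree_map_le.trans (natDegree_map_le.trans R.hp)
        · exact (natDegree_C_mul_le _ _).trans (natDegree_map_le.trans
            (natDegree_map_le.trans R.hq))
      · rw [hev, h2, mul_pow, sub_self]
    apply InS.some'
    rw [pow_add, pow_mul]
    exact hmem

/-- three points of small degree -/
def Three (R : RD K L d) (z z1 z2 : Option L) : Prop :=
  z ≠ z1 ∧ z ≠ z2 ∧ z1 ≠ z2 ∧ R.act z = z ∧ R.act z1 = z ∧ R.act z2 = z1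

lemma Three.inS [IsAlgClosed L] (hd : 2 ≤ d) {R : RD K L d} {z z1 z2 : Option L}
    (h : Three R z z1 z2) : InS K p (3 * d + 1) z ∧ InS K p (3 * d + 1) z1 ∧
      InS K p (3 * d + 1) z2 := by
  obtain ⟨-, -, -, h1, h2, h3⟩ := h
  have g1 : InS K p (d + 1) z := fix_InS hd R h1
  have g2 := preim_InS (p := p) (by omega) R h2 g1
  have g3 := preim_InS (p := p) (by omega) R h3 g2
  exact ⟨g1.mono (by omega), g2.mono (by omega), g3.mono (by omega)⟩

/-- transfer of the three points -/
lemma Three.pull [IsAlgClosed L] {R : RD K L d} {z z1 z2 : Option L} (h : Three R z z1 z2) {N : ℕ}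
    (s : Lv p R N) : ∃ x x1 x2 : Option L, s.j x = z ∧ s.j x1 = z1 ∧ s.j x2 = z2 ∧
      Three s.S x x1 x2 := by
  obtain ⟨h01, h02, h12, h1, h2, h3⟩ := h
  obtain ⟨x, rfl⟩ := s.j_surj z
  obtain ⟨x1, rfl⟩ := s.j_surj z1
  obtain ⟨x2, rfl⟩ := s.j_surj z2
  refine ⟨x, x1, x2, rfl, rfl, rfl, fun h => h01 (by rw [h]), fun h => h02 (by rw [h]),
    fun h => h12 (by rw [h]), ?_, ?_, ?_⟩
  · apply s.j_inj
    rw [← s.act_j, h1]
  · apply s.j_inj
    rw [← s.act_j, h2]
  · apply s.j_inj
    rw [← s.act_j, h3]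

/-- Descent of the Moebius map from the separable closure to `K`. -/
lemma descend (Γ1 Γ2 : K × K) (hΓ : wd Γ1 Γ2 ≠ 0) (M : ℕ) (lam : L)
    (G1 G2 : (separableClosure K L) × (separableClosure K L))
    (h1 : vb L Γ1 = lam • vb L (fv p M G1)) (h2 : vb L Γ2 = lam • vb L (fv p M G2)) :
    ∃ (c : K) (T1 T2 : K × K), c ≠ 0 ∧ Γ1 = c • fv p M T1 ∧ Γ2 = c • fv p M T2 := by
  have hΓ1 : Γ1 ≠ 0 := by
    rintro rfl
    apply hΓ
    unfold wd
    simp
  have a1 : algebraMap K L Γ1.1 = lam * (algebraMap _ L G1.1) ^ p ^ M := by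
    have := congrArg Prod.fst h1
    simpa [vb, fv] using this
  have a2 : algebraMap K L Γ1.2 = lam * (algebraMap _ L G1.2) ^ p ^ M := by
    have := congrArg Prod.snd h1
    simpa [vb, fv] using this
  have a3 : algebraMap K L Γ2.1 = lam * (algebraMap _ L G2.1) ^ p ^ M := by
    have := congrArg Prod.fst h2
    simpa [vb, fv] using this
  have a4 : algebraMap K L Γ2.2 = lam * (algebraMap _ L G2.2) ^ p ^ M := by
    have := congrArg Prod.snd h2
    simpa [vb, fv] using this
  have key : ∀ (c : K) (g : separableClosure K L), c ≠ 0 →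
      algebraMap K L c = lam * (algebraMap _ L g) ^ p ^ M →
      ∀ (e : K) (g' : separableClosure K L), algebraMap K L e = lam * (algebraMap _ L g') ^ p ^ M →
      ∃ t : K, e = c * t ^ p ^ M := by
    intro c g hc hcg e g' heg
    have hcL : algebraMap K L c ≠ 0 := (_root_.map_ne_zero _).mpr hc
    have hg : (algebraMap (separableClosure K L) L g) ^ p ^ M ≠ 0 := by
      intro h
      rw [h, mul_zero] at hcg
      exact hcL hcg
    have hlam : lam ≠ 0 := by
      rintro rfl
      rw [zero_mul] at hcg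
      exact hcL hcg
    obtain ⟨t, ht⟩ := mem_of_pow p (K := K) (s := algebraMap (separableClosure K L) L (g' / g))
      (g' / g).2 (M := M) (a := e / c) (by
        rw [map_div₀, map_div₀, div_pow, hcg, heg, mul_div_mul_left _ _ hlam])
    refine ⟨t, ?_⟩
    apply (algebraMap K L).injective
    rw [map_mul, map_pow, ht, map_div₀, div_pow, heg, hcg]
    field_simp
  by_cases hc : Γ1.1 = 0
  · have hc2 : Γ1.2 ≠ 0 := fun h => hΓ1 (Prod.ext hc h)
    obtain ⟨t1, ht1⟩ := key _ _ hc2 a2 _ _ a1
    obtain ⟨t2, ht2⟩ := key _ _ hc2 a2 _ _ a2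
    obtain ⟨t3, ht3⟩ := key _ _ hc2 a2 _ _ a3
    obtain ⟨t4, ht4⟩ := key _ _ hc2 a2 _ _ a4
    exact ⟨Γ1.2, (t1, t2), (t3, t4), hc2, Prod.ext ht1 ht2, Prod.ext ht3 ht4⟩
  · obtain ⟨t1, ht1⟩ := key _ _ hc a1 _ _ a1
    obtain ⟨t2, ht2⟩ := key _ _ hc a1 _ _ a2
    obtain ⟨t3, ht3⟩ := key _ _ hc a1 _ _ a3
    obtain ⟨t4, ht4⟩ := key _ _ hc a1 _ _ a4
    exact ⟨Γ1.1, (t1, t2), (t3, t4), hc, Prod.ext ht1 ht2, Prod.ext ht3 ht4⟩

/-- **Two deep structures coincide at the upper levels.** -/
theorem deep_unique [IsAlgClosed L] (hd : 2 ≤ d) {R : RD K L d} {z z1 z2 : Option L}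
    (h3 : Three R z z1 z2) {N M : ℕ} (hN : N = M + (3 * d + 1)) (s t : Lv p R N) (y : Option K) :
    ∃ y' : Option K, t.j (eb L y) = jj p L s.U s.V M (eb L y') := by
  set C := 3 * d + 1 with hC
  obtain ⟨x, x1, x2, hx, hx1, hx2, hxT⟩ := h3.pull s
  obtain ⟨w, w1, w2, hw, hw1, hw2, hwT⟩ := h3.pull t
  obtain ⟨⟨a, ha⟩, ⟨a1, ha1⟩, ⟨a2, ha2⟩⟩ := hxT.inS (p := p) hd
  obtain ⟨⟨b, hb⟩, ⟨b1, hb1⟩, ⟨b2, hb2⟩⟩ := hwT.inS (p := p) hd
  have hcs : CharP (separableClosure K L) p := charP_of_injective_algebraMap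
    (algebraMap K (separableClosure K L)).injective p
  -- the transition
  set Γ1 := ax s.U s.V t.U with hΓ1
  set Γ2 := ax s.U s.V t.V with hΓ2
  have hΓ : wd Γ1 Γ2 ≠ 0 := by
    rw [hΓ1, hΓ2, ax_eq, ax_eq, wd_gx, wd_adj]
    exact mul_ne_zero s.hw t.hw
  have htrans : ∀ u : Option L, mi (vb L s.U) (vb L s.V) (mb (vb L t.U) (vb L t.V) u) =
      mb (vb L Γ1) (vb L Γ2) u := by
    intro u
    rw [mi_eq, mb_mb (wd_vb_ne t.hw)]
    congr 1
    · rw [← ax_eq, hΓ1, vb_ax]
    · rw [← ax_eq, hΓ2, vb_ax]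
  have hpts : ∀ (u v : Option L), s.j u = t.j v →
      mb (vb L Γ1) (vb L Γ2) (fz p N v) = fz p N u := by
    intro u v h
    rw [← htrans]
    have h1 : mb (vb L t.U) (vb L t.V) (fz p N v) = mb (vb L s.U) (vb L s.V) (fz p N u) := h.symm
    rw [h1, mi_mb (wd_vb_ne s.hw)]
  have hN' : ∀ (u : Option L) (a : Option (separableClosure K L)), eb L a = fz p C u →
      fz p N u = fz p M (eb L a) := by
    intro u a h
    rw [h, fz_fz, hN]
  have e0 := hpts x w (by rw [hx, hw])
  have e1 := hpts x1 w1 (by rw [hx1, hw1])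
  have e2 := hpts x2 w2 (by rw [hx2, hw2])
  rw [hN' _ _ ha, hN' _ _ hb] at e0
  rw [hN' _ _ ha1, hN' _ _ hb1] at e1
  rw [hN' _ _ ha2, hN' _ _ hb2] at e2
  have hne : ∀ (u v : Option L) (a b : Option (separableClosure K L)), eb L a = fz p C u →
      eb L b = fz p C v → u ≠ v → a ≠ b := by
    intro u v a b h h' huv hab
    apply huv
    rw [hab, h'] at h
    exact (fz_inj p C h).symm
  obtain ⟨lam, G1, G2, hlam, g1, g2⟩ := three_points p (vb L Γ1) (vb L Γ2) (wd_vb_ne hΓ) M
    a a1 a2 b b1 b2 (hne _ _ _ _ hb hb1 hwT.1) (hne _ _ _ _ hb hb2 hwT.2.1)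
    (hne _ _ _ _ hb1 hb2 hwT.2.2.1) e0 e1 e2
  obtain ⟨c, T1, T2, hc, k1, k2⟩ := descend (p := p) Γ1 Γ2 hΓ M lam G1 G2 g1 g2
  refine ⟨mb T1 T2 (fz p C y), ?_⟩
  have h1 : t.j (eb L y) = mb (vb L s.U) (vb L s.V) (mb (vb L Γ1) (vb L Γ2)
      (fz p N (eb L y))) := by
    rw [← htrans, mb_mi (wd_vb_ne s.hw)]
    rfl
  rw [h1]
  unfold jj
  congr 1
  rw [fz_eb, mb_eb, fz_eb]
  congr 1
  -- over K
  have h2 : fz p N y = fz p M (fz p C y) := by rw [fz_fz, hN]
  rw [h2]
  obtain ⟨v, hv⟩ : ∃ v, v = fz p C y := ⟨_, rfl⟩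
  rw [← hv]
  unfold mb
  rw [rep_fz, k1, k2]
  have h3 : gx (c • fv p M T1) (c • fv p M T2) (fv p M (rep v)) =
      c • fv p M (gx T1 T2 (rep v)) := by
    rw [fv_gx]
    unfold gx
    rw [smul_add, smul_comm c, smul_comm c]
  rw [h3, pt_smul hc, pt_fv]

end Pool.Agent.V7H78.RP.D
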